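import Pool.Agent.JZ12.Defs
import Pool.Agent.H370R2.Local

/-!
# Zeros of a product of `r` functions
-/

set_option autoImplicit false

open Complex Filter Topology Set
open H370 (zset mult NN Nd Ns GoodL)

namespace Pool.Agent.JZ12

namespace Counts

lemma order_top {F : ℂ → ℂ} (hF : GoodL F) {s : ℂ} (hs : 0 < s.im) : analyticOrderAt F s ≠ ⊤ := by
  have hU : IsPreconnected {s : ℂ | 0 < s.im} := (convex_halfSpace_im_gt 0).isPreconnected
  obtain ⟨c, hc, hl⟩ := hF.lower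
  have h3 := hl 1 le_rfl
  have h2 : F ⟨2, 1⟩ ≠ 0 := norm_pos_iff.1 (hc.trans_le h3)
  exact H370.Loc.order_ne_top (f := F) (K := {s : ℂ | 0 < s.im}) hU (fun s hs => hF.an s hs)
    (c := ⟨2, 1⟩) (by simp only [Set.mem_ofPred_eq]; norm_num) h2 hs

lemma mult_pos_iff {F : ℂ → ℂ} (hF : GoodL F) {s : ℂ} (hs : 0 < s.im) :
    0 < mult F s ↔ F s = 0 := by
  have hU : IsPreconnected {s : ℂ | 0 < s.im} := (convex_halfSpace_im_gt 0).isPreconnected
  obtain ⟨c, hc, hl⟩ := hF.lower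
  have h3 := hl 1 le_rfl
  have h2 : F ⟨2, 1⟩ ≠ 0 := norm_pos_iff.1 (hc.trans_le h3)
  exact H370.Loc.mult_pos (f := F) (K := {s : ℂ | 0 < s.im}) hU (fun s hs => hF.an s hs)
    (c := ⟨2, 1⟩) (by simp only [Set.mem_ofPred_eq]; norm_num) h2 hs

lemma prod_mult : ∀ (r : ℕ) (G : Fin r → ℂ → ℂ), (∀ j, GoodL (G j)) → ∀ {s : ℂ}, 0 < s.im →
    AnalyticAt ℂ (fun s => ∏ j, G j s) s ∧ analyticOrderAt (fun s => ∏ j, G j s) s ≠ ⊤ ∧
    mult (fun s => ∏ j, G j s) s = ∑ j, mult (G j) s := by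
  intro r
  induction r with
  | zero =>
    intro G hG s hs
    have e : (fun s : ℂ => ∏ j : Fin 0, G j s) = fun _ => (1 : ℂ) := by
      funext s
      exact Fin.prod_univ_zero _
    rw [e]
    have h1 : AnalyticAt ℂ (fun _ : ℂ => (1 : ℂ)) s := analyticAt_const
    have h2 : analyticOrderAt (fun _ : ℂ => (1 : ℂ)) s = 0 :=
      h1.analyticOrderAt_eq_zero.2 one_ne_zero
    refine ⟨h1, ?_, ?_⟩
    · rw [h2]
      exact ENat.zero_ne_top
    · unfold mult analyticOrderNatAt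
      rw [h2]
      simp
  | succ r ih =>
    intro G hG s hs
    obtain ⟨a1, a2, a3⟩ := ih (fun j => G j.succ) (fun j => hG _) hs
    have e : (fun s : ℂ => ∏ j : Fin (r + 1), G j s) =
        G 0 * fun s => ∏ j : Fin r, G j.succ s := by
      funext s
      rw [Fin.prod_univ_succ]
      rfl
    rw [e, Fin.sum_univ_succ]
    refine ⟨((hG 0).an s hs).mul a1, ?_, ?_⟩
    · rw [analyticOrderAt_mul ((hG 0).an s hs) a1]
      exact WithTop.add_ne_top.2 ⟨order_top (hG 0) hs, a2⟩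
    · unfold mult at a3 ⊢
      rw [analyticOrderNatAt_mul ((hG 0).an s hs) a1 (order_top (hG 0) hs) a2, a3]

lemma zset_prod {r : ℕ} (G : Fin r → ℂ → ℂ) (T1 T2 : ℝ) :
    zset (fun s => ∏ j, G j s) T1 T2 = ⋃ j, zset (G j) T1 T2 := by
  ext s
  simp only [zset, Set.mem_ofPred_eq, Set.mem_iUnion, Finset.prod_eq_zero_iff, Finset.mem_univ,
    true_and]
  constructor
  · rintro ⟨h1, h2, h3, h4, j, h5⟩
    exact ⟨j, h1, h2, h3, h4, h5⟩
  · rintro ⟨j, h1, h2, h3, h4, h5⟩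
    exact ⟨h1, h2, h3, h4, j, h5⟩

end Counts

open Counts in
/-- JZ-15 -/
theorem t_counts : StCounts := by
  intro r G hG T hT
  have hf : ∀ j, (zset (G j) T (2 * T)).Finite := fun j => H370.zset_finite (hG j) T _ hT
  refine ⟨hf, ?_, zset_prod G T (2 * T)⟩
  have hU : (⋃ j, zset (G j) T (2 * T)).Finite := Set.finite_iUnion hf
  have him : ∀ {s : ℂ}, s ∈ ⋃ j, zset (G j) T (2 * T) → 0 < s.im := by
    intro s hs
    obtain ⟨j, hj⟩ := Set.mem_iUnion.1 hs
    linarith [hj.2.2.1]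
  have hN : ∀ j, NN (G j) T (2 * T) = ∑ s ∈ hU.toFinset, mult (G j) s := by
    intro j
    unfold NN
    rw [finsum_mem_eq_finite_toFinset_sum _ (hf j)]
    refine Finset.sum_subset (fun s hs => ?_) (fun s hs hs' => ?_)
    · rw [Set.Finite.mem_toFinset] at hs ⊢
      exact Set.mem_iUnion.2 ⟨j, hs⟩
    · rw [Set.Finite.mem_toFinset] at hs hs'
      obtain ⟨k, hk⟩ := Set.mem_iUnion.1 hs
      have h0 : G j s ≠ 0 := fun h => hs' ⟨hk.1, hk.2.1, hk.2.2.1, hk.2.2.2.1, h⟩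
      by_contra hc
      exact h0 ((mult_pos_iff (hG j) (him hs)).1 (Nat.pos_of_ne_zero hc))
  rw [Finset.sum_congr rfl fun j _ => hN j, Finset.sum_comm]
  unfold NN
  rw [zset_prod, finsum_mem_eq_finite_toFinset_sum _ hU]
  refine Finset.sum_congr rfl fun s hs => ?_
  rw [Set.Finite.mem_toFinset] at hs
  exact (prod_mult r G hG (him hs)).2.2

end Pool.Agent.JZ12
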