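import Pool.Agent.JZ12.Defs

/-!
# JZ-E: cross terms (helper72)
-/

set_option autoImplicit false

open Complex Filter Topology Set
open DirichletCharacter (changeLevel)
open ArithmeticFunction (vonMangoldt)

namespace Pool.Agent.JZ12

namespace Crs

theorem ld {q : ℕ} [NeZero q] (χ : DirichletCharacter ℂ q) {s : ℂ} (hs : 1 < s.re) :
    ∑' n : ℕ, (vonMangoldt n : ℂ) * χ (n : ZMod q) * (n : ℂ) ^ (-s) =
      -(deriv (DirichletCharacter.LFunction χ) s / DirichletCharacter.LFunction χ s) := by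
  have h1 := DirichletCharacter.LSeries_twist_vonMangoldt_eq χ hs
  rw [DirichletCharacter.deriv_LFunction_eq_deriv_LSeries χ hs,
    DirichletCharacter.LFunction_eq_LSeries χ hs, ← neg_div, ← h1]
  unfold LSeries
  refine tsum_congr fun n => ?_
  rcases eq_or_ne n 0 with rfl | hn
  · simp
  · rw [LSeries.term_of_ne_zero hn, Complex.cpow_neg, Pi.mul_apply]
    ring

theorem chi_apply {N1 N2 : ℕ} [NeZero (N1 * N2)] (ψ1 : DirichletCharacter ℂ N1)
    (ψ2 : DirichletCharacter ℂ N2) (n : ℕ) :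
    (changeLevel (dvd_mul_right N1 N2) ψ1 * (changeLevel (dvd_mul_left N2 N1) ψ2)⁻¹)
      (n : ZMod (N1 * N2)) = ψ1 (n : ZMod N1) * (starRingEnd ℂ) (ψ2 (n : ZMod N2)) := by
  by_cases hn : n.Coprime (N1 * N2)
  · have hz : IsCoprime (n : ℤ) ((N1 * N2 : ℕ) : ℤ) := Nat.isCoprime_iff_coprime.2 hn
    have h1 := DirichletCharacter.changeLevel_eq_cast_of_dvd' ψ1 (dvd_mul_right N1 N2) hz
    have h2 := DirichletCharacter.changeLevel_eq_cast_of_dvd' ψ2 (dvd_mul_left N2 N1) hz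
    simp only [Int.cast_natCast] at h1 h2
    rw [MulChar.mul_apply, MulChar.inv_apply_eq_inv', h1, h2]
    congr 1
    have h3 : IsUnit (n : ZMod N2) :=
      (ZMod.isUnit_iff_coprime n N2).2 (Nat.Coprime.coprime_mul_left_right hn)
    have h4 := DirichletCharacter.unit_norm_eq_one ψ2 h3.unit
    rw [IsUnit.unit_spec] at h4
    exact Complex.inv_eq_conj h4
  · have h0 : ¬ IsUnit (n : ZMod (N1 * N2)) := fun h => hn ((ZMod.isUnit_iff_coprime n _).1 h)
    rw [MulChar.map_nonunit _ h0]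
    by_cases h1 : n.Coprime N1
    · have h2 : ¬ n.Coprime N2 := fun h => hn (Nat.Coprime.mul_right h1 h)
      have h3 : ¬ IsUnit (n : ZMod N2) := fun h => h2 ((ZMod.isUnit_iff_coprime n _).1 h)
      rw [MulChar.map_nonunit _ h3, map_zero, mul_zero]
    · have h3 : ¬ IsUnit (n : ZMod N1) := fun h => h1 ((ZMod.isUnit_iff_coprime n _).1 h)
      rw [MulChar.map_nonunit _ h3, zero_mul]

theorem chi_ne {N1 N2 : ℕ} [NeZero (N1 * N2)] (ψ1 : DirichletCharacter ℂ N1)
    (ψ2 : DirichletCharacter ℂ N2) (p1 : ψ1.IsPrimitive) (p2 : ψ2.IsPrimitive)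
    (h : ∃ n : ℕ, ψ1 (n : ZMod N1) ≠ ψ2 (n : ZMod N2)) :
    changeLevel (dvd_mul_right N1 N2) ψ1 * (changeLevel (dvd_mul_left N2 N1) ψ2)⁻¹ ≠ 1 := by
  intro h1
  rw [mul_inv_eq_one] at h1
  have h2 := DirichletCharacter.conductor_changeLevel ψ1 (dvd_mul_right N1 N2)
  rw [h1, DirichletCharacter.conductor_changeLevel ψ2 (dvd_mul_left N2 N1),
    (DirichletCharacter.isPrimitive_def _).1 p1, (DirichletCharacter.isPrimitive_def _).1 p2] at h2
  subst h2
  have h3 := DirichletCharacter.changeLevel_injective _ h1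
  obtain ⟨n, hn⟩ := h
  exact hn (by rw [h3])

theorem an {q : ℕ} [NeZero q] (χ : DirichletCharacter ℂ q) (s : ℂ) (h : s ≠ 1 ∨ χ ≠ 1) :
    AnalyticAt ℂ (DirichletCharacter.LFunction χ) s := by
  rw [Complex.analyticAt_iff_eventually_differentiableAt]
  rcases h with h | h
  · filter_upwards [isOpen_ne.mem_nhds h] with z hz
    exact DirichletCharacter.differentiableAt_LFunction χ z (Or.inl hz)
  · exact Filter.Eventually.of_forall fun z =>
      DirichletCharacter.differentiableAt_LFunction χ z (Or.inr h)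

end Crs

open Crs in
theorem t_cross : StCross := by
  intro N1 N2 ψ1 ψ2 y hN1 hN2 p1 p2 hy
  have : NeZero (N1 * N2) := ⟨mul_ne_zero hN1 hN2⟩
  obtain ⟨χ, hχ⟩ : ∃ χ : DirichletCharacter ℂ (N1 * N2),
      χ = changeLevel (dvd_mul_right N1 N2) ψ1 * (changeLevel (dvd_mul_left N2 N1) ψ2)⁻¹ :=
    ⟨_, rfl⟩
  obtain ⟨s0, hs0⟩ : ∃ s0 : ℂ, s0 = ((1 : ℝ) : ℂ) + (y : ℂ) * I := ⟨_, rfl⟩
  have hre : s0.re = 1 := by rw [hs0]; simp
  have him : s0.im = y := by rw [hs0]; simp
  have hne : s0 ≠ 1 ∨ χ ≠ 1 := by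
    by_cases h : y = 0
    · right
      rw [hχ]
      exact chi_ne ψ1 ψ2 p1 p2 (hy h)
    · left
      intro h1
      apply h
      rw [← him, h1]
      simp
  have hL : DirichletCharacter.LFunction χ s0 ≠ 0 :=
    DirichletCharacter.LFunction_ne_zero_of_one_le_re χ hne.symm hre.ge
  have han := an χ s0 hne
  have hcont : ContinuousAt (fun σ : ℝ =>
      -(deriv (DirichletCharacter.LFunction χ) ((σ : ℂ) + (y : ℂ) * I) /
        DirichletCharacter.LFunction χ ((σ : ℂ) + (y : ℂ) * I))) 1 := by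
    have h1 : ContinuousAt (fun s : ℂ => -(deriv (DirichletCharacter.LFunction χ) s /
        DirichletCharacter.LFunction χ s)) s0 :=
      (han.deriv.continuousAt.div han.continuousAt hL).neg
    have h2 : ContinuousAt (fun σ : ℝ => (σ : ℂ) + (y : ℂ) * I) 1 :=
      (Complex.continuous_ofReal.add continuous_const).continuousAt
    rw [hs0] at h1
    exact ContinuousAt.comp (f := fun σ : ℝ => (σ : ℂ) + (y : ℂ) * I) h1 h2
  have hlim : Tendsto (fun σ : ℝ => ((σ - 1 : ℝ) : ℂ) *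
      -(deriv (DirichletCharacter.LFunction χ) ((σ : ℂ) + (y : ℂ) * I) /
        DirichletCharacter.LFunction χ ((σ : ℂ) + (y : ℂ) * I))) (𝓝 1) (𝓝 0) := by
    have h1 : Tendsto (fun σ : ℝ => ((σ - 1 : ℝ) : ℂ)) (𝓝 1) (𝓝 0) := by
      have h2 : Continuous fun σ : ℝ => ((σ - 1 : ℝ) : ℂ) := by fun_prop
      have h3 := h2.tendsto 1
      simpa using h3
    have h4 := h1.mul hcont.tendsto
    rwa [zero_mul] at h4
  refine (hlim.mono_left nhdsWithin_le_nhds).congr' ?_
  filter_upwards [self_mem_nhdsWithin] with σ hσ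
  have hσ' : 1 < ((σ : ℂ) + (y : ℂ) * I).re := by
    have : (1 : ℝ) < σ := hσ
    simpa using this
  rw [← ld χ hσ']
  congr 1
  refine tsum_congr fun n => ?_
  rw [hχ, chi_apply]

end Pool.Agent.JZ12
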