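import Pool.Agent.JZ12.Defs

/-!
# Project JZ: diagonal terms (JZ-7)
-/

set_option autoImplicit false

open Complex Filter Topology Set
open ArithmeticFunction (vonMangoldt)

namespace Pool.Agent.JZ12

namespace Diag

open DirichletCharacter in
/-- the sum as a logarithmic derivative -/
theorem eq_log (N : ℕ) [NeZero N] (ψ : DirichletCharacter ℂ N) (σ : ℝ) (hσ : 1 < σ) :
    ((∑' n : ℕ, vonMangoldt n * ‖ψ (n : ZMod N)‖ ^ 2 * (n : ℝ) ^ (-σ) : ℝ) : ℂ) =
      -deriv (LFunctionTrivChar N) (σ : ℂ) / LFunctionTrivChar N (σ : ℂ) := by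
  have hs : 1 < (σ : ℂ).re := by simpa using hσ
  have h1 := LSeries_twist_vonMangoldt_eq (1 : DirichletCharacter ℂ N) hs
  have h2 : LFunctionTrivChar N (σ : ℂ) = LSeries (fun n : ℕ => (1 : DirichletCharacter ℂ N) n)
      (σ : ℂ) := LFunction_eq_LSeries _ hs
  have h3 : deriv (LFunctionTrivChar N) (σ : ℂ) =
      deriv (LSeries (fun n : ℕ => (1 : DirichletCharacter ℂ N) n)) (σ : ℂ) :=
    deriv_LFunction_eq_deriv_LSeries _ hs
  rw [h2, h3, ← h1, Complex.ofReal_tsum, LSeries]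
  refine tsum_congr fun n => ?_
  rcases eq_or_ne n 0 with rfl | hn
  · simp
  rw [LSeries.term_of_ne_zero hn]
  simp only [Pi.mul_apply]
  push_cast
  rw [Complex.ofReal_cpow (Nat.cast_nonneg n)]
  push_cast
  rw [Complex.cpow_neg, div_eq_mul_inv]
  congr 1
  by_cases hu : IsUnit (n : ZMod N)
  · obtain ⟨v, hv⟩ := hu
    have e1 : ‖ψ (n : ZMod N)‖ = 1 := by
      rw [← hv]
      exact unit_norm_eq_one ψ v
    have e2 : (1 : DirichletCharacter ℂ N) (n : ZMod N) = 1 := by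
      rw [← hv]
      simp
    rw [e1, e2]
    simp
  · rw [MulChar.map_nonunit ψ hu, MulChar.map_nonunit _ hu]
    simp

end Diag

open DirichletCharacter in
/-- **JZ-7** -/
theorem t_diag : StDiag := by
  intro N ψ hN
  have : NeZero N := ⟨hN⟩
  set g : ℂ → ℂ := fun s => -deriv (LFunctionTrivChar₁ N) s / LFunctionTrivChar₁ N s with hg
  have hc := continuousOn_neg_logDeriv_LFunctionTrivChar₁ N
  have hmem : (1 : ℂ) ∈ {s : ℂ | s = 1 ∨ LFunctionTrivChar N s ≠ 0} := Or.inl rfl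
  have hco : Tendsto (fun σ : ℝ => (σ : ℂ)) (𝓝[>] (1 : ℝ))
      (𝓝[{s : ℂ | s = 1 ∨ LFunctionTrivChar N s ≠ 0}] (1 : ℂ)) := by
    refine tendsto_nhdsWithin_iff.2 ⟨?_, ?_⟩
    · have := (Complex.continuous_ofReal.tendsto (1 : ℝ)).mono_left
        (nhdsWithin_le_nhds (s := Set.Ioi (1 : ℝ)))
      simpa using this
    · filter_upwards [self_mem_nhdsWithin] with σ hσ
      refine Or.inr ?_
      have hσ1 : (1 : ℝ) < σ := hσ
      refine LFunction_ne_zero_of_one_le_re 1 (Or.inr ?_) ?_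
      · intro h
        have := congrArg Complex.re h
        simp at this
        linarith
      · simpa using hσ1.le
  have h1 : Tendsto (fun σ : ℝ => g (σ : ℂ)) (𝓝[>] (1 : ℝ)) (𝓝 (g 1)) :=
    (hc 1 hmem).tendsto.comp hco
  have h2 : Tendsto (fun σ : ℝ => (σ : ℂ) - 1) (𝓝[>] (1 : ℝ)) (𝓝 0) := by
    have := ((Complex.continuous_ofReal.sub continuous_const).tendsto (1 : ℝ)).mono_left
        (nhdsWithin_le_nhds (s := Set.Ioi (1 : ℝ))) (f := fun σ : ℝ => (σ : ℂ) - 1)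
    simpa using this
  have h3 : Tendsto (fun σ : ℝ => ((σ : ℂ) - 1) * g (σ : ℂ) + 1) (𝓝[>] (1 : ℝ)) (𝓝 1) := by
    have := (h2.mul h1).add_const (1 : ℂ)
    simpa using this
  have h4 := (Complex.continuous_re.tendsto (1 : ℂ)).comp h3
  have h5 : (1 : ℂ).re = 1 := rfl
  rw [h5] at h4
  refine h4.congr' ?_
  filter_upwards [self_mem_nhdsWithin] with σ hσ
  have hσ1 : (1 : ℝ) < σ := hσ
  have hne : (σ : ℂ) ≠ 1 := by
    intro h
    have := congrArg Complex.re h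
    simp at this
    linarith
  have hne' : (σ : ℂ) - 1 ≠ 0 := sub_ne_zero.2 hne
  have hL : LFunctionTrivChar N (σ : ℂ) ≠ 0 :=
    LFunction_ne_zero_of_one_le_re 1 (Or.inr hne) (by simpa using hσ1.le)
  have e := Diag.eq_log N ψ σ hσ1
  have e2 : ((σ : ℂ) - 1) * g (σ : ℂ) + 1 =
      (((σ - 1) * ∑' n : ℕ, vonMangoldt n * ‖ψ (n : ZMod N)‖ ^ 2 * (n : ℝ) ^ (-σ) : ℝ) : ℂ) := by
    rw [Complex.ofReal_mul, e, hg]
    simp only
    rw [deriv_LFunctionTrivChar₁_apply_of_ne_one _ hne, LFunctionTrivChar₁,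
      Function.update_of_ne hne]
    push_cast
    field_simp
    ring
  show (((σ : ℂ) - 1) * g (σ : ℂ) + 1).re = _
  rw [e2, Complex.ofReal_re]

end Pool.Agent.JZ12
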