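import Pool.Agent.JZ12.Defs
import Pool.Agent.H385R2.PrimSetM
import Pool.Agent.H385R2.Win

/-!
# The family theorem for products of `r` functions of degree one
(after `W388.final_of_const_E`)
-/

set_option autoImplicit false
set_option maxHeartbeats 4000000

open Complex Filter Topology Set MeasureTheory
open H370 (zset mult NN Nd Ns GoodL)
open H385
open W388 (GoodE TwE SelE)

namespace Pool.Agent.JZ12

/-- JZ-13 -/
theorem t_fin (hc : W388.StCore) (hx : StCoreX) (hm : W388.StMean) (hs : StScale) : StFin := by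
  intro r A hr hA M hM c c' hcc F hF hS γ κ h0 hπ hκ
  have hd : (1 : ℝ) ≤ (r : ℝ) := by exact_mod_cast hr
  have hd0 : (0 : ℝ) < (r : ℝ) := by linarith
  have hs3 : ∀ γ β e, HYM M c' γ β e → HYM M c γ β ((r : ℝ) * e) :=
    fun γ β e h => hs r M c c' hr hcc γ β e h
  clear hs
  generalize (r : ℝ) = d at *
  set R0 : ℝ := Rw γ 0 with hR0
  have hR0n : 0 ≤ R0 := Rw_nonneg γ h0 hπ 0
  set J : ℝ := ∫ α in (0 : ℝ)..1, α * Rw γ α with hJ
  have hJn : 0 ≤ J := intervalIntegral.integral_nonneg zero_le_one (fun α hα =>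
    mul_nonneg hα.1 (Rw_nonneg γ h0 hπ α))
  have hk0 : 0 ≤ d / 2 * R0 + 4 * J := by positivity
  set κ1 : ℝ := (d / 2 * R0 + 4 * J + κ) / 2 with hκ1
  have hκ11 : d / 2 * R0 + 4 * J < κ1 := by rw [hκ1]; linarith
  have hκ12 : κ1 < κ := by rw [hκ1]; linarith
  have hκ10 : 0 < κ1 := by linarith
  set e : ℝ := κ1 - (d / 2 * R0 + 4 * J) with he
  have he0 : 0 < e := by rw [he]; linarith
  -- choose β
  set s : ℝ := min (1 / 2) (e / (d * R0 + 1)) with hs'
  have hs0 : 0 < s := by positivity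
  have hs1 : s ≤ 1 / 2 := min_le_left _ _
  have hs2 : d * R0 * s ≤ e := by
    have h1 : s ≤ e / (d * R0 + 1) := min_le_right _ _
    calc d * R0 * s ≤ d * R0 * (e / (d * R0 + 1)) := mul_le_mul_of_nonneg_left h1 (by positivity)
      _ = e * (d * R0 / (d * R0 + 1)) := by ring
      _ ≤ e * 1 := by
        refine mul_le_mul_of_nonneg_left ?_ he0.le
        rw [div_le_one (by positivity)]; linarith
      _ = e := mul_one e
  set β : ℝ := 2 - s with hβ
  have hβ1 : 1 < β := by rw [hβ]; linarith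
  have hβ2 : β < 2 := by rw [hβ]; linarith
  have hβ0 : 0 < β := by linarith
  have e2 : d * R0 / β ≤ d / 2 * R0 + e / 2 := by
    have : d * R0 / β = d / 2 * R0 + d * R0 * s / (2 * β) := by
      rw [hβ]
      have : (2 - s) ≠ 0 := by linarith
      field_simp
      ring
    rw [this]
    have h3 : d * R0 * s / (2 * β) ≤ e / 2 := by
      rw [div_le_div_iff₀ (by positivity) (by norm_num)]
      nlinarith [mul_nonneg (mul_nonneg hd0.le hR0n) hs0.le]
    linarith
  have hcp : 0 ≤ d * (2 * β * J) := by positivity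
  have hmean : HYM M c γ β (d * (2 * β * J)) :=
    hs3 γ β _ (hm M hM c' hS γ β h0 hπ hβ0 hβ2)
  obtain ⟨K, η, X0, hK, hη, hX0, h⟩ := hc d A hd hA M c F hF γ β _ h0 hπ hβ0 hcp hR0n
    hmean (e / 2) (by positivity)
  obtain ⟨K', η', X0', hK', hη', hX0', h'⟩ := hx κ1 hκ10 d A hd hA M c F hF γ β _ h0 hπ hβ0 hcp
    hR0n hmean (e / 2) (by positivity)
  refine ⟨max K K', min η η', max X0 X0', le_max_of_le_left hK, lt_min hη hη',
    le_max_of_le_left hX0, ?_⟩
  intro X Y T a1 a2 a3 a4 a5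
  have hX1 : (1 : ℝ) ≤ X := (hX0.trans (le_max_left _ _)).trans a1
  have hX0r : (0 : ℝ) ≤ X := by linarith
  have p1 : X0 ≤ X := (le_max_left _ _).trans a1
  have p1' : X0' ≤ X := (le_max_right _ _).trans a1
  have p2 : K * X ≤ Y := (mul_le_mul_of_nonneg_right (le_max_left _ _) hX0r).trans a2
  have p2' : K' * X ≤ Y := (mul_le_mul_of_nonneg_right (le_max_right _ _) hX0r).trans a2
  have p3 : (Y : ℝ) ≤ (X : ℝ) ^ (1 + η) :=
    a3.trans (Real.rpow_le_rpow_of_exponent_le hX1 (by linarith [min_le_left η η']))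
  have p3' : (Y : ℝ) ≤ (X : ℝ) ^ (1 + η') :=
    a3.trans (Real.rpow_le_rpow_of_exponent_le hX1 (by linarith [min_le_right η η']))
  have p5 : T ≤ (X : ℝ) ^ η :=
    a5.trans (Real.rpow_le_rpow_of_exponent_le hX1 (min_le_left η η'))
  have p5' : T ≤ (X : ℝ) ^ η' :=
    a5.trans (Real.rpow_le_rpow_of_exponent_le hX1 (min_le_right η η'))
  obtain ⟨b1, b2⟩ := h X Y T p1 p2 p3 a4 p5
  have b3 := h' X Y T p1' p2' p3' a4 p5'
  have hN : 0 ≤ primFamM M X Y (fun q χ => (NN (F q χ) T (2 * T) : ℝ)) :=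
    primFamM_nonneg _ _ _ _ (fun _ _ => Nat.cast_nonneg _)
  have hD : 0 ≤ primFamM M X Y (fun q χ => (Nd (F q χ) T (2 * T) : ℝ)) :=
    primFamM_nonneg _ _ _ _ (fun _ _ => Nat.cast_nonneg _)
  have hJ2 : d * (2 * β * J) / d ≤ 4 * J := by
    rw [mul_div_assoc, mul_comm, div_mul_cancel₀ _ hd0.ne']
    have h1 : β * J ≤ 2 * J := mul_le_mul_of_nonneg_right hβ2.le hJn
    linarith
  have hcc2 : d * R0 / β + d * (2 * β * J) / d + e / 2 ≤ κ1 := by
    have : d / 2 * R0 + 4 * J + e = κ1 := by rw [he]; ring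
    linarith
  have hcc' := mul_le_mul_of_nonneg_right hcc2 hN
  have hcc3 := mul_le_mul_of_nonneg_right hκ12.le hN
  have l1 := primFamM_lin M X Y 2 1 (fun q χ => (NN (F q χ) T (2 * T) : ℝ))
    (fun q χ => (Ns (F q χ) T (2 * T) : ℝ))
  have l2 := primFamM_lin M X Y 3 2 (fun q χ => (NN (F q χ) T (2 * T) : ℝ))
    (fun q χ => (Nd (F q χ) T (2 * T) : ℝ))
  have l3 := primFamM_lin M X Y (2 * κ1) (κ1 ^ 2) (fun q χ => (NN (F q χ) T (2 * T) : ℝ))
    (fun q χ => (Nd (F q χ) T (2 * T) : ℝ))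
  simp only [one_mul] at l1
  rw [l1] at b1
  rw [l2] at b2
  rw [l3] at b3
  refine ⟨by linarith, by linarith, ?_⟩
  have q1 : κ1 * primFamM M X Y (fun q χ => (NN (F q χ) T (2 * T) : ℝ)) ≤
      κ1 * (κ1 * primFamM M X Y (fun q χ => (Nd (F q χ) T (2 * T) : ℝ))) := by
    have := b3.trans hcc'
    nlinarith
  have q2 := le_of_mul_le_mul_left q1 hκ10
  exact q2.trans (mul_le_mul_of_nonneg_right hκ12.le hD)

end Pool.Agent.JZ12
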