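import Pool.Agent.JZ12.Defs

/-!
# JZ : the main theorem for products of `r` twisted Dirichlet L-functions (assembly)
-/

set_option autoImplicit false

open Complex Filter Topology Set MeasureTheory
open H370 (zset mult NN Nd Ns GoodL)
open H385 (primFamM Rw HYM pm GoodU)
open W388 (GoodE TwE SelE)

namespace Pool.Agent.JZ12

/-! ### the radical (copied from `W388.TW.Final`) -/

/-- the radical of `N` -/
def rad (N : ℕ) : ℕ := ∏ p ∈ N.primeFactors, p

theorem rad_squarefree (N : ℕ) : Squarefree (rad N) := by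
  unfold rad
  refine Finset.squarefree_prod_of_pairwise_isCoprime ?_ ?_
  · intro p hp q hq hpq
    have h1 := Nat.prime_of_mem_primeFactors hp
    have h2 := Nat.prime_of_mem_primeFactors hq
    show IsRelPrime p q
    rw [← Nat.coprime_iff_isRelPrime]
    exact (Nat.coprime_primes h1 h2).mpr hpq
  · intro p hp
    exact (Nat.prime_of_mem_primeFactors hp).squarefree

theorem coprime_rad {N : ℕ} (hN : N ≠ 0) (q : ℕ) : Nat.Coprime q (rad N) ↔ Nat.Coprime q N := by
  constructor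
  · intro h
    rw [Nat.coprime_comm] at h ⊢
    refine Nat.Coprime.symm (Nat.Coprime.symm ?_)
    refine Nat.coprime_of_dvd fun p hp h1 h2 => ?_
    have h3 : p ∣ rad N := by
      unfold rad
      exact Finset.dvd_prod_of_mem _ (Nat.mem_primeFactors.mpr ⟨hp, h1, hN⟩)
    exact Nat.Prime.one_lt hp |>.ne' (Nat.Coprime.eq_one_of_dvd (Nat.Coprime.coprime_dvd_left h3 h) h2)
  · intro h
    unfold rad
    refine Nat.Coprime.prod_right fun p hp => ?_
    exact Nat.Coprime.coprime_dvd_right (Nat.dvd_of_mem_primeFactors hp) h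

theorem primFamM_rad {N : ℕ} (hN : N ≠ 0) (X Y : ℕ)
    (f : (q : ℕ) → DirichletCharacter ℂ q → ℝ) : primFamM (rad N) X Y f = primFamM N X Y f := by
  unfold primFamM
  congr 1
  ext q
  simp only [Finset.mem_filter, coprime_rad hN]

theorem t_main (hf : StFin) (htw : StTw) (hs : StSel) (hp : StPos) : StMain := by
  intro r D M hr hM hN γ κ h0 hπ hκ
  obtain ⟨M', hM'⟩ : ∃ M' : ℕ, M' = rad M := ⟨_, rfl⟩
  have hsq : Squarefree M' := by rw [hM']; exact rad_squarefree _
  have hcop : ∀ q : ℕ, Nat.Coprime q M' ↔ Nat.Coprime q M := by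
    rw [hM']; exact coprime_rad hM
  obtain ⟨A, hA, hT⟩ := (htw r D hr).2 M' (fun q hq j =>
    Nat.Coprime.coprime_dvd_right (hN j) ((hcop q).1 hq))
  have hr0 : (0 : ℝ) < r := by exact_mod_cast hr
  have hsr : ((Real.sqrt r : ℝ) : ℂ) ≠ 0 := by
    rw [Complex.ofReal_ne_zero]
    exact (Real.sqrt_pos.2 hr0).ne'
  obtain ⟨K, η, X0, hK, hη, hX0, h⟩ := hf r A hr hA M' hsq D.c
    (fun n => ((Real.sqrt r : ℝ) : ℂ)⁻¹ * D.c n) (fun n => by
      rw [mul_inv_cancel_left₀ hsr]) D.F hT (hs r D hr) γ κ h0 hπ hκ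
  obtain ⟨K2, X2, hK2, hX2, h2⟩ := hp (r : ℝ) A (by exact_mod_cast hr) hA M' hsq D.c D.F hT
  refine ⟨max K K2, min η 1, max (max X0 X2) 3, le_max_of_le_left hK, lt_min hη one_pos,
    le_max_of_le_left (le_max_of_le_left hX0), ?_⟩
  intro X Y T a1 a2 a3 a4 a5
  have hXX0 : X0 ≤ (X : ℝ) := ((le_max_left _ _).trans (le_max_left _ _)).trans a1
  have hXX2 : X2 ≤ (X : ℝ) := ((le_max_right _ _).trans (le_max_left _ _)).trans a1
  have hX3 : (3 : ℝ) ≤ (X : ℝ) := (le_max_right _ _).trans a1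
  have hX1' : (1 : ℝ) ≤ (X : ℝ) := by linarith
  have hXpos : (0 : ℝ) < X := by linarith
  have hlog : 1 ≤ Real.log X := by
    rw [Real.le_log_iff_exp_le hXpos]
    linarith [Real.exp_one_lt_d9]
  have hT1 : 1 ≤ T := (one_le_pow₀ hlog).trans a4
  have b1 : K * X ≤ Y := (mul_le_mul_of_nonneg_right (le_max_left _ _) hXpos.le).trans a2
  have b2 : K2 * X ≤ Y := (mul_le_mul_of_nonneg_right (le_max_right _ _) hXpos.le).trans a2
  have a3' : (Y : ℝ) ≤ (X : ℝ) ^ (1 + η) := a3.trans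
    (Real.rpow_le_rpow_of_exponent_le hX1' (by linarith [min_le_left η 1]))
  have a5' : T ≤ (X : ℝ) ^ η := a5.trans
    (Real.rpow_le_rpow_of_exponent_le hX1' (min_le_left _ _))
  have hY2 : (Y : ℝ) ≤ (X : ℝ) ^ 2 := by
    refine a3.trans ?_
    have := Real.rpow_le_rpow_of_exponent_le hX1' (show 1 + min η 1 ≤ ((2 : ℕ) : ℝ) by
      push_cast
      linarith [min_le_right η 1])
    rwa [Real.rpow_natCast] at this
  have hTX : T ≤ (X : ℝ) := by
    have := a5.trans (Real.rpow_le_rpow_of_exponent_le hX1' (min_le_right η 1))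
    rwa [Real.rpow_one] at this
  obtain ⟨c1, c2, c3⟩ := h X Y T hXX0 b1 a3' a4 a5'
  have c0 := h2 X Y T hXX2 b2 hY2 a4 hTX
  simp only [hM', primFamM_rad hM] at c0 c1 c2 c3
  exact ⟨hT1, by exact_mod_cast (by linarith : (2 : ℝ) ≤ (X : ℝ)), c0, c1, c2, c3⟩

end Pool.Agent.JZ12
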