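import Pool.Agent.JZ12.Defs
import Pool.Agent.H385R2.GoodD

/-!
# JZ-A: the product of `r` functions of degree one (helper58)
-/

set_option autoImplicit false
set_option maxHeartbeats 4000000

open Complex Filter Topology Set MeasureTheory
open ArithmeticFunction (vonMangoldt)

namespace Pool.Agent.JZ12.MulAux

open H385 W388

/-- the Dirichlet series of a sequence bounded by `d Λ` converges absolutely for `Re s > 1` -/
lemma summ_of_le {d : ℝ} {a : ℕ → ℂ} (ha : ∀ n, ‖a n‖ ≤ d * vonMangoldt n) {s : ℂ}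
    (hs : 1 < s.re) : Summable (fun n : ℕ => a n * (n : ℂ) ^ (-s)) := by
  have h1 : LSeriesSummable (fun n => (vonMangoldt n : ℂ)) s :=
    ArithmeticFunction.LSeriesSummable_vonMangoldt hs
  refine Summable.of_norm_bounded (h1.norm.mul_left d) fun n => ?_
  rcases Nat.eq_zero_or_pos n with hn | hn
  · subst hn
    have h2 := ha 0
    rw [ArithmeticFunction.map_zero, mul_zero] at h2
    have h3 : a 0 = 0 := norm_le_zero_iff.1 h2
    rw [h3]
    simp
  · rw [LSeries.term_of_ne_zero hn.ne', norm_mul, norm_div, Complex.cpow_neg, norm_inv,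
      div_eq_mul_inv, ← mul_assoc]
    refine mul_le_mul_of_nonneg_right ?_ (by positivity)
    refine (ha n).trans (le_of_eq ?_)
    rw [Complex.norm_real, Real.norm_of_nonneg ArithmeticFunction.vonMangoldt_nonneg]

theorem nz_refl {d B P : ℝ} {H : ℂ → ℂ} {c : ℕ → ℂ} (hH : GoodD d B P H c) {s : ℂ}
    (h2 : s.re ≤ 1 / 2) (h3 : 1 ≤ s.im) (h0 : H s ≠ 0) : H (1 - (starRingEnd ℂ) s) ≠ 0 := by
  have i2 : 0 < s.im := by linarith
  have i1 : 1 ≤ (1 - (starRingEnd ℂ) s).im := by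
    simp only [sub_im, one_im, conj_im]
    linarith
  rcases le_or_gt s.re 0 with hr | hr
  · apply hH.nzr _ _ i1
    simp only [sub_re, one_re, conj_re]
    linarith
  · have hre : s.re < 1 := by linarith
    have := hH.symm s hr hre h3
    intro hz
    have z1 : analyticOrderAt H (1 - (starRingEnd ℂ) s) ≠ 0 := by
      rw [Ne, (hH.an _ (by linarith)).analyticOrderAt_eq_zero]
      simpa using hz
    have z2 : analyticOrderAt H s = 0 := (hH.an _ i2).analyticOrderAt_eq_zero.2 h0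
    exact z1 (this.trans z2)

theorem mul2 {d1 d2 A1 A2 Q : ℝ} {F G : ℂ → ℂ} {a b : ℕ → ℂ} (hA1 : 1 ≤ A1) (hA2 : 1 ≤ A2)
    (hQ : 1 ≤ Q) (hF : GoodD d1 A1 Q F a) (hG : GoodD d2 A2 Q G b) :
    GoodD (d1 + d2) (A1 * A2 + A1 + A2) Q (fun s => F s * G s) (fun n => a n + b n) := by
  have hA12 : 1 ≤ A1 * A2 := by nlinarith
  have hfun : (fun s => F s * G s) = F * G := rfl
  have hld : ∀ s : ℂ, 0 < s.im → F s ≠ 0 → G s ≠ 0 →
      deriv (fun s => F s * G s) s / (F s * G s) = deriv F s / F s + deriv G s / G s := by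
    intro s hs h1 h2
    have e : deriv (fun s => F s * G s) s = deriv F s * G s + F s * deriv G s :=
      deriv_fun_mul (hF.an s hs).differentiableAt (hG.an s hs).differentiableAt
    rw [e]
    field_simp
  refine ⟨?_, ?_, ?_, ?_, ?_, ?_, ?_, ?_, ?_⟩
  · intro s hs
    exact (hF.an s hs).mul (hG.an s hs)
  · intro s h1 h2 h3
    have i0 : 0 < s.im := by linarith
    rw [norm_mul]
    have b1 := hF.growth s h1 h2 h3
    have b2 := hG.growth s h1 h2 h3
    have c1 : 1 ≤ Q * s.im := by nlinarith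
    have c0 : 0 < Q * s.im := by linarith
    have p1 : 0 < (Q * s.im) ^ A1 := Real.rpow_pos_of_pos c0 _
    have p2 : 0 < (Q * s.im) ^ A2 := Real.rpow_pos_of_pos c0 _
    calc ‖F s‖ * ‖G s‖ ≤ (A1 * (Q * s.im) ^ A1) * (A2 * (Q * s.im) ^ A2) :=
          mul_le_mul b1 b2 (norm_nonneg _) (by positivity)
      _ = (A1 * A2) * (Q * s.im) ^ (A1 + A2) := by
          rw [Real.rpow_add c0]
          ring
      _ ≤ (A1 * A2 + A1 + A2) * (Q * s.im) ^ (A1 * A2 + A1 + A2) := by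
          refine mul_le_mul (by linarith) ?_ (by positivity) (by positivity)
          exact Real.rpow_le_rpow_of_exponent_le c1 (by linarith)
  · intro t ht
    have b1 := hF.lower t ht
    have b2 := hG.lower t ht
    have hA10 : 0 < A1 := by linarith
    have hA20 : 0 < A2 := by linarith
    calc (A1 * A2 + A1 + A2)⁻¹ ≤ (A1 * A2)⁻¹ := inv_anti₀ (by positivity) (by linarith)
      _ = A1⁻¹ * A2⁻¹ := by rw [mul_inv]
      _ ≤ ‖F (⟨2, t⟩ : ℂ)‖ * ‖G (⟨2, t⟩ : ℂ)‖ := mul_le_mul b1 b2 (by positivity) (norm_nonneg _)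
      _ = ‖F (⟨2, t⟩ : ℂ) * G (⟨2, t⟩ : ℂ)‖ := (norm_mul _ _).symm
  · intro s h1 h2
    exact mul_ne_zero (hF.nzr s h1 h2) (hG.nzr s h1 h2)
  · intro s h1 h2
    exact mul_ne_zero (hF.nzl s h1 h2) (hG.nzl s h1 h2)
  · intro s h1 h2 h3
    have i1 : 0 < (1 - (starRingEnd ℂ) s).im := by
      simp only [sub_im, one_im, conj_im]
      linarith
    have i2 : 0 < s.im := by linarith
    rw [hfun, analyticOrderAt_mul (hF.an _ i1) (hG.an _ i1),
      analyticOrderAt_mul (hF.an _ i2) (hG.an _ i2), hF.symm s h1 h2 h3, hG.symm s h1 h2 h3]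
  · intro n
    have b1 := hF.ha n
    have b2 := hG.ha n
    calc ‖a n + b n‖ ≤ ‖a n‖ + ‖b n‖ := norm_add_le _ _
      _ ≤ (d1 + d2) * vonMangoldt n := by rw [add_mul]; linarith
  · intro s h1 h2
    have i2 : 0 < s.im := by linarith
    rw [hld s i2 (hF.nzr s h1.le h2) (hG.nzr s h1.le h2), hF.ld s h1 h2, hG.ld s h1 h2]
    have e : ∀ n : ℕ, (a n + b n) * (n : ℂ) ^ (-s) = a n * (n : ℂ) ^ (-s) + b n * (n : ℂ) ^ (-s) :=
      fun n => add_mul _ _ _
    simp_rw [e]
    rw [(summ_of_le hF.ha h1).tsum_add (summ_of_le hG.ha h1)]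
    ring
  · intro s h1 h2 h3 h4
    have i2 : 0 < s.im := by linarith
    have f0 : F s ≠ 0 := left_ne_zero_of_mul h4
    have g0 : G s ≠ 0 := right_ne_zero_of_mul h4
    have i1 : 1 ≤ (1 - (starRingEnd ℂ) s).im := by
      simp only [sub_im, one_im, conj_im]
      linarith
    have f1 := nz_refl hF h2 h3 f0
    have g1 := nz_refl hG h2 h3 g0
    rw [hld s i2 f0 g0, hld _ (by linarith) f1 g1, map_add]
    have b1 := hF.left s h1 h2 h3 f0
    have b2 := hG.left s h1 h2 h3 g0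
    have e1 : (((d1 + d2) * Real.log (Q * s.im) : ℝ) : ℂ) =
        ((d1 * Real.log (Q * s.im) : ℝ) : ℂ) + ((d2 * Real.log (Q * s.im) : ℝ) : ℂ) := by
      rw [← Complex.ofReal_add]
      congr 1
      ring
    rw [e1]
    calc _ = ‖(deriv F s / F s + ((d1 * Real.log (Q * s.im) : ℝ) : ℂ) +
          (starRingEnd ℂ) (deriv F (1 - (starRingEnd ℂ) s) / F (1 - (starRingEnd ℂ) s))) +
          (deriv G s / G s + ((d2 * Real.log (Q * s.im) : ℝ) : ℂ) +
          (starRingEnd ℂ) (deriv G (1 - (starRingEnd ℂ) s) / G (1 - (starRingEnd ℂ) s)))‖ := by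
          congr 1
          ring
      _ ≤ A1 + A2 := (norm_add_le _ _).trans (add_le_add b1 b2)
      _ ≤ A1 * A2 + A1 + A2 := by linarith

theorem one_D {A Q : ℝ} {F : ℂ → ℂ} {a : ℕ → ℂ} (hF : GoodU A Q F a) : GoodD 1 A Q F a := by
  refine ⟨hF.an, hF.growth, hF.lower, hF.nzr, hF.nzl, hF.symm, ?_, hF.ld, ?_⟩
  · intro n
    rw [one_mul]
    exact hF.ha n
  · intro s h1 h2 h3 h4
    rw [one_mul]
    exact hF.left s h1 h2 h3 h4

theorem zero_D {Q : ℝ} (hQ : 1 ≤ Q) : GoodD 0 1 Q (fun _ => 1) (fun _ => 0) := by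
  have hd : ∀ s : ℂ, deriv (fun _ : ℂ => (1 : ℂ)) s = 0 := fun s => deriv_const s 1
  refine ⟨?_, ?_, ?_, ?_, ?_, ?_, ?_, ?_, ?_⟩
  · intro s _
    exact analyticAt_const
  · intro s _ _ h3
    rw [norm_one, one_mul, Real.rpow_one]
    nlinarith
  · intro t _
    rw [norm_one, inv_one]
  · intro s _ _
    exact one_ne_zero
  · intro s _ _
    exact one_ne_zero
  · intro s _ _ _
    have h1 : ∀ z : ℂ, analyticOrderAt (fun _ : ℂ => (1 : ℂ)) z = 0 := fun z =>
      (analyticAt_const.analyticOrderAt_eq_zero).2 one_ne_zero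
    rw [h1, h1]
  · intro n
    rw [norm_zero, zero_mul]
  · intro s _ _
    simp only [hd, zero_div, zero_mul, tsum_zero, neg_zero]
  · intro s _ _ _ _
    simp only [hd, zero_div, zero_mul, Complex.ofReal_zero, map_zero, add_zero, norm_zero]
    exact zero_le_one

theorem prod_D (A : ℝ) (hA : 1 ≤ A) (r : ℕ) : ∃ B : ℝ, 1 ≤ B ∧ ∀ (Q : ℝ), 1 ≤ Q →
    ∀ (F : Fin r → ℂ → ℂ) (a : Fin r → ℕ → ℂ), (∀ j, GoodU A Q (F j) (a j)) →
    GoodD (r : ℝ) B Q (fun s => ∏ j, F j s) (fun n => ∑ j, a j n) := by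
  induction r with
  | zero =>
    refine ⟨1, le_rfl, fun Q hQ F a _ => ?_⟩
    have h1 : (fun s : ℂ => ∏ j : Fin 0, F j s) = fun _ => 1 := by
      funext s
      exact Fin.prod_univ_zero _
    have h2 : (fun n : ℕ => ∑ j : Fin 0, a j n) = fun _ => 0 := by
      funext s
      exact Fin.sum_univ_zero _
    rw [h1, h2, Nat.cast_zero]
    exact zero_D hQ
  | succ r ih =>
    obtain ⟨B, hB, h⟩ := ih
    have hBA : 1 ≤ B * A := by nlinarith
    refine ⟨B * A + B + A, by linarith, fun Q hQ F a hF => ?_⟩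
    have h1 : (fun s : ℂ => ∏ j, F j s) =
        fun s => (∏ j : Fin r, F (Fin.castSucc j) s) * F (Fin.last r) s := by
      funext s
      exact Fin.prod_univ_castSucc _
    have h2 : (fun n : ℕ => ∑ j, a j n) =
        fun n => (∑ j : Fin r, a (Fin.castSucc j) n) + a (Fin.last r) n := by
      funext s
      exact Fin.sum_univ_castSucc _
    rw [h1, h2, Nat.cast_succ]
    exact mul2 hB hA hQ (h Q hQ (fun j => F (Fin.castSucc j)) (fun j => a (Fin.castSucc j))
      fun j => hF _) (one_D (hF _))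

theorem summ_real : Summable (fun n : ℕ => vonMangoldt n * (n : ℝ) ^ (-(3 / 2) : ℝ)) := by
  have h1 : LSeriesSummable (fun n => (vonMangoldt n : ℂ)) ((3 / 2 : ℝ) : ℂ) :=
    ArithmeticFunction.LSeriesSummable_vonMangoldt (by rw [Complex.ofReal_re]; norm_num)
  refine h1.norm.congr fun n => ?_
  rw [LSeries.norm_term_eq]
  split_ifs with hn
  · rw [hn, ArithmeticFunction.map_zero, zero_mul]
  · rw [Complex.norm_real, Real.norm_of_nonneg ArithmeticFunction.vonMangoldt_nonneg,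
      Complex.ofReal_re, Real.rpow_neg (Nat.cast_nonneg _), div_eq_mul_inv]

theorem toE {d B Q : ℝ} (hd : 0 ≤ d) (hB : 1 ≤ B) (hQ : 1 ≤ Q) {F : ℂ → ℂ} {a : ℕ → ℂ}
    (hF : GoodD d B Q F a) :
    GoodE d (B + d * ∑' n : ℕ, vonMangoldt n * (n : ℝ) ^ (-(3 / 2) : ℝ)) Q F a := by
  set C : ℝ := ∑' n : ℕ, vonMangoldt n * (n : ℝ) ^ (-(3 / 2) : ℝ) with hC
  have hC0 : 0 ≤ C := tsum_nonneg fun n =>
    mul_nonneg ArithmeticFunction.vonMangoldt_nonneg (Real.rpow_nonneg (Nat.cast_nonneg _) _)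
  have hBB : B ≤ B + d * C := by
    have := mul_nonneg hd hC0
    linarith
  have hle : ∀ n : ℕ, ‖a n‖ * (n : ℝ) ^ (-(3 / 2) : ℝ) ≤
      d * (vonMangoldt n * (n : ℝ) ^ (-(3 / 2) : ℝ)) := by
    intro n
    rw [← mul_assoc]
    exact mul_le_mul_of_nonneg_right (hF.ha n) (Real.rpow_nonneg (Nat.cast_nonneg _) _)
  have hs : Summable (fun n : ℕ => ‖a n‖ * (n : ℝ) ^ (-(3 / 2) : ℝ)) :=
    Summable.of_nonneg_of_le (fun n => mul_nonneg (norm_nonneg _)
      (Real.rpow_nonneg (Nat.cast_nonneg _) _)) hle (summ_real.mul_left d)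
  refine ⟨hF.an, ?_, ?_, hF.nzr, hF.nzl, hF.symm, ?_, hs, ?_, hF.ld, ?_⟩
  · intro s h1 h2 h3
    have c1 : 1 ≤ Q * s.im := by nlinarith
    refine (hF.growth s h1 h2 h3).trans (mul_le_mul hBB ?_ (by positivity) (by linarith))
    exact Real.rpow_le_rpow_of_exponent_le c1 hBB
  · intro t ht
    exact (inv_anti₀ (by linarith) hBB).trans (hF.lower t ht)
  · intro n hn
    have h1 := hF.ha n
    have h2 : vonMangoldt n = 0 := by
      interval_cases n
      · exact ArithmeticFunction.map_zero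
      · exact ArithmeticFunction.vonMangoldt_apply_one
    rw [h2, mul_zero] at h1
    exact norm_le_zero_iff.1 h1
  · calc ∑' n : ℕ, ‖a n‖ * (n : ℝ) ^ (-(3 / 2) : ℝ)
        ≤ ∑' n : ℕ, d * (vonMangoldt n * (n : ℝ) ^ (-(3 / 2) : ℝ)) :=
          hs.tsum_le_tsum hle (summ_real.mul_left d)
      _ = d * C := tsum_mul_left
      _ ≤ B + d * C := by linarith
  · intro s h1 h2 h3 h4
    exact (hF.left s h1 h2 h3 h4).trans hBB

end Pool.Agent.JZ12.MulAux

namespace Pool.Agent.JZ12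

open MulAux

theorem t_mul : StMul := by
  intro r A _ hA
  obtain ⟨B, hB, h⟩ := prod_D A hA r
  have hC0 : 0 ≤ (r : ℝ) * ∑' n : ℕ, vonMangoldt n * (n : ℝ) ^ (-(3 / 2) : ℝ) :=
    mul_nonneg (Nat.cast_nonneg _) (tsum_nonneg fun n =>
      mul_nonneg ArithmeticFunction.vonMangoldt_nonneg (Real.rpow_nonneg (Nat.cast_nonneg _) _))
  exact ⟨B + r * ∑' n : ℕ, vonMangoldt n * (n : ℝ) ^ (-(3 / 2) : ℝ), by linarith,
    fun Q hQ F a hF => toE (Nat.cast_nonneg _) hB hQ (h Q hQ F a hF)⟩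

end Pool.Agent.JZ12
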