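import Pool.Agent.JZ12.Defs
import Pool.Agent.H385R2.WinE

/-! JZ-H: the constant as `γ → 0`. -/

set_option autoImplicit false

open Filter Topology Set
open H385 (Rw)

namespace Pool.Agent.JZ12

namespace NumAux

lemma sin_div : Tendsto (fun γ : ℝ => Real.sin γ / γ) (𝓝[>] 0) (𝓝 1) := by
  have h1 : Tendsto Real.sinc (𝓝[>] 0) (𝓝 (Real.sinc 0)) :=
    Real.continuous_sinc.continuousAt.tendsto.mono_left nhdsWithin_le_nhds
  rw [Real.sinc_zero] at h1
  refine h1.congr' ?_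
  filter_upwards [self_mem_nhdsWithin] with γ hγ
  exact Real.sinc_of_ne_zero (ne_of_gt hγ)

lemma half : Tendsto (fun γ : ℝ => γ / 2) (𝓝[>] 0) (𝓝[>] 0) := by
  refine tendsto_nhdsWithin_of_tendsto_nhds_of_eventually_within _ ?_ ?_
  · have h : Tendsto (fun γ : ℝ => γ / 2) (𝓝 0) (𝓝 (0 / 2)) :=
      (continuous_id.div_const 2).tendsto 0
    rw [zero_div] at h
    exact h.mono_left nhdsWithin_le_nhds
  · filter_upwards [self_mem_nhdsWithin] with γ hγ
    exact half_pos (Set.mem_Ioi.1 hγ)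

lemma hK : Tendsto (fun γ : ℝ => (γ / (2 * Real.sin (γ / 2))) ^ 2 / 2) (𝓝[>] 0) (𝓝 (1 / 2)) := by
  have h1 := (sin_div.comp half).inv₀ one_ne_zero
  have h2 := (h1.pow 2).div_const 2
  rw [inv_one, one_pow] at h2
  refine h2.congr' ?_
  filter_upwards [self_mem_nhdsWithin] with γ hγ
  simp only [Function.comp_apply]
  rw [inv_div]
  congr 2
  rw [div_div]

lemma third : Tendsto (fun γ : ℝ => (1 - Real.cos γ - 1) / γ ^ 2 + Real.sin γ / γ ^ 3)
    (𝓝[>] 0) (𝓝 (1 / 3)) := by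
  have hb : ∀ᶠ γ : ℝ in 𝓝[>] 0,
      |(1 - Real.cos γ - 1) / γ ^ 2 + Real.sin γ / γ ^ 3 - 1 / 3| ≤ γ := by
    have h1 : Iio (1 : ℝ) ∈ 𝓝[>] (0 : ℝ) := mem_nhdsWithin_of_mem_nhds (Iio_mem_nhds one_pos)
    filter_upwards [self_mem_nhdsWithin, h1] with γ hγ hγ1
    have h0 : 0 < γ := hγ
    have h1' : γ < 1 := hγ1
    have habs : |γ| = γ := abs_of_pos h0
    have hs := Real.sin_bound (x := γ) (by rw [habs]; exact h1'.le)
    have hc := Real.cos_bound (x := γ) (by rw [habs]; exact h1'.le)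
    rw [habs] at hs hc
    rw [abs_le] at hs hc
    have e : (1 - Real.cos γ - 1) / γ ^ 2 + Real.sin γ / γ ^ 3 - 1 / 3 =
        (Real.sin γ - γ * Real.cos γ - γ ^ 3 / 3) / γ ^ 3 := by
      field_simp
      ring
    rw [e, abs_div, abs_of_pos (by positivity : 0 < γ ^ 3), div_le_iff₀ (by positivity)]
    rw [abs_le]
    have h4 : γ * γ ^ 4 ≤ γ ^ 4 := by nlinarith [pow_pos h0 4]
    have h5 : γ ^ 5 = γ * γ ^ 4 := by ring
    constructor <;> nlinarith [mul_le_mul_of_nonneg_left hc.1 h0.le,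
      mul_le_mul_of_nonneg_left hc.2 h0.le, pow_pos h0 4]
  rw [tendsto_iff_dist_tendsto_zero]
  have h2 : Tendsto (fun γ : ℝ => γ) (𝓝[>] 0) (𝓝 0) := tendsto_id.mono_left nhdsWithin_le_nhds
  refine squeeze_zero' (Eventually.of_forall fun _ => dist_nonneg) ?_ h2
  filter_upwards [hb] with γ hγ
  rw [Real.dist_eq]
  exact hγ

end NumAux

open NumAux in
theorem t_num : StNum := by
  intro r κ _ hκ
  have hE := hK.mul (((tendsto_const_nhds (x := (1 : ℝ))).add sin_div |>.const_mul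
    ((r : ℝ) / 2)).add (third.const_mul 4))
  have hlim : (1 : ℝ) / 2 * ((r : ℝ) / 2 * (1 + 1) + 4 * (1 / 3)) < κ := by linarith
  have h1 := hE.eventually (gt_mem_nhds hlim)
  have h2 : Iio Real.pi ∈ 𝓝[>] (0 : ℝ) := mem_nhdsWithin_of_mem_nhds (Iio_mem_nhds Real.pi_pos)
  obtain ⟨γ, hγ, hγ0, hγπ⟩ := (h1.and (Filter.Eventually.and self_mem_nhdsWithin h2)).exists
  refine ⟨γ, hγ0, hγπ, ?_⟩
  rw [H385.Rw_const_closed γ _ _ (ne_of_gt hγ0)]
  exact hγ

end Pool.Agent.JZ12
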