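import Pool.Agent.JZ12.Defs
import Pool.Agent.W388.TW.PerChiE

/-!
# Project JZ : the trace inequality with a parameter, one L-function

Variant of `W388.per_chi_d_D` (the case `x = 2`).
-/

set_option autoImplicit false

open Complex Filter Topology Set MeasureTheory
open scoped BigOperators ComplexConjugate
open H370 (zset mult NN Nd Ns)

namespace Pool.Agent.JZ12

open W388 H385

namespace PerX

open PerChi (zz_spec zz_refl zz_inj zz_re zz_im phiw_even phiw_zero Rw_cont aw aw_zz log_bd)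
open PerChiD (zset_refl mult_refl)

/-- the weights of the zeros -/
noncomputable def kx (x : ℝ) (s : ℂ) : ℝ := if s.re = 1 / 2 then x ^ 2 else x ^ 2 / 2

theorem trace_part (x : ℝ) (hx : 0 < x) (γ : ℝ) (h0 : 0 < γ) (hπ : γ < Real.pi) {d A Q : ℝ} {F : ℂ → ℂ}
    {a : ℕ → ℂ} (hF : GoodE d A Q F a) (T Λ V1 V2 : ℝ) (hΛ : 0 < Λ) (hT : 0 ≤ T) (hV : 1 ≤ V1) (hfin : (zset F V1 V2).Finite) :
    ∑ s ∈ hfin.toFinset, (2 * x * (mult F s : ℝ) * (cc T (zz s)).re - kx x s) ≤
      (2 / (Real.sqrt Real.pi * Λ)) * (∫ u in (0 : ℝ)..Λ, Rw γ (u / Λ) *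
          ∫ t : ℝ, ‖BB F V1 V2 T u t‖ ^ 2) := by
  classical
  set Zf := hfin.toFinset with hZf
  have hmem : ∀ {s}, s ∈ Zf ↔ s ∈ zset F V1 V2 := by
    intro s; rw [hZf, Set.Finite.mem_toFinset]
  set Z := Zf.image zz with hZdef
  have hinj : Set.InjOn zz (Zf : Set ℂ) := fun s _ s' _ h => zz_inj h
  have hZ : ∀ z ∈ Z, (starRingEnd ℂ) z ∈ Z := by
    intro z hz
    obtain ⟨s, hs, rfl⟩ := Finset.mem_image.mp hz
    rw [← zz_refl]
    exact Finset.mem_image_of_mem _ (hmem.2 (zset_refl hF hV (hmem.1 hs)))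
  have hac : ∀ z ∈ Z, aw F T ((starRingEnd ℂ) z) = (starRingEnd ℂ) (aw F T z) := by
    intro z hz
    obtain ⟨s, hs, rfl⟩ := Finset.mem_image.mp hz
    obtain ⟨h1, h2, h3, h4, h5⟩ := hmem.1 hs
    rw [← zz_refl, aw_zz, aw_zz, map_mul, Complex.conj_natCast, cc_conj, zz_refl,
      mult_refl hF h1 h2 (by linarith)]
  obtain ⟨E, i1, i2, k, hk⟩ := gram_w γ h0 hπ Λ
  set r : ℝ := 2 / x with hr
  have hr0 : 0 < r := by positivity
  have hrx : r * x = 2 := by
    rw [hr]; field_simp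
  have hac' : ∀ z ∈ Z, (r : ℂ) * aw F T ((starRingEnd ℂ) z) =
      (starRingEnd ℂ) ((r : ℂ) * aw F T z) := by
    intro z hz
    rw [map_mul, Complex.conj_ofReal, hac z hz]
  have hmain := trace_w (phiw γ Λ) k hk (phiw_even γ Λ) (phiw_zero γ h0 hπ Λ) Z hZ
    (fun z => (r : ℂ) * aw F T z) hac' ∅ (Finset.empty_subset _) (fun z hz => by simp at hz)
  have hscale : (∑ z ∈ Z, ∑ w ∈ Z, ((r : ℂ) * aw F T z) * ((r : ℂ) * aw F T w) *
      (phiw γ Λ (z - w)) ^ 2).re =
      r ^ 2 * (∑ z ∈ Z, ∑ w ∈ Z, aw F T z * aw F T w * (phiw γ Λ (z - w)) ^ 2).re := by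
    have e1 : ∑ z ∈ Z, ∑ w ∈ Z, ((r : ℂ) * aw F T z) * ((r : ℂ) * aw F T w) *
      (phiw γ Λ (z - w)) ^ 2 =
      ((r ^ 2 : ℝ) : ℂ) * ∑ z ∈ Z, ∑ w ∈ Z, aw F T z * aw F T w * (phiw γ Λ (z - w)) ^ 2 := by
      rw [Finset.mul_sum]
      refine Finset.sum_congr rfl fun z _ => ?_
      rw [Finset.mul_sum]
      refine Finset.sum_congr rfl fun w _ => ?_
      push_cast
      ring
    rw [e1, Complex.re_ofReal_mul]
  rw [hscale, quad_form γ Λ hΛ (kapw_sq γ h0 hπ) (Rw_cont γ h0 hπ) (Rw_even γ) Z hZ (aw F T) hac]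
    at hmain
  have hBB : ∀ u t : ℝ, ∑ z ∈ Z, aw F T z * (cexp (I * u * z) * cexp (-(z - t) ^ 2 / 2)) =
      BB F V1 V2 T u t := by
    intro u t
    unfold BB
    rw [finsum_mem_eq_finite_toFinset_sum _ hfin, hZdef, Finset.sum_image hinj]
    refine Finset.sum_congr rfl fun s _ => ?_
    rw [aw_zz]
  simp_rw [hBB] at hmain
  -- compute the left hand side
  have c1 : (∑ z ∈ Z, aw F T z).re = ∑ s ∈ Zf, (mult F s : ℝ) * (cc T (zz s)).re := by
    rw [hZdef, Finset.sum_image hinj, Complex.re_sum]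
    refine Finset.sum_congr rfl fun s _ => ?_
    rw [aw_zz, ← Complex.ofReal_natCast, Complex.re_ofReal_mul]
  have him0 : ∀ s, (zz s).im = 0 ↔ s.re = 1 / 2 := by
    intro s; rw [zz_im]; constructor <;> intro h <;> linarith
  have c2 : ((Z.filter (fun z => z.im = 0)).card : ℝ) =
      ∑ s ∈ Zf, if s.re = 1 / 2 then 1 else 0 := by
    rw [Finset.card_filter, Nat.cast_sum, hZdef, Finset.sum_image hinj]
    refine Finset.sum_congr rfl fun s _ => ?_
    simp only [him0, Nat.cast_ite, Nat.cast_one, Nat.cast_zero]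
  have c4 : 2 * ((Z.filter (fun z => 0 < z.im)).card : ℝ) =
      ∑ s ∈ Zf, if s.re = 1 / 2 then 0 else 1 := by
    have e1 : (Z.filter (fun z => z.im < 0)).card = (Z.filter (fun z => 0 < z.im)).card := by
      refine Finset.card_nbij' (fun z => (starRingEnd ℂ) z) (fun z => (starRingEnd ℂ) z) ?_ ?_ ?_ ?_
      · intro z hz
        simp only [Finset.coe_filter, Set.mem_ofPred_eq] at hz ⊢
        refine ⟨hZ z hz.1, ?_⟩
        rw [Complex.conj_im]; linarith [hz.2]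
      · intro z hz
        simp only [Finset.coe_filter, Set.mem_ofPred_eq] at hz ⊢
        refine ⟨hZ z hz.1, ?_⟩
        rw [Complex.conj_im]; linarith [hz.2]
      · intro z _; simp
      · intro z _; simp
    have e2 : (Z.filter (fun z => ¬ z.im = 0)).card =
        (Z.filter (fun z => z.im < 0)).card + (Z.filter (fun z => 0 < z.im)).card := by
      rw [← Finset.card_union_of_disjoint]
      · congr 1
        ext z
        simp only [Finset.mem_filter, Finset.mem_union]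
        constructor
        · rintro ⟨h1, h2⟩
          rcases lt_or_gt_of_ne h2 with h | h
          · exact Or.inl ⟨h1, h⟩
          · exact Or.inr ⟨h1, h⟩
        · rintro (⟨h1, h2⟩ | ⟨h1, h2⟩)
          · exact ⟨h1, ne_of_lt h2⟩
          · exact ⟨h1, ne_of_gt h2⟩
      · rw [Finset.disjoint_filter]
        intro z _ h1 h2
        linarith
    have e3 : 2 * ((Z.filter (fun z => 0 < z.im)).card : ℝ) =
        ((Z.filter (fun z => ¬ z.im = 0)).card : ℝ) := by
      rw [e2, e1]; push_cast; ring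
    rw [e3, Finset.card_filter, Nat.cast_sum, hZdef, Finset.sum_image hinj]
    refine Finset.sum_congr rfl fun s _ => ?_
    simp only [him0, Nat.cast_ite, Nat.cast_one, Nat.cast_zero, ite_not]
  have c0 : (∑ z ∈ Z, (r : ℂ) * aw F T z).re = r * (∑ z ∈ Z, aw F T z).re := by
    rw [← Finset.mul_sum, Complex.re_ofReal_mul]
  have c5 : ∑ s ∈ Zf, (2 * x * (mult F s : ℝ) * (cc T (zz s)).re - kx x s) =
      2 * x * (∑ s ∈ Zf, (mult F s : ℝ) * (cc T (zz s)).re) -
      (x ^ 2 * (∑ s ∈ Zf, if s.re = 1 / 2 then (1 : ℝ) else 0) +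
        x ^ 2 / 2 * (∑ s ∈ Zf, if s.re = 1 / 2 then (0 : ℝ) else 1)) := by
    rw [Finset.mul_sum, Finset.mul_sum, Finset.mul_sum, ← Finset.sum_add_distrib,
      ← Finset.sum_sub_distrib]
    refine Finset.sum_congr rfl fun s _ => ?_
    unfold kx
    by_cases h1 : s.re = 1 / 2
    · rw [if_pos h1, if_pos h1, if_pos h1]; ring
    · rw [if_neg h1, if_neg h1, if_neg h1]; ring
  rw [c5, ← c1, ← c2, ← c4]
  rw [Finset.sdiff_empty, Finset.card_empty, c0] at hmain
  set FF := (2 / (Real.sqrt Real.pi * Λ)) * (∫ u in (0 : ℝ)..Λ, Rw γ (u / Λ) *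
          ∫ t : ℝ, ‖BB F V1 V2 T u t‖ ^ 2) with hFF
  have h5 : x ^ 2 / 4 * (r ^ 2 * FF) = FF := by
    have : x ^ 2 / 4 * (r ^ 2 * FF) = (r * x) ^ 2 / 4 * FF := by ring
    rw [this, hrx]; ring
  have h6 := mul_le_mul_of_nonneg_left hmain (show 0 ≤ x ^ 2 / 4 by positivity)
  rw [h5] at h6
  refine le_trans (le_of_eq ?_) h6
  have h7 : x ^ 2 / 4 * (4 * (r * (∑ z ∈ Z, aw F T z).re)) = (r * x) * x * (∑ z ∈ Z, aw F T z).re := by
    ring
  push_cast
  rw [hrx] at h7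
  linear_combination (-1 : ℝ) * h7

theorem core (x : ℝ) (hx : 0 < x) (γ : ℝ) (h0 : 0 < γ) (hπ : γ < Real.pi) (d A : ℝ) (hd : 1 ≤ d)
    (hA : 1 ≤ A) :
    ∃ C : ℝ, 0 < C ∧ ∀ (Q : ℝ) (F : ℂ → ℂ) (a : ℕ → ℂ), 1 ≤ Q → GoodE d A Q F a →
    ∀ (w : ℂ → ℝ), (∀ s, 1 ≤ mult F s → w s ≤ 2 * x * (mult F s : ℝ) - kx x s) →
      (∀ s, 1 ≤ mult F s → w s ≤ 2 * x * (mult F s : ℝ)) →
    ∀ T κ Λ V1 V2 : ℝ, 3 ≤ κ → 8 * κ ≤ T → 1 ≤ Λ → T - 3 * κ ≤ V1 → V1 ≤ T - 3 * κ + 1 →
      2 * T + 3 * κ - 1 ≤ V2 → V2 ≤ 2 * T + 3 * κ →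
      ∀ hfin : (zset F T (2 * T)).Finite, ∑ s ∈ hfin.toFinset, w s ≤
        (2 / (Real.sqrt Real.pi * Λ)) * (∫ u in (0 : ℝ)..Λ, Rw γ (u / Λ) *
          ∫ t : ℝ, ‖BB F V1 V2 T u t‖ ^ 2)
        + C * (κ + T * Real.exp (-κ ^ 2 / 2)) * Real.log (Q * T) := by
  obtain ⟨C0, hC0, hcount⟩ := zcount_long_D d A hd hA
  refine ⟨16 * C0 * (6 * x + x ^ 2 + x), by positivity, ?_⟩
  intro Q F a hQ hFU w hw1 hw2 T κ Λ V1 V2 hκ hκT hΛ hV1 hV1' hV2 hV2' hfin
  have hV1pos : 15 ≤ V1 := by linarith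
  have hT24 : 24 ≤ T := by linarith
  have hfinV : (zset F V1 V2).Finite := zset_finite_D hA hQ hFU V1 V2 (by linarith)
  have htr := trace_part x hx γ h0 hπ hFU T Λ V1 V2 (by linarith) (by linarith) (by linarith) hfinV
  set e := Real.exp (-κ ^ 2 / 2) with he
  have he0 : 0 < e := Real.exp_pos _
  -- counts
  have hNV := hcount Q F a hQ hFU V1 V2 (by linarith) (by linarith)
  have hNa := hcount Q F a hQ hFU V1 (T + κ) (by linarith) (by linarith)
  have hNb := hcount Q F a hQ hFU (2 * T - κ) V2 (by linarith) (by linarith)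
  set L := Real.log (Q * T) with hL
  have hL0 : 0 ≤ L := Real.log_nonneg (by nlinarith)
  have l1 : Real.log (Q * V2) ≤ 2 * L := log_bd hQ (by linarith) (by linarith) (by linarith)
  have l2 : Real.log (Q * (T + κ)) ≤ 2 * L := log_bd hQ (by linarith) (by linarith) (by linarith)
  have aux : ∀ x y z w : ℝ, 0 ≤ y → x ≤ y → z ≤ 2 * L → 0 ≤ z → w ≤ C0 * x * z →
      w ≤ C0 * y * (2 * L) := by
    intro x y z w hy hxy hz hz0 hw
    refine hw.trans ?_
    have h1 : C0 * x * z ≤ C0 * y * z := by gcongr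
    refine h1.trans ?_
    gcongr
  have p1 : 0 ≤ Real.log (Q * V2) := Real.log_nonneg (by nlinarith)
  have p2 : 0 ≤ Real.log (Q * (T + κ)) := Real.log_nonneg (by nlinarith)
  have b1 : (NN F V1 V2 : ℝ) ≤ C0 * (2 * T) * (2 * L) :=
    aux _ _ _ _ (by linarith) (by linarith) l1 p1 hNV
  have b2 : (NN F V1 (T + κ) : ℝ) ≤ C0 * (4 * κ) * (2 * L) :=
    aux _ _ _ _ (by linarith) (by linarith) l2 p2 hNa
  have b3 : (NN F (2 * T - κ) V2 : ℝ) ≤ C0 * (4 * κ) * (2 * L) :=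
    aux _ _ _ _ (by linarith) (by linarith) l1 p1 hNb
  -- sums over zeros
  have hmulti : ∀ s ∈ hfinV.toFinset, 1 ≤ mult F s := by
    intro s hs
    rw [Set.Finite.mem_toFinset] at hs
    exact LocD.mult_pos_D hA hFU (by linarith [hs.2.2.1]) hs.2.2.2.2
  have n1 : (NN F V1 V2 : ℝ) = ∑ s ∈ hfinV.toFinset, (mult F s : ℝ) := by
    unfold NN
    rw [finsum_mem_eq_finite_toFinset_sum _ hfinV]
    push_cast; rfl
  have n2 : (NN F V1 (T + κ) : ℝ) =
      ∑ s ∈ hfinV.toFinset, if s.im ≤ T + κ then (mult F s : ℝ) else 0 := by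
    have hf : (zset F V1 (T + κ)).Finite := zset_finite_D hA hQ hFU V1 _ (by linarith)
    unfold NN
    rw [finsum_mem_eq_finite_toFinset_sum _ hf, ← Finset.sum_filter]
    push_cast
    refine Finset.sum_congr ?_ fun _ _ => rfl
    ext s
    simp only [Finset.mem_filter, Set.Finite.mem_toFinset]
    constructor
    · rintro ⟨h1, h2, h3, h4, h5⟩
      exact ⟨⟨h1, h2, h3, by linarith, h5⟩, h4⟩
    · rintro ⟨⟨h1, h2, h3, h4, h5⟩, h6⟩
      exact ⟨h1, h2, h3, h6, h5⟩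
  have n3 : (NN F (2 * T - κ) V2 : ℝ) =
      ∑ s ∈ hfinV.toFinset, if 2 * T - κ < s.im then (mult F s : ℝ) else 0 := by
    have hf : (zset F (2 * T - κ) V2).Finite := zset_finite_D hA hQ hFU _ _ (by linarith)
    unfold NN
    rw [finsum_mem_eq_finite_toFinset_sum _ hf, ← Finset.sum_filter]
    push_cast
    refine Finset.sum_congr ?_ fun _ _ => rfl
    ext s
    simp only [Finset.mem_filter, Set.Finite.mem_toFinset]
    constructor
    · rintro ⟨h1, h2, h3, h4, h5⟩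
      exact ⟨⟨h1, h2, by linarith, h4, h5⟩, h3⟩
    · rintro ⟨⟨h1, h2, h3, h4, h5⟩, h6⟩
      exact ⟨h1, h2, h6, h4, h5⟩
  have n4 : ∑ s ∈ hfin.toFinset, w s =
      ∑ s ∈ hfinV.toFinset, if T < s.im ∧ s.im ≤ 2 * T then w s else 0 := by
    rw [← Finset.sum_filter]
    refine Finset.sum_congr ?_ fun _ _ => rfl
    ext s
    simp only [Finset.mem_filter, Set.Finite.mem_toFinset]
    constructor
    · rintro ⟨h1, h2, h3, h4, h5⟩
      exact ⟨⟨h1, h2, by linarith, by linarith, h5⟩, h3, h4⟩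
    · rintro ⟨⟨h1, h2, h3, h4, h5⟩, h6, h7⟩
      exact ⟨h1, h2, h6, h7, h5⟩
  have hpt : ∀ s ∈ hfinV.toFinset, (if T < s.im ∧ s.im ≤ 2 * T then w s else 0) ≤
      (2 * x * (mult F s : ℝ) * (cc T (zz s)).re - kx x s) + 4 * x * e * (mult F s : ℝ) +
        (6 * x + x ^ 2) * (if s.im ≤ T + κ then (mult F s : ℝ) else 0) +
        (6 * x + x ^ 2) * (if 2 * T - κ < s.im then (mult F s : ℝ) else 0) := by
    intro s hs
    have hm := hmulti s hs
    have hm' : (1 : ℝ) ≤ (mult F s : ℝ) := by exact_mod_cast hm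
    have h1 := hw1 s hm
    have h2 := hw2 s hm
    rw [Set.Finite.mem_toFinset] at hs
    have him : |(zz s).im| ≤ 1 / 2 := by
      rw [zz_im, abs_le]; constructor <;> linarith [hs.1, hs.2.1]
    have hx2 : 0 < x ^ 2 := by positivity
    have hk2 : kx x s ≤ x ^ 2 := by
      unfold kx; split_ifs <;> linarith
    have hk3 : x ^ 2 ≤ x ^ 2 * (mult F s : ℝ) := le_mul_of_one_le_right hx2.le hm'
    have hcre : -2 ≤ (cc T (zz s)).re := by
      have h3 := cc_bound T (by linarith) (zz s) him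
      have h4 := Complex.abs_re_le_norm (cc T (zz s))
      linarith [neg_abs_le (cc T (zz s)).re]
    have hedge : ∀ X : ℝ, X ≤ 2 * x * (mult F s : ℝ) → X ≤
        (2 * x * (mult F s : ℝ) * (cc T (zz s)).re - kx x s) + 4 * x * e * (mult F s : ℝ) +
        (6 * x + x ^ 2) * (mult F s : ℝ) := by
      intro X hX
      have h5 : 2 * x * (mult F s : ℝ) * (-2) ≤ 2 * x * (mult F s : ℝ) * (cc T (zz s)).re :=
        mul_le_mul_of_nonneg_left hcre (by positivity)
      have h6 : 0 ≤ 4 * x * e * (mult F s : ℝ) := by positivity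
      have h7 : (6 * x + x ^ 2) * (mult F s : ℝ) = 6 * (x * (mult F s : ℝ)) +
        x ^ 2 * (mult F s : ℝ) := by ring
      have h8 : 2 * x * (mult F s : ℝ) * (-2) = -4 * (x * (mult F s : ℝ)) := by ring
      have h9 : 2 * x * (mult F s : ℝ) = 2 * (x * (mult F s : ℝ)) := by ring
      linarith
    have hX3 : (if T < s.im ∧ s.im ≤ 2 * T then w s else 0) ≤ 2 * x * (mult F s : ℝ) := by
      split_ifs
      · exact h2
      · positivity
    by_cases c1 : s.im ≤ T + κ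
    · rw [if_pos c1]
      have h7 : 0 ≤ (6 * x + x ^ 2) * (if 2 * T - κ < s.im then (mult F s : ℝ) else 0) := by
        split_ifs <;> positivity
      linarith [hedge _ hX3]
    · rw [if_neg c1]
      by_cases c2 : 2 * T - κ < s.im
      · rw [if_pos c2]
        linarith [hedge _ hX3]
      · rw [if_neg c2, if_pos ⟨by push Not at c1; linarith, by push Not at c2; linarith⟩]
        push Not at c1 c2
        have h8 := cc_near T κ (by linarith) (zz s) him (by rw [zz_re]; linarith)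
          (by rw [zz_re]; linarith)
        have h9 : 1 - 2 * e ≤ (cc T (zz s)).re := by
          have h10 := Complex.abs_re_le_norm (cc T (zz s) - 1)
          rw [Complex.sub_re, Complex.one_re] at h10
          linarith [neg_abs_le ((cc T (zz s)).re - 1)]
        have h11 : 2 * x * (mult F s : ℝ) * (1 - 2 * e) ≤ 2 * x * (mult F s : ℝ) * (cc T (zz s)).re :=
          mul_le_mul_of_nonneg_left h9 (by positivity)
        have h12 : 2 * x * (mult F s : ℝ) * (1 - 2 * e) =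
          2 * x * (mult F s : ℝ) - 4 * x * e * (mult F s : ℝ) := by ring
        linarith
  have hsum := Finset.sum_le_sum hpt
  rw [← n4] at hsum
  rw [Finset.sum_add_distrib, Finset.sum_add_distrib, Finset.sum_add_distrib, ← Finset.mul_sum,
    ← Finset.mul_sum, ← Finset.mul_sum, ← n1, ← n2, ← n3] at hsum
  calc ∑ s ∈ hfin.toFinset, w s ≤ _ := hsum
    _ ≤ (2 / (Real.sqrt Real.pi * Λ)) * (∫ u in (0 : ℝ)..Λ, Rw γ (u / Λ) *
          ∫ t : ℝ, ‖BB F V1 V2 T u t‖ ^ 2) + 4 * x * e * (C0 * (2 * T) * (2 * L)) +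
          (6 * x + x ^ 2) * (C0 * (4 * κ) * (2 * L)) + (6 * x + x ^ 2) * (C0 * (4 * κ) * (2 * L)) := by
        gcongr
    _ ≤ _ := by
        have h1 : 0 ≤ (6 * x + x ^ 2) * (C0 * T * e * L) := by positivity
        have h2 : 0 ≤ x * (C0 * κ * L) := by positivity
        have h3 : 16 * C0 * (6 * x + x ^ 2 + x) * (κ + T * e) * L =
          4 * x * e * (C0 * (2 * T) * (2 * L)) +
          ((6 * x + x ^ 2) * (C0 * (4 * κ) * (2 * L)) + (6 * x + x ^ 2) * (C0 * (4 * κ) * (2 * L))) +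
          16 * ((6 * x + x ^ 2) * (C0 * T * e * L)) + 16 * (x * (C0 * κ * L)) := by ring
        linarith

end PerX

open PerX

theorem t_perx : StPerX := by
  classical
  intro x hx γ h0 hπ d A hd hA
  obtain ⟨C, hC, h⟩ := PerX.core x hx γ h0 hπ d A hd hA
  refine ⟨C, hC, ?_⟩
  intro Q F a hQ hFU T κ Λ V1 V2 hκ hκT hΛ hV1 hV1' hV2 hV2'
  have hfin : (zset F T (2 * T)).Finite := zset_finite_D hA hQ hFU T _ (by linarith)
  have hx2 : 0 < x ^ 2 := by positivity
  have h1 := h Q F a hQ hFU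
    (fun s => 2 * x * (mult F s : ℝ) - x ^ 2) ?_ ?_
    T κ Λ V1 V2 hκ hκT hΛ hV1 hV1' hV2 hV2' hfin
  · refine le_trans (le_of_eq ?_) h1
    rw [Finset.sum_sub_distrib, ← Finset.mul_sum]
    congr 1
    · congr 1
      unfold NN
      rw [finsum_mem_eq_finite_toFinset_sum _ hfin]
      push_cast; rfl
    · unfold Nd
      rw [Set.ncard_eq_toFinset_card _ hfin, Finset.sum_const, nsmul_eq_mul]
      ring
  · intro s hs
    unfold kx
    split_ifs <;> linarith
  · intro s hs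
    linarith

end Pool.Agent.JZ12
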