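import Pool.Agent.JZ12.Defs
import Pool.Agent.W388.TW.NLowE
import Pool.Agent.H385R2.PrimMassM
import Pool.Agent.H385R2.PrimSetM

/-!
# The family has zeros (after `R321/RG4.lean`)
-/

set_option autoImplicit false
set_option maxHeartbeats 4000000

open Complex Filter Topology Set MeasureTheory
open H370 (zset mult NN Nd Ns GoodL)
open H385
open W388 (GoodE TwE SelE)

namespace Pool.Agent.JZ12

namespace Pos

theorem cM_pos (M : ℕ) : 0 < cM M := by
  unfold cM c0
  have : 0 < ∏ p ∈ M.primeFactors, ((p : ℝ) ^ 3 / (((p : ℝ) - 1) * ((p : ℝ) + 1) ^ 2)) := by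
    refine Finset.prod_pos (fun p hp => ?_)
    have hp2 : 2 ≤ p := (Nat.prime_of_mem_primeFactors hp).two_le
    have : (2 : ℝ) ≤ p := by exact_mod_cast hp2
    have h1 : 0 < (p : ℝ) - 1 := by linarith
    positivity
  positivity

/-- the parameters -/
theorem par {L : ℝ} (hL : 16 ≤ L) : 9 * L ^ 2 * Real.exp (-L ^ 2 / 2) ≤ 1 := by
  have h1 : 9 * L ^ 2 ≤ Real.exp (L ^ 2 / 2) := by
    have h2 := Real.quadratic_le_exp_of_nonneg (show 0 ≤ L ^ 2 / 2 by positivity)
    have h3 : 72 ≤ L ^ 2 := by nlinarith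
    nlinarith
  have h2 : Real.exp (L ^ 2 / 2) * Real.exp (-L ^ 2 / 2) = 1 := by
    rw [← Real.exp_add]
    have : L ^ 2 / 2 + -L ^ 2 / 2 = 0 := by ring
    rw [this, Real.exp_zero]
  rw [← h2]
  exact mul_le_mul_of_nonneg_right h1 (Real.exp_pos _).le

/-- every member of the family has a zero in the range -/
theorem NN_big (d A : ℝ) (hd : 1 ≤ d) (hA : 1 ≤ A) : ∃ X1 : ℝ, 1 ≤ X1 ∧
    ∀ (X q : ℕ) (F : ℂ → ℂ) (a : ℕ → ℂ) (T : ℝ), X1 ≤ X →
    X < q → (q : ℝ) ≤ (X : ℝ) ^ 2 → GoodE d A q F a →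
    (Real.log X) ^ 2 ≤ T → T ≤ X → (1 : ℝ) ≤ (NN F T (2 * T) : ℝ) := by
  obtain ⟨C, hC, hN⟩ := W388.N_lower_D d A hd hA
  refine ⟨Real.exp (16 + 40 * C), Real.one_le_exp (by positivity), ?_⟩
  intro X q F a T hX hq hq2 hG hT1 hT2
  have hXpos : (0 : ℝ) < X := lt_of_lt_of_le (Real.exp_pos _) hX
  set L : ℝ := Real.log X with hL
  have hLL : 16 + 40 * C ≤ L := by
    rw [hL, Real.le_log_iff_exp_le hXpos]; exact hX
  have hL16 : 16 ≤ L := by linarith
  have hX1 : 1 ≤ X := by exact_mod_cast hXpos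
  have p1 : 3 ≤ L := by linarith
  have p2 : 8 * L ≤ T := by nlinarith
  have p6 := par hL16
  have hq0 : (0 : ℝ) < q := by exact_mod_cast (show 0 < q by omega)
  have hq1 : (1 : ℝ) ≤ q := by exact_mod_cast (show 1 ≤ q by omega)
  have hqX : (X : ℝ) ≤ q := by exact_mod_cast hq.le
  have hL0 : 0 ≤ L := by linarith
  have hT0 : 1 ≤ T := by linarith
  have hTpos : 0 < T := by linarith
  have hl := hN q F a hq1 hG T L p1 p2
  have hlog1 : L ≤ Real.log (q * T) := by
    rw [hL]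
    refine Real.log_le_log hXpos ?_
    calc (X : ℝ) = X * 1 := (mul_one _).symm
      _ ≤ q * T := mul_le_mul hqX hT0 zero_le_one hq0.le
  have hlog2 : Real.log (q * T) ≤ 3 * L := by
    have e1 : (q : ℝ) * T ≤ (X : ℝ) ^ 3 := by
      calc (q : ℝ) * T ≤ (X : ℝ) ^ 2 * X := mul_le_mul hq2 hT2 hTpos.le (by positivity)
        _ = (X : ℝ) ^ 3 := by ring
    calc Real.log (q * T) ≤ Real.log ((X : ℝ) ^ 3) := Real.log_le_log (by positivity) e1
      _ = 3 * L := by rw [Real.log_pow, hL]; norm_num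
  have a2 : L * Real.log (q * T) ≤ 3 * T := by
    have : L * Real.log (q * T) ≤ L * (3 * L) := mul_le_mul_of_nonneg_left hlog2 (by linarith)
    linarith [show L * (3 * L) = 3 * L ^ 2 by ring]
  have a3 : T * Real.log (q * T) ^ 2 * Real.exp (-L ^ 2 / 2) ≤ T := by
    have b1 : Real.log (q * T) ^ 2 ≤ (3 * L) ^ 2 := pow_le_pow_left₀ (by linarith) hlog2 2
    have b2 : Real.log (q * T) ^ 2 * Real.exp (-L ^ 2 / 2) ≤ 1 := by
      refine le_trans (mul_le_mul_of_nonneg_right b1 (Real.exp_pos _).le) ?_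
      rw [show (3 * L) ^ 2 = 9 * L ^ 2 by ring]; exact p6
    calc _ = T * (Real.log (q * T) ^ 2 * Real.exp (-L ^ 2 / 2)) := by ring
      _ ≤ T * 1 := mul_le_mul_of_nonneg_left b2 hTpos.le
      _ = T := mul_one T
  have a4 : C * (T + L * Real.log (q * T) + T * Real.log (q * T) ^ 2 * Real.exp (-L ^ 2 / 2)) ≤
      C * (5 * T) := mul_le_mul_of_nonneg_left (by linarith) hC.le
  have a1 : T * (L / 8) ≤ T / (2 * Real.pi) * (d * Real.log (q * T)) := by
    have hpi := Real.pi_pos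
    have hpi4 := Real.pi_lt_four
    have e1 : T / (2 * Real.pi) * (d * Real.log (q * T)) =
        T * (d * Real.log (q * T) / (2 * Real.pi)) := by
      field_simp
    rw [e1]
    refine mul_le_mul_of_nonneg_left ?_ hTpos.le
    have hlg : L ≤ d * Real.log (q * T) := by
      calc L ≤ Real.log (q * T) := hlog1
        _ = 1 * Real.log (q * T) := (one_mul _).symm
        _ ≤ d * Real.log (q * T) := mul_le_mul_of_nonneg_right hd (hL0.trans hlog1)
    calc L / 8 ≤ L / (2 * Real.pi) := div_le_div_of_nonneg_left hL0 (by positivity) (by linarith)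
      _ ≤ d * Real.log (q * T) / (2 * Real.pi) := div_le_div_of_nonneg_right hlg (by positivity)
  have a5 : 1 ≤ T * (L / 8 - 5 * C) := by
    have : 1 ≤ L / 8 - 5 * C := by linarith
    exact one_le_mul_of_one_le_of_one_le hT0 this
  have a6 : T * (L / 8 - 5 * C) = T * (L / 8) - C * (5 * T) := by ring
  linarith

end Pos

open Pos in
/-- JZ-14 -/
theorem t_pos : StPos := by
  intro d A hd hA M hM c F hF
  obtain ⟨X1, hX1, hpos⟩ := NN_big d A hd hA
  obtain ⟨C4, hC4, hmass⟩ := prim_mass_M M hM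
  have hc0 := cM_pos M
  refine ⟨Real.exp ((C4 + 1) / cM M), X1, Real.one_le_exp (by positivity), hX1, ?_⟩
  intro X Y T hX hKX hY2 hT1 hTX
  have hX1r : (1 : ℝ) ≤ X := hX1.trans hX
  have hXpos : (0 : ℝ) < X := by linarith
  have hX1n : 1 ≤ X := by exact_mod_cast hX1r
  have hXYr : (X : ℝ) ≤ Y := by
    calc (X : ℝ) = 1 * X := (one_mul _).symm
      _ ≤ Real.exp ((C4 + 1) / cM M) * X :=
        mul_le_mul_of_nonneg_right (Real.one_le_exp (by positivity)) hXpos.le
      _ ≤ Y := hKX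
  have hXY : X ≤ Y := by exact_mod_cast hXYr
  have hW1 : 1 ≤ primFamM M X Y (fun _ _ => 1) := by
    have h1 := (abs_le.mp (hmass X Y hX1n hXY)).1
    have h2 : (C4 + 1) / cM M ≤ Real.log ((Y : ℝ) / X) := by
      have hYpos : (0 : ℝ) < Y := lt_of_lt_of_le hXpos hXYr
      rw [Real.le_log_iff_exp_le (div_pos hYpos hXpos), le_div_iff₀ hXpos]
      exact hKX
    rw [div_le_iff₀ hc0] at h2
    linarith
  refine lt_of_lt_of_le (lt_of_lt_of_le one_pos hW1) ?_
  refine primFamM_mono M X Y _ _ fun q χ hq hq2 hc hχ => ?_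
  have hqY : (q : ℝ) ≤ Y := by exact_mod_cast hq2
  exact hpos X q (F q χ) _ T hX hq (hqY.trans hY2) (hF q χ (by omega) hc hχ) hT1 hTX

end Pool.Agent.JZ12
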