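import Pool.Agent.JZ12.Defs

/-!
# JZ-4 : change of the conductor in `GoodU` (helper48)
-/

set_option autoImplicit false

open Complex H385

namespace Pool.Agent.JZ12

theorem t_rs : StRs := by
  intro A N hA hN
  have hN0 : (0 : ℝ) < N := by linarith
  have hNA : (1 : ℝ) ≤ N ^ A := Real.one_le_rpow hN (by linarith)
  have hBB : A ≤ A * N ^ A := by
    calc A = A * 1 := (mul_one A).symm
      _ ≤ A * N ^ A := mul_le_mul_of_nonneg_left hNA (by linarith)
  refine ⟨A * N ^ A + A + N, by linarith, fun Q F a hQ h => ?_⟩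
  have hlN : Real.log N ≤ N := (Real.log_le_sub_one_of_pos hN0).trans (by linarith)
  have hlN0 : 0 ≤ Real.log N := Real.log_nonneg hN
  refine ⟨h.an, ?_, ?_, h.nzr, h.nzl, h.symm, h.ha, h.ld, ?_⟩
  · intro s h1 h2 h3
    have hx : 1 ≤ Q * s.im := one_le_mul_of_one_le_of_one_le hQ h3
    have hx0 : 0 ≤ Q * s.im := by linarith
    have e1 : (N * Q * s.im) ^ A = N ^ A * (Q * s.im) ^ A := by
      rw [show N * Q * s.im = N * (Q * s.im) by ring, Real.mul_rpow hN0.le hx0]
    have e2 : (Q * s.im) ^ A ≤ (Q * s.im) ^ (A * N ^ A + A + N) :=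
      Real.rpow_le_rpow_of_exponent_le hx (by linarith)
    calc ‖F s‖ ≤ A * (N * Q * s.im) ^ A := h.growth s h1 h2 h3
      _ = (A * N ^ A) * (Q * s.im) ^ A := by rw [e1]; ring
      _ ≤ (A * N ^ A + A + N) * (Q * s.im) ^ (A * N ^ A + A + N) := by
          refine mul_le_mul (by linarith) e2 (by positivity) (by positivity)
  · intro t ht
    refine le_trans ?_ (h.lower t ht)
    exact inv_anti₀ (by linarith) (by linarith)
  · intro s h1 h2 h3 h4
    have b := h.left s h1 h2 h3 h4
    have hQs : 0 < Q * s.im := by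
      have : 1 ≤ Q * s.im := one_le_mul_of_one_le_of_one_le hQ h3
      linarith
    have e1 : ((Real.log (N * Q * s.im) : ℝ) : ℂ) =
        ((Real.log (Q * s.im) : ℝ) : ℂ) + ((Real.log N : ℝ) : ℂ) := by
      rw [← Complex.ofReal_add]
      congr 1
      rw [show N * Q * s.im = N * (Q * s.im) by ring, Real.log_mul hN0.ne' hQs.ne']
      ring
    rw [e1] at b
    have hl : ‖((Real.log N : ℝ) : ℂ)‖ ≤ N := by
      rw [Complex.norm_real, Real.norm_of_nonneg hlN0]
      exact hlN
    calc _ = ‖(deriv F s / F s + (((Real.log (Q * s.im) : ℝ) : ℂ) +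
          ((Real.log N : ℝ) : ℂ)) + (starRingEnd ℂ) (deriv F (1 - (starRingEnd ℂ) s) /
          F (1 - (starRingEnd ℂ) s))) - ((Real.log N : ℝ) : ℂ)‖ := by
          congr 1
          ring
      _ ≤ A + N := (norm_sub_le _ _).trans (add_le_add b hl)
      _ ≤ A * N ^ A + A + N := by linarith

end Pool.Agent.JZ12
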