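import Pool.Agent.JZ12.Defs

/-!
# JZ-12 (helper75): scaling of the mean square hypothesis by `√r`
-/

set_option autoImplicit false

open Complex Filter Topology Set MeasureTheory
open H370 (zset mult NN Nd Ns)
open H385

set_option maxHeartbeats 4000000

namespace Pool.Agent.JZ12.Scale

lemma fam_mul (M X Y : ℕ) (a : ℝ) (f : (q : ℕ) → DirichletCharacter ℂ q → ℝ) :
    primFamM M X Y (fun q χ => a * f q χ) = a * primFamM M X Y f := by
  have h := primFamM_lin M X Y a 0 f f
  simp only [zero_mul, sub_zero] at h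
  exact h

end Pool.Agent.JZ12.Scale

namespace Pool.Agent.JZ12

open Scale

theorem t_scale : StScale := by
  intro r M c c' hr hcc γ β e h ε hε
  have hr1 : (1 : ℝ) ≤ (r : ℝ) := by exact_mod_cast hr
  have hr0 : (0 : ℝ) < (r : ℝ) := by linarith
  obtain ⟨K, η, X0, hK, hη, hX0, hh⟩ := h (ε / r) (by positivity)
  refine ⟨K, η, X0, hK, hη, hX0, ?_⟩
  intro X Y T a1 a2 a3 a4 a5
  obtain ⟨Yf, y1, y2, hy1, hy2, m1, m2, m3, m4, m5⟩ := hh X Y T a1 a2 a3 a4 a5
  refine ⟨fun u => r * Yf u, r * y1, r * y2, by positivity, by positivity, ?_, ?_, ?_, ?_, ?_⟩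
  · intro u hu
    have e1 : ∀ t : ℝ, primFamM M X Y (fun q χ =>
      ‖∑' n : ℕ, (χ (n : ZMod q) * c n * (ArithmeticFunction.vonMangoldt n : ℂ)) *
        ((Real.sqrt n : ℂ)⁻¹ * bt T u t (Real.log n))‖ ^ 2) = r * primFamM M X Y (fun q χ =>
      ‖∑' n : ℕ, (χ (n : ZMod q) * c' n * (ArithmeticFunction.vonMangoldt n : ℂ)) *
        ((Real.sqrt n : ℂ)⁻¹ * bt T u t (Real.log n))‖ ^ 2) := by
      intro t
      rw [← fam_mul]
      congr 1
      funext q χ
      have e2 : ∀ n : ℕ, (χ (n : ZMod q) * c n * (ArithmeticFunction.vonMangoldt n : ℂ)) *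
        ((Real.sqrt n : ℂ)⁻¹ * bt T u t (Real.log n)) = ((Real.sqrt r : ℝ) : ℂ) *
        ((χ (n : ZMod q) * c' n * (ArithmeticFunction.vonMangoldt n : ℂ)) *
        ((Real.sqrt n : ℂ)⁻¹ * bt T u t (Real.log n))) := by
        intro n
        rw [hcc]
        ring
      simp_rw [e2]
      rw [tsum_mul_left, norm_mul, mul_pow, Complex.norm_real,
        Real.norm_of_nonneg (Real.sqrt_nonneg _), Real.sq_sqrt hr0.le]
    simp_rw [e1]
    rw [integral_const_mul]
    exact mul_le_mul_of_nonneg_left (m1 u hu) hr0.le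
  · intro u hu
    have := m2 u hu
    have e1 : T * (r * y1 * (u + 1) + r * y2) = r * (T * (y1 * (u + 1) + y2)) := by ring
    rw [e1]
    exact mul_le_mul_of_nonneg_left this hr0.le
  · exact m3.const_mul _
  · have e1 : ∫ u in (0 : ℝ)..(β * Real.log X), Rw γ (u / (β * Real.log X)) * (r * Yf u) =
        r * ∫ u in (0 : ℝ)..(β * Real.log X), Rw γ (u / (β * Real.log X)) * Yf u := by
      rw [← intervalIntegral.integral_const_mul]
      congr 1
      funext u
      ring
    rw [e1]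
    have e2 : T / (2 * Real.pi) * Real.log X * WM M X Y * (r * e + ε) =
        r * (T / (2 * Real.pi) * Real.log X * WM M X Y * (e + ε / r)) := by
      field_simp
    rw [e2]
    calc _ = r * ((2 / (Real.sqrt Real.pi * (β * Real.log X))) *
          ∫ u in (0 : ℝ)..(β * Real.log X), Rw γ (u / (β * Real.log X)) * Yf u) := by ring
      _ ≤ _ := mul_le_mul_of_nonneg_left m4 hr0.le
  · rw [Real.sqrt_mul hr0.le, Real.sqrt_mul hr0.le, ← mul_add]
    have h2 : Real.sqrt r ≤ r := by
      rw [Real.sqrt_le_left hr0.le]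
      nlinarith
    have h3 : 0 ≤ Real.sqrt y1 + Real.sqrt y2 := by positivity
    calc Real.sqrt r * (Real.sqrt y1 + Real.sqrt y2) ≤ r * (Real.sqrt y1 + Real.sqrt y2) :=
          mul_le_mul_of_nonneg_right h2 h3
      _ ≤ r * (ε / r * Real.log X * Real.sqrt (WM M X Y)) :=
          mul_le_mul_of_nonneg_left m5 hr0.le
      _ = _ := by field_simp

end Pool.Agent.JZ12
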