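import Pool.Agent.JZ12.Defs
import Pool.Agent.Y767.CA.Eu

/-!
# Selberg orthonormality of the normalised coefficients
-/

set_option autoImplicit false

open Complex Filter Topology Set MeasureTheory
open ArithmeticFunction (vonMangoldt)
open W388 (SelE)

namespace Pool.Agent.JZ12

namespace Sel

lemma vm_summable {σ : ℝ} (hσ : 1 < σ) :
    Summable fun n : ℕ => vonMangoldt n * (n : ℝ) ^ (-σ) := by
  have h := ArithmeticFunction.LSeriesSummable_vonMangoldt (s := (σ : ℂ)) (by simpa using hσ)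
  have h2 : Summable fun n : ℕ =>
      ‖LSeries.term (fun n => (vonMangoldt n : ℂ)) (σ : ℂ) n‖ := h.norm
  refine h2.congr fun n => ?_
  rw [LSeries.norm_term_eq]
  rcases eq_or_ne n 0 with rfl | hn
  · simp
  · rw [if_neg hn, Complex.norm_real, Real.norm_of_nonneg ArithmeticFunction.vonMangoldt_nonneg,
      Complex.ofReal_re, Real.rpow_neg (Nat.cast_nonneg _), div_eq_mul_inv]

lemma ncpow {n : ℕ} (hn : n ≠ 0) (z : ℂ) : (n : ℂ) ^ z = cexp (((Real.log n : ℝ) : ℂ) * z) := by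
  have hn0 : (n : ℂ) ≠ 0 := by exact_mod_cast hn
  rw [Complex.cpow_def_of_ne_zero hn0, ← Complex.natCast_log]

/-- the terms -/
noncomputable def Tm {r : ℕ} (D : Dat r) (σ : ℝ) (j k : Fin r) (n : ℕ) : ℂ :=
  (vonMangoldt n : ℂ) *
    (D.ψ j (n : ZMod (D.N j)) * (starRingEnd ℂ) (D.ψ k (n : ZMod (D.N k)))) *
    (n : ℂ) ^ (-((σ : ℂ) + ((D.h j - D.h k : ℝ) : ℂ) * I))

lemma term_eq {r : ℕ} (D : Dat r) (σ : ℝ) (n : ℕ) :
    ((vonMangoldt n * ‖((Real.sqrt r : ℝ) : ℂ)⁻¹ * D.c n‖ ^ 2 * (n : ℝ) ^ (-σ) : ℝ) : ℂ) =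
      (r : ℂ)⁻¹ * ∑ j, ∑ k, Tm D σ j k n := by
  unfold Tm
  rcases eq_or_ne n 0 with rfl | hn
  · simp
  have e1 : ((‖((Real.sqrt r : ℝ) : ℂ)⁻¹ * D.c n‖ ^ 2 : ℝ) : ℂ) =
      (r : ℂ)⁻¹ * (D.c n * (starRingEnd ℂ) (D.c n)) := by
    rw [norm_mul, mul_pow, norm_inv, Complex.norm_real, Real.norm_of_nonneg (Real.sqrt_nonneg _),
      inv_pow, Real.sq_sqrt (Nat.cast_nonneg _), Complex.mul_conj, Complex.normSq_eq_norm_sq]
    push_cast
    rfl
  have e2 : D.c n * (starRingEnd ℂ) (D.c n) = ∑ j, ∑ k,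
      (D.ψ j (n : ZMod (D.N j)) * (starRingEnd ℂ) (D.ψ k (n : ZMod (D.N k)))) *
        cexp (((Real.log n : ℝ) : ℂ) * (-(((D.h j - D.h k : ℝ) : ℂ) * I))) := by
    unfold Dat.c
    rw [map_sum, Finset.sum_mul_sum]
    refine Finset.sum_congr rfl fun j _ => Finset.sum_congr rfl fun k _ => ?_
    rw [map_mul, ncpow hn, ncpow hn, ← Complex.exp_conj]
    have e3 : ((Real.log n : ℝ) : ℂ) * (-(((D.h j - D.h k : ℝ) : ℂ) * I)) =
        ((Real.log n : ℝ) : ℂ) * (-(D.h j : ℂ) * I) +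
          (starRingEnd ℂ) (((Real.log n : ℝ) : ℂ) * (-(D.h k : ℂ) * I)) := by
      simp only [map_mul, map_neg, Complex.conj_ofReal, Complex.conj_I]
      push_cast
      ring
    rw [e3, Complex.exp_add]
    ring
  have e4 : (((n : ℝ) ^ (-σ) : ℝ) : ℂ) = cexp (((Real.log n : ℝ) : ℂ) * (-(σ : ℂ))) := by
    rw [Complex.ofReal_cpow (Nat.cast_nonneg _), Complex.ofReal_natCast, Complex.ofReal_neg,
      ncpow hn]
  rw [Complex.ofReal_mul, Complex.ofReal_mul, e1, e2, e4, Finset.mul_sum, Finset.mul_sum,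
    Finset.mul_sum, Finset.sum_mul]
  refine Finset.sum_congr rfl fun j _ => ?_
  rw [Finset.mul_sum, Finset.mul_sum, Finset.mul_sum, Finset.sum_mul]
  refine Finset.sum_congr rfl fun k _ => ?_
  have e5 : (n : ℂ) ^ (-((σ : ℂ) + ((D.h j - D.h k : ℝ) : ℂ) * I)) =
      cexp (((Real.log n : ℝ) : ℂ) * (-(((D.h j - D.h k : ℝ) : ℂ) * I))) *
        cexp (((Real.log n : ℝ) : ℂ) * (-(σ : ℂ))) := by
    rw [ncpow hn, ← Complex.exp_add]
    congr 1
    ring
  rw [e5]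
  ring

lemma tm_norm {r : ℕ} (D : Dat r) (σ : ℝ) (j k : Fin r) (n : ℕ) :
    ‖Tm D σ j k n‖ ≤ vonMangoldt n * (n : ℝ) ^ (-σ) := by
  unfold Tm
  rcases eq_or_ne n 0 with rfl | hn
  · simp
  have hnp : (0 : ℝ) < n := by exact_mod_cast Nat.pos_of_ne_zero hn
  rw [norm_mul, norm_mul, norm_mul, Complex.norm_real,
    Real.norm_of_nonneg ArithmeticFunction.vonMangoldt_nonneg, RCLike.norm_conj]
  have h1 : ‖(n : ℂ) ^ (-((σ : ℂ) + ((D.h j - D.h k : ℝ) : ℂ) * I))‖ = (n : ℝ) ^ (-σ) := by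
    rw [Complex.norm_natCast_cpow_of_pos (Nat.pos_of_ne_zero hn)]
    congr 1
    simp
  rw [h1]
  refine mul_le_mul_of_nonneg_right ?_ (Real.rpow_nonneg hnp.le _)
  have h2 := (D.ψ j).norm_le_one (n : ZMod (D.N j))
  have h3 := (D.ψ k).norm_le_one (n : ZMod (D.N k))
  have h4 : ‖D.ψ j (n : ZMod (D.N j))‖ * ‖D.ψ k (n : ZMod (D.N k))‖ ≤ 1 :=
    mul_le_one₀ h2 (norm_nonneg _) h3
  calc vonMangoldt n * (‖D.ψ j (n : ZMod (D.N j))‖ * ‖D.ψ k (n : ZMod (D.N k))‖)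
      ≤ vonMangoldt n * 1 :=
        mul_le_mul_of_nonneg_left h4 ArithmeticFunction.vonMangoldt_nonneg
    _ = vonMangoldt n := mul_one _

lemma tm_summable {r : ℕ} (D : Dat r) {σ : ℝ} (hσ : 1 < σ) (j k : Fin r) :
    Summable fun n => Tm D σ j k n :=
  Summable.of_norm_bounded (vm_summable hσ) (fun n => tm_norm D σ j k n)

lemma c_norm {r : ℕ} (D : Dat r) {σ : ℝ} (hσ : 1 < σ) :
    Summable fun n : ℕ => vonMangoldt n * ‖((Real.sqrt r : ℝ) : ℂ)⁻¹ * D.c n‖ ^ 2 *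
      (n : ℝ) ^ (-σ) := by
  have h1 : Summable fun n : ℕ => (r : ℂ)⁻¹ * ∑ j, ∑ k, Tm D σ j k n :=
    (summable_sum fun j _ => summable_sum fun k _ => tm_summable D hσ j k).mul_left _
  have h2 := h1.congr fun n => (term_eq D σ n).symm
  exact Complex.summable_ofReal.1 h2

end Sel

open Sel in
/-- JZ-8 -/
theorem t_sel (hc : StCross) (hd : StDiag) : StSel := by
  intro r D hr
  refine Pool.Agent.Y767.CA.sel_of (fun σ hσ => c_norm D hσ) ?_
  have hr0 : (r : ℂ) ≠ 0 := by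
    have : r ≠ 0 := by omega
    exact_mod_cast this
  -- the limits of the terms
  have h1 : ∀ j k : Fin r, Tendsto (fun σ : ℝ => ((σ - 1 : ℝ) : ℂ) * ∑' n : ℕ, Tm D σ j k n)
      (𝓝[>] 1) (𝓝 (if j = k then 1 else 0)) := by
    intro j k
    by_cases hjk : j = k
    · subst hjk
      rw [if_pos rfl]
      have h := hd (D.N j) (D.ψ j) (D.N0 j)
      have h2 := (Complex.continuous_ofReal.tendsto 1).comp h
      rw [Complex.ofReal_one] at h2
      refine h2.congr' ?_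
      filter_upwards with σ
      simp only [Function.comp_apply]
      rw [Complex.ofReal_mul, Complex.ofReal_tsum]
      congr 1
      refine tsum_congr fun n => ?_
      unfold Tm
      rcases eq_or_ne n 0 with rfl | hn
      · simp
      rw [Complex.mul_conj, Complex.normSq_eq_norm_sq, sub_self, Complex.ofReal_zero, zero_mul,
        add_zero, Complex.ofReal_mul, Complex.ofReal_mul, Complex.ofReal_cpow (Nat.cast_nonneg _)]
      push_cast
      ring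
    · rw [if_neg hjk]
      exact hc (D.N j) (D.N k) (D.ψ j) (D.ψ k) (D.h j - D.h k) (D.N0 j) (D.N0 k) (D.prim j)
        (D.prim k) (fun h => D.ne j k hjk (by linarith))
  have h2 : Tendsto (fun σ : ℝ => (r : ℂ)⁻¹ * ∑ j : Fin r, ∑ k : Fin r,
      (((σ - 1 : ℝ) : ℂ) * ∑' n : ℕ, Tm D σ j k n)) (𝓝[>] 1)
      (𝓝 ((r : ℂ)⁻¹ * ∑ j : Fin r, ∑ k : Fin r, if j = k then 1 else 0)) :=
    (tendsto_finsetSum _ fun j _ => tendsto_finsetSum _ fun k _ => h1 j k).const_mul _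
  have e1 : (r : ℂ)⁻¹ * ∑ j : Fin r, ∑ k : Fin r, (if j = k then (1 : ℂ) else 0) = 1 := by
    simp only [Finset.sum_ite_eq, Finset.mem_univ, if_true, Finset.sum_const, Finset.card_univ,
      Fintype.card_fin, nsmul_eq_mul, mul_one]
    exact inv_mul_cancel₀ hr0
  rw [e1] at h2
  have h3 := (Complex.continuous_re.tendsto 1).comp h2
  rw [Complex.one_re] at h3
  refine h3.congr' ?_
  filter_upwards [self_mem_nhdsWithin] with σ hσ
  have hσ1 : 1 < σ := hσ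
  have e2 : (((σ - 1) * ∑' n : ℕ, vonMangoldt n * ‖((Real.sqrt r : ℝ) : ℂ)⁻¹ * D.c n‖ ^ 2 *
      (n : ℝ) ^ (-σ) : ℝ) : ℂ) = (r : ℂ)⁻¹ * ∑ j : Fin r, ∑ k : Fin r,
      (((σ - 1 : ℝ) : ℂ) * ∑' n : ℕ, Tm D σ j k n) := by
    rw [Complex.ofReal_mul, Complex.ofReal_tsum, tsum_congr fun n => term_eq D σ n, tsum_mul_left,
      Summable.tsum_finsetSum (fun j _ => summable_sum fun k _ => tm_summable D hσ1 j k)]
    rw [Finset.sum_congr rfl fun j _ =>
      Summable.tsum_finsetSum (fun k _ => tm_summable D hσ1 j k)]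
    simp only [Finset.mul_sum]
    refine Finset.sum_congr rfl fun j _ => Finset.sum_congr rfl fun k _ => ?_
    ring
  show ((r : ℂ)⁻¹ * ∑ j : Fin r, ∑ k : Fin r,
      (((σ - 1 : ℝ) : ℂ) * ∑' n : ℕ, Tm D σ j k n)).re = _
  rw [← e2, Complex.ofReal_re]

end Pool.Agent.JZ12
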