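import Pool.Agent.JZ12.Defs

/-! # JZ-3 : vertical translation of a function of the class `GoodU` -/

set_option autoImplicit false

open Complex Filter Topology Set MeasureTheory
open ArithmeticFunction (vonMangoldt)
open H385 (GoodU)

namespace Pool.Agent.JZ12

namespace Tr

theorem order_shift (F : ℂ → ℂ) (c s : ℂ) :
    analyticOrderAt (fun z => F (z + c)) s = analyticOrderAt F (s + c) := by
  have hg : AnalyticAt ℂ (fun z : ℂ => z + c) s := analyticAt_id.add analyticAt_const
  have hd : deriv (fun z : ℂ => z + c) s ≠ 0 := by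
    rw [deriv_add_const, deriv_id'']
    exact one_ne_zero
  exact analyticOrderAt_comp_of_deriv_ne_zero hg hd (f := F)

theorem growth_aux {A Q w t x : ℝ} (hA : 1 ≤ A) (hw : 0 ≤ w) (hQ : 1 ≤ Q) (ht : 1 ≤ t)
    (hx : x ≤ A * (Q * (t + w)) ^ A) {B : ℝ} (hB : B = A * (1 + w) ^ A + A + w + 1) :
    x ≤ B * (Q * t) ^ B := by
  have h0 : 0 < t := by linarith
  have h1 : t + w ≤ (1 + w) * t := by nlinarith
  have hQt : 1 ≤ Q * t := by nlinarith
  have h2 : (Q * (t + w)) ^ A ≤ ((1 + w) * (Q * t)) ^ A := by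
    apply Real.rpow_le_rpow (by positivity) _ (by linarith)
    calc Q * (t + w) ≤ Q * ((1 + w) * t) := by
          apply mul_le_mul_of_nonneg_left h1 (by linarith)
      _ = (1 + w) * (Q * t) := by ring
  rw [Real.mul_rpow (x := 1 + w) (y := Q * t) (by linarith) (by linarith)] at h2
  have h4 : 0 ≤ (1 + w) ^ A := Real.rpow_nonneg (by linarith) _
  have h5 : A ≤ B := by
    rw [hB]
    nlinarith [mul_nonneg (by linarith : (0 : ℝ) ≤ A) h4]
  have h6 : (Q * t) ^ A ≤ (Q * t) ^ B := Real.rpow_le_rpow_of_exponent_le hQt h5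
  have h7 : 0 ≤ (Q * t) ^ A := Real.rpow_nonneg (by linarith) _
  have h8 : A * (1 + w) ^ A ≤ B := by
    rw [hB]; linarith
  calc x ≤ A * (Q * (t + w)) ^ A := hx
    _ ≤ A * ((1 + w) ^ A * (Q * t) ^ A) := mul_le_mul_of_nonneg_left h2 (by linarith)
    _ = A * (1 + w) ^ A * (Q * t) ^ A := by ring
    _ ≤ B * (Q * t) ^ A := mul_le_mul_of_nonneg_right h8 h7
    _ ≤ B * (Q * t) ^ B := mul_le_mul_of_nonneg_left h6 (by linarith)

theorem log_aux {Q w t : ℝ} (hw : 0 ≤ w) (hQ : 1 ≤ Q) (ht : 1 ≤ t) :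
    |Real.log (Q * t) - Real.log (Q * (t + w))| ≤ w := by
  have h0 : 0 < t := by linarith
  have hQ0 : 0 < Q := by linarith
  rw [Real.log_mul hQ0.ne' h0.ne', Real.log_mul hQ0.ne' (by linarith : t + w ≠ 0)]
  have h1 : Real.log t ≤ Real.log (t + w) := Real.log_le_log h0 (by linarith)
  have h2 : Real.log (t + w) - Real.log t ≤ w := by
    rw [← Real.log_div (by linarith) h0.ne']
    have h3 := Real.log_le_sub_one_of_pos (by positivity : 0 < (t + w) / t)
    have h4 : (t + w) / t - 1 = w / t := by field_simp; ring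
    have h5 : w / t ≤ w := div_le_self hw ht
    linarith
  rw [abs_le]
  constructor <;> linarith

end Tr

open Tr

theorem t_tr : StTr := by
  intro A w hA hw
  refine ⟨A * (1 + w) ^ A + A + w + 1, ?_, ?_⟩
  · have h4 : 0 ≤ A * (1 + w) ^ A := mul_nonneg (by linarith) (Real.rpow_nonneg (by linarith) _)
    linarith
  intro Q F a hQ hF
  set B : ℝ := A * (1 + w) ^ A + A + w + 1 with hB
  have h4 : 0 ≤ A * (1 + w) ^ A := mul_nonneg (by linarith) (Real.rpow_nonneg (by linarith) _)
  have hAB : A ≤ B := by linarith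
  have hAwB : A + w ≤ B := by linarith
  have him : ∀ s : ℂ, (s + (w : ℂ) * I).im = s.im + w := fun s => by simp
  have hre : ∀ s : ℂ, (s + (w : ℂ) * I).re = s.re := fun s => by simp
  have hconj : ∀ s : ℂ, 1 - (starRingEnd ℂ) s + (w : ℂ) * I =
      1 - (starRingEnd ℂ) (s + (w : ℂ) * I) := by
    intro s
    rw [map_add, map_mul, conj_I, conj_ofReal]
    ring
  have hder : ∀ s : ℂ, deriv (fun s => F (s + (w : ℂ) * I)) s = deriv F (s + (w : ℂ) * I) :=
    fun s => deriv_comp_add_const F _ s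
  refine ⟨?_, ?_, ?_, ?_, ?_, ?_, ?_, ?_, ?_⟩
  · intro s hs
    have h1 : AnalyticAt ℂ F (s + (w : ℂ) * I) := hF.an _ (by rw [him]; linarith)
    have h2 : AnalyticAt ℂ (fun z : ℂ => z + (w : ℂ) * I) s :=
      analyticAt_id.add analyticAt_const
    exact AnalyticAt.comp_of_eq h1 h2 rfl
  · intro s h1 h2 h3
    have h5 := hF.growth (s + (w : ℂ) * I) (by rw [hre]; exact h1) (by rw [hre]; exact h2)
      (by rw [him]; linarith)
    rw [him] at h5
    exact growth_aux hA hw hQ h3 h5 hB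
  · intro t ht
    have h5 := hF.lower (t + w) (by linarith)
    have h6 : (⟨2, t⟩ : ℂ) + (w : ℂ) * I = ⟨2, t + w⟩ := by
      apply Complex.ext <;> simp
    show B⁻¹ ≤ ‖F ((⟨2, t⟩ : ℂ) + (w : ℂ) * I)‖
    rw [h6]
    exact (inv_anti₀ (by linarith) hAB).trans h5
  · intro s h1 h2
    exact hF.nzr _ (by rw [hre]; exact h1) (by rw [him]; linarith)
  · intro s h1 h2
    exact hF.nzl _ (by rw [hre]; exact h1) (by rw [him]; linarith)
  · intro s h1 h2 h3
    rw [order_shift, order_shift, hconj]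
    exact hF.symm _ (by rw [hre]; exact h1) (by rw [hre]; exact h2) (by rw [him]; linarith)
  · intro n
    rcases Nat.eq_zero_or_pos n with rfl | hn
    · have h5 := hF.ha 0
      rw [ArithmeticFunction.map_zero] at h5 ⊢
      have h6 : a 0 = 0 := norm_le_zero_iff.1 h5
      rw [h6, zero_mul, norm_zero]
    · rw [norm_mul, Complex.norm_natCast_cpow_of_pos hn]
      have h6 : (-(w : ℂ) * I).re = 0 := by simp
      rw [h6, Real.rpow_zero, mul_one]
      exact hF.ha n
  · intro s h1 h2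
    rw [hder]
    have h5 := hF.ld (s + (w : ℂ) * I) (by rw [hre]; exact h1) (by rw [him]; linarith)
    show deriv F (s + (w : ℂ) * I) / F (s + (w : ℂ) * I) = _
    rw [h5]
    congr 1
    apply tsum_congr
    intro n
    rcases Nat.eq_zero_or_pos n with rfl | hn
    · have h5 := hF.ha 0
      rw [ArithmeticFunction.map_zero] at h5
      have h6 : a 0 = 0 := norm_le_zero_iff.1 h5
      rw [h6, zero_mul, zero_mul, zero_mul]
    · have hn0 : (n : ℂ) ≠ 0 := Nat.cast_ne_zero.2 hn.ne'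
      rw [mul_assoc, ← Complex.cpow_add _ _ hn0]
      congr 2
      ring
  · intro s h1 h2 h3 h7
    rw [hder, hder]
    have h5 := hF.left (s + (w : ℂ) * I) (by rw [hre]; exact h1) (by rw [hre]; exact h2)
      (by rw [him]; linarith) h7
    rw [him] at h5
    show ‖deriv F (s + (w : ℂ) * I) / F (s + (w : ℂ) * I) + (Real.log (Q * s.im) : ℂ) +
      (starRingEnd ℂ) (deriv F (1 - (starRingEnd ℂ) s + (w : ℂ) * I) /
        F (1 - (starRingEnd ℂ) s + (w : ℂ) * I))‖ ≤ B
    rw [hconj]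
    have e : deriv F (s + (w : ℂ) * I) / F (s + (w : ℂ) * I) + (Real.log (Q * s.im) : ℂ) +
      (starRingEnd ℂ) (deriv F (1 - (starRingEnd ℂ) (s + (w : ℂ) * I)) /
        F (1 - (starRingEnd ℂ) (s + (w : ℂ) * I))) =
      (deriv F (s + (w : ℂ) * I) / F (s + (w : ℂ) * I) + (Real.log (Q * (s.im + w)) : ℂ) +
      (starRingEnd ℂ) (deriv F (1 - (starRingEnd ℂ) (s + (w : ℂ) * I)) /
        F (1 - (starRingEnd ℂ) (s + (w : ℂ) * I)))) +
        ((Real.log (Q * s.im) - Real.log (Q * (s.im + w)) : ℝ) : ℂ) := by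
      push_cast
      ring
    rw [e]
    refine (norm_add_le _ _).trans ((add_le_add h5 ?_).trans hAwB)
    rw [Complex.norm_real, Real.norm_eq_abs]
    exact log_aux hw hQ h3

end Pool.Agent.JZ12
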