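import Pool.Agent.JZ12.Defs
import Pool.Agent.H385R2.DirU

/-!
# JZ-5 : the factors, and the product
-/

set_option autoImplicit false

open Complex Filter Topology Set MeasureTheory
open ArithmeticFunction (vonMangoldt)
open H370 (GoodL)
open H385 (pm GoodU)
open W388 (GoodE TwE)

namespace Pool.Agent.JZ12

namespace Tw

/-- copy of `H385.PerChi.goodL` -/
theorem goodL {A Q : ℝ} {F : ℂ → ℂ} {a : ℕ → ℂ} (hA : 1 ≤ A) (hQ : 1 ≤ Q) (hF : GoodU A Q F a) :
    GoodL F where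
  an := hF.an
  growth := ⟨A * Q ^ A, A, by positivity, by linarith, fun s h1 h2 h3 => by
    refine (hF.growth s h1 h2 h3).trans (le_of_eq ?_)
    rw [Real.mul_rpow (by linarith) (by linarith)]; ring⟩
  lower := ⟨A⁻¹, by positivity, hF.lower⟩
  nzr := hF.nzr
  nzl := hF.nzl
  symm := hF.symm
  ld := ⟨a, hF.ha, hF.ld⟩
  left := ⟨A + Real.log Q, fun s h1 h2 h3 h4 => by
    have h5 := hF.left s h1 h2 h3 h4
    have h6 : Real.log (Q * s.im) = Real.log Q + Real.log s.im :=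
      Real.log_mul (by linarith) (by linarith)
    have h7 : 0 ≤ Real.log Q := Real.log_nonneg hQ
    rw [h6] at h5
    have h8 : deriv F s / F s + Real.log s.im +
      (starRingEnd ℂ) (deriv F (1 - (starRingEnd ℂ) s) / F (1 - (starRingEnd ℂ) s)) =
      (deriv F s / F s + ((Real.log Q + Real.log s.im : ℝ) : ℂ) +
      (starRingEnd ℂ) (deriv F (1 - (starRingEnd ℂ) s) / F (1 - (starRingEnd ℂ) s))) -
        (Real.log Q : ℂ) := by
      push_cast; ring
    rw [h8]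
    refine (norm_sub_le _ _).trans ?_
    rw [Complex.norm_real, Real.norm_eq_abs, abs_of_nonneg h7]
    linarith⟩

/-- monotonicity in the constant -/
theorem mono {A B Q : ℝ} {F : ℂ → ℂ} {a : ℕ → ℂ} (hA : 1 ≤ A) (hAB : A ≤ B) (hQ : 1 ≤ Q)
    (hF : GoodU A Q F a) : GoodU B Q F a where
  an := hF.an
  growth := fun s h1 h2 h3 => by
    refine (hF.growth s h1 h2 h3).trans ?_
    have h4 : 1 ≤ Q * s.im := one_le_mul_of_one_le_of_one_le hQ h3
    have h5 : (Q * s.im) ^ A ≤ (Q * s.im) ^ B := Real.rpow_le_rpow_of_exponent_le h4 hAB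
    exact mul_le_mul hAB h5 (by positivity) (by linarith)
  lower := fun t ht => by
    refine le_trans ?_ (hF.lower t ht)
    exact inv_anti₀ (by linarith) hAB
  nzr := hF.nzr
  nzl := hF.nzl
  symm := hF.symm
  ha := hF.ha
  ld := hF.ld
  left := fun s h1 h2 h3 h4 => (hF.left s h1 h2 h3 h4).trans hAB

/-- the factors -/
theorem factor (ht : StTr) (hr : StRs) {r : ℕ} (D : Dat r) (j : Fin r) :
    ∃ B : ℝ, 1 ≤ B ∧ ∀ (q : ℕ) (χ : DirichletCharacter ℂ q), 1 ≤ q → Nat.Coprime q (D.N j) →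
      χ.IsPrimitive → GoodU B q (D.L j q χ) (fun n => χ (n : ZMod q) *
        D.ψ j (n : ZMod (D.N j)) * (vonMangoldt n : ℂ) * (n : ℂ) ^ (-(D.h j : ℂ) * I)) := by
  obtain ⟨A, hA, hg⟩ := H385.good_dirichlet_U
  have hN0 : NeZero (D.N j) := ⟨D.N0 j⟩
  have hN1 : (1 : ℝ) ≤ D.N j := by exact_mod_cast NeZero.one_le
  obtain ⟨B1, hB1, hrs⟩ := hr A (D.N j) hA hN1
  obtain ⟨B2, hB2, htr⟩ := ht B1 (D.h j) hB1 (D.h0 j)
  refine ⟨B2, hB2, fun q χ hq hc hχ => ?_⟩
  have hq0 : NeZero q := ⟨by omega⟩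
  have hq1 : (1 : ℝ) ≤ q := by exact_mod_cast hq
  have hqN : NeZero (q * D.N j) := ⟨Nat.mul_ne_zero (NeZero.ne q) (NeZero.ne _)⟩
  have h1 := hg (q * D.N j) (pm χ (D.ψ j)) (H385.pm_primitive hc hχ (D.prim j))
  have e1 : ((q * D.N j : ℕ) : ℝ) = (D.N j : ℝ) * q := by push_cast; ring
  rw [e1] at h1
  have e2 : (fun n : ℕ => pm χ (D.ψ j) (n : ZMod (q * D.N j)) * (vonMangoldt n : ℂ)) =
      (fun n : ℕ => χ (n : ZMod q) * D.ψ j (n : ZMod (D.N j)) * (vonMangoldt n : ℂ)) := by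
    funext n
    rw [H385.pm_apply]
  have h2 : GoodU A ((D.N j : ℝ) * q) (DirichletCharacter.LFunction (pm χ (D.ψ j)))
      (fun n : ℕ => χ (n : ZMod q) * D.ψ j (n : ZMod (D.N j)) * (vonMangoldt n : ℂ)) := by
    rw [← e2]
    exact h1
  have h3 := htr q _ _ hq1 (hrs q _ _ hq1 h2)
  have e3 : LL (q * D.N j) (pm χ (D.ψ j)) = DirichletCharacter.LFunction (pm χ (D.ψ j)) := by
    unfold LL
    rw [dif_neg (NeZero.ne _)]
  have e4 : D.L j q χ = fun s => DirichletCharacter.LFunction (pm χ (D.ψ j))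
      (s + (D.h j : ℂ) * I) := by
    funext s
    show LL (q * D.N j) (pm χ (D.ψ j)) (s + (D.h j : ℂ) * I) = _
    rw [e3]
  rw [e4]
  exact h3

end Tw

open Tw in
theorem t_tw (hm : StMul) (ht : StTr) (hr : StRs) : StTw := by
  intro r D hr1
  have hf := factor ht hr D
  choose B hB1 hB using hf
  refine ⟨fun q χ j hq hc hχ => ?_, fun M hM => ?_⟩
  · exact goodL (hB1 j) (by exact_mod_cast hq) (hB j q χ hq hc hχ)
  · have hle : ∀ j, B j ≤ ∑ i, B i := fun j =>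
      Finset.single_le_sum (f := B) (fun i _ => by linarith [hB1 i]) (Finset.mem_univ j)
    have hA1 : 1 ≤ ∑ i, B i := (hB1 ⟨0, hr1⟩).trans (hle _)
    obtain ⟨A, hA, hmul⟩ := hm r (∑ i, B i) hr1 hA1
    refine ⟨A, hA, fun q χ hq hc hχ => ?_⟩
    have hq1 : (1 : ℝ) ≤ q := by exact_mod_cast (show 1 ≤ q by omega)
    have h1 := hmul q hq1 (fun j => D.L j q χ) (fun j n => χ (n : ZMod q) *
      D.ψ j (n : ZMod (D.N j)) * (vonMangoldt n : ℂ) * (n : ℂ) ^ (-(D.h j : ℂ) * I))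
      (fun j => mono (hB1 j) (hle j) hq1 (hB j q χ (by omega) (hM q hc j) hχ))
    have e1 : (fun n : ℕ => ∑ j, χ (n : ZMod q) * D.ψ j (n : ZMod (D.N j)) *
        (vonMangoldt n : ℂ) * (n : ℂ) ^ (-(D.h j : ℂ) * I)) =
        (fun n : ℕ => χ (n : ZMod q) * D.c n * (vonMangoldt n : ℂ)) := by
      funext n
      unfold Dat.c
      rw [Finset.mul_sum, Finset.sum_mul]
      exact Finset.sum_congr rfl fun j _ => by ring
    rw [e1] at h1
    exact h1

end Pool.Agent.JZ12
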