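import Pool.Agent.JZ12.CoreX
import Pool.Agent.JZ12.Counts
import Pool.Agent.JZ12.Cross
import Pool.Agent.JZ12.Diag
import Pool.Agent.JZ12.Fin
import Pool.Agent.JZ12.Main
import Pool.Agent.JZ12.Mul
import Pool.Agent.JZ12.Num
import Pool.Agent.JZ12.PerX
import Pool.Agent.JZ12.Pos
import Pool.Agent.JZ12.Rs
import Pool.Agent.JZ12.Scale
import Pool.Agent.JZ12.Sel
import Pool.Agent.JZ12.Tr
import Pool.Agent.JZ12.Tw
import Pool.Agent.W388.TW.Parts

/-! # JZ : all parts together -/

set_option autoImplicit false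

namespace Pool.Agent.JZ12

theorem all_tw : StTw := t_tw t_mul t_tr t_rs

theorem all_sel : StSel := t_sel t_cross t_diag

theorem all_fin : StFin := t_fin W388.p_core (t_corex t_perx) W388.p_mean t_scale

theorem all_main : StMain := t_main all_fin all_tw all_sel t_pos

end Pool.Agent.JZ12
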