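import Pool.Agent.W388.TW.Defs
import Pool.Agent.H385R2.EcD1

/-!
# Zeros of several twisted Dirichlet L-functions : definitions and statements of the parts

Project JZ (owner helper12).  Every `def St... : Prop` is the statement of one part of the project;
a proof of it is a theorem `t_... : St...` in a file of its own.
-/

set_option autoImplicit false

open Complex Filter Topology Set MeasureTheory
open DirichletCharacter (changeLevel)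
open ArithmeticFunction (vonMangoldt)
open H370 (zset mult NN Nd Ns GoodL)
open H385 (primFamM Rw HYM pm GoodU)
open W388 (GoodE TwE SelE)

namespace Pool.Agent.JZ12

/-- the L-function of a character, zero if the modulus is zero -/
noncomputable def LL (q : ℕ) (χ : DirichletCharacter ℂ q) : ℂ → ℂ :=
  if h : q = 0 then 0 else
    haveI : NeZero q := ⟨h⟩
    DirichletCharacter.LFunction χ

/-- `r` pairwise different pairs `(ψ_j, h_j)`, `ψ_j` a primitive Dirichlet character, `h_j ≥ 0` -/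
structure Dat (r : ℕ) where
  N : Fin r → ℕ
  ψ : (j : Fin r) → DirichletCharacter ℂ (N j)
  h : Fin r → ℝ
  N0 : ∀ j, N j ≠ 0
  prim : ∀ j, (ψ j).IsPrimitive
  h0 : ∀ j, 0 ≤ h j
  ne : ∀ i j, i ≠ j → h i = h j → ∃ n : ℕ, ψ i (n : ZMod (N i)) ≠ ψ j (n : ZMod (N j))

variable {r : ℕ} (D : Dat r)

/-- the function `s ↦ L(s + i h_j, χ ψ_j)` -/
noncomputable def Dat.L (j : Fin r) (q : ℕ) (χ : DirichletCharacter ℂ q) (s : ℂ) : ℂ :=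
  LL (q * D.N j) (pm χ (D.ψ j)) (s + (D.h j : ℂ) * I)

/-- the product of these functions -/
noncomputable def Dat.F (q : ℕ) (χ : DirichletCharacter ℂ q) (s : ℂ) : ℂ := ∏ j, D.L j q χ s

/-- the coefficients (at prime powers) of the product -/
noncomputable def Dat.c (n : ℕ) : ℂ :=
  ∑ j, D.ψ j (n : ZMod (D.N j)) * (n : ℂ) ^ (-(D.h j : ℂ) * I)

/-! ## analytic parts -/

/-- JZ-1 : product of `r` functions of degree one -/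
def StMul : Prop := ∀ (r : ℕ) (A : ℝ), 1 ≤ r → 1 ≤ A → ∃ B : ℝ, 1 ≤ B ∧ ∀ (Q : ℝ), 1 ≤ Q →
  ∀ (F : Fin r → ℂ → ℂ) (a : Fin r → ℕ → ℂ), (∀ j, GoodU A Q (F j) (a j)) →
  GoodE (r : ℝ) B Q (fun s => ∏ j, F j s) (fun n => ∑ j, a j n)

/-- JZ-3 : vertical translation -/
def StTr : Prop := ∀ (A w : ℝ), 1 ≤ A → 0 ≤ w → ∃ B : ℝ, 1 ≤ B ∧ ∀ (Q : ℝ) (F : ℂ → ℂ)
  (a : ℕ → ℂ), 1 ≤ Q → GoodU A Q F a →
  GoodU B Q (fun s => F (s + (w : ℂ) * I)) (fun n => a n * (n : ℂ) ^ (-(w : ℂ) * I))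

/-- JZ-4 : from `GoodU` for the conductor `N Q` to `GoodU` for `Q` -/
def StRs : Prop := ∀ (A N : ℝ), 1 ≤ A → 1 ≤ N → ∃ B : ℝ, 1 ≤ B ∧ ∀ (Q : ℝ) (F : ℂ → ℂ)
  (a : ℕ → ℂ), 1 ≤ Q → GoodU A (N * Q) F a → GoodU B Q F a

/-- JZ-5 : the factors, and the product -/
def StTw : Prop := ∀ (r : ℕ) (D : Dat r), 1 ≤ r →
  (∀ (q : ℕ) (χ : DirichletCharacter ℂ q) (j : Fin r), 1 ≤ q → Nat.Coprime q (D.N j) →
    χ.IsPrimitive → GoodL (D.L j q χ)) ∧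
  ∀ (M : ℕ), (∀ q : ℕ, Nat.Coprime q M → ∀ j, Nat.Coprime q (D.N j)) →
    ∃ A : ℝ, 1 ≤ A ∧ TwE (r : ℝ) A M D.c D.F

/-! ## prime number part -/

/-- JZ-6 : cross terms -/
def StCross : Prop := ∀ (N1 N2 : ℕ) (ψ1 : DirichletCharacter ℂ N1) (ψ2 : DirichletCharacter ℂ N2)
  (y : ℝ), N1 ≠ 0 → N2 ≠ 0 → ψ1.IsPrimitive → ψ2.IsPrimitive →
  (y = 0 → ∃ n : ℕ, ψ1 (n : ZMod N1) ≠ ψ2 (n : ZMod N2)) →
  Tendsto (fun σ : ℝ => ((σ - 1 : ℝ) : ℂ) * ∑' n : ℕ, (vonMangoldt n : ℂ) *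
    (ψ1 (n : ZMod N1) * (starRingEnd ℂ) (ψ2 (n : ZMod N2))) * (n : ℂ) ^ (-((σ : ℂ) + (y : ℂ) * I)))
    (𝓝[>] 1) (𝓝 0)

/-- JZ-7 : diagonal terms -/
def StDiag : Prop := ∀ (N : ℕ) (ψ : DirichletCharacter ℂ N), N ≠ 0 →
  Tendsto (fun σ : ℝ => (σ - 1) * ∑' n : ℕ, vonMangoldt n * ‖ψ (n : ZMod N)‖ ^ 2 *
    (n : ℝ) ^ (-σ)) (𝓝[>] 1) (𝓝 1)

/-- JZ-8 : Selberg orthonormality of the normalised coefficients -/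
def StSel : Prop := ∀ (r : ℕ) (D : Dat r), 1 ≤ r →
  SelE (fun n => ((Real.sqrt r : ℝ) : ℂ)⁻¹ * D.c n)

/-! ## the constants -/

/-- JZ-9 : the constant -/
def StNum : Prop := ∀ (r : ℕ) (κ : ℝ), 1 ≤ r → (r : ℝ) / 2 + 2 / 3 < κ →
  ∃ γ : ℝ, 0 < γ ∧ γ < Real.pi ∧
    (r : ℝ) / 2 * Rw γ 0 + 4 * (∫ α in (0 : ℝ)..1, α * Rw γ α) < κ

/-! ## the family theorem -/

/-- JZ-10 : the trace inequality with a parameter `x`, one L-function (`W388.per_chi_d_D` is the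
case `x = 2`, with a better term for `x = 2`) -/
def StPerX : Prop := ∀ (x : ℝ), 0 < x → ∀ (γ : ℝ), 0 < γ → γ < Real.pi → ∀ (d A : ℝ), 1 ≤ d →
    1 ≤ A →
    ∃ C : ℝ, 0 < C ∧ ∀ (Q : ℝ) (F : ℂ → ℂ) (a : ℕ → ℂ), 1 ≤ Q → GoodE d A Q F a →
    ∀ T κ Λ V1 V2 : ℝ, 3 ≤ κ → 8 * κ ≤ T → 1 ≤ Λ → T - 3 * κ ≤ V1 → V1 ≤ T - 3 * κ + 1 →
      2 * T + 3 * κ - 1 ≤ V2 → V2 ≤ 2 * T + 3 * κ →
      2 * x * (NN F T (2 * T) : ℝ) - x ^ 2 * (Nd F T (2 * T) : ℝ) ≤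
        (2 / (Real.sqrt Real.pi * Λ)) * (∫ u in (0 : ℝ)..Λ, Rw γ (u / Λ) *
          ∫ t : ℝ, ‖H385.BB F V1 V2 T u t‖ ^ 2)
        + C * (κ + T * Real.exp (-κ ^ 2 / 2)) * Real.log (Q * T)

/-- JZ-11 : the family theorem for distinct zeros with a parameter `x` -/
def StCoreX : Prop := ∀ (x : ℝ), 0 < x → ∀ (d A : ℝ), 1 ≤ d → 1 ≤ A → ∀ (M : ℕ) (c : ℕ → ℂ)
    (F : (q : ℕ) → DirichletCharacter ℂ q → ℂ → ℂ), TwE d A M c F →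
    ∀ (γ β c' : ℝ), 0 < γ → γ < Real.pi → 0 < β → 0 ≤ c' → 0 ≤ Rw γ 0 → HYM M c γ β c' →
    ∀ (ε : ℝ), 0 < ε →
    ∃ K η X0 : ℝ, 1 ≤ K ∧ 0 < η ∧ 1 ≤ X0 ∧
    ∀ (X Y : ℕ) (T : ℝ), X0 ≤ X → K * X ≤ Y → (Y : ℝ) ≤ (X : ℝ) ^ (1 + η) →
      (Real.log X) ^ 2 ≤ T → T ≤ (X : ℝ) ^ η →
      primFamM M X Y (fun q χ => 2 * x * (NN (F q χ) T (2 * T) : ℝ) -
        x ^ 2 * (Nd (F q χ) T (2 * T) : ℝ)) ≤
        (d * Rw γ 0 / β + c' / d + ε) *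
          primFamM M X Y (fun q χ => (NN (F q χ) T (2 * T) : ℝ))

/-- JZ-12 : scaling of the mean square hypothesis by `√r` -/
def StScale : Prop := ∀ (r : ℕ) (M : ℕ) (c c' : ℕ → ℂ), 1 ≤ r →
  (∀ n, c n = ((Real.sqrt r : ℝ) : ℂ) * c' n) → ∀ (γ β e : ℝ), HYM M c' γ β e →
  HYM M c γ β ((r : ℝ) * e)

/-- JZ-13 : the family theorem for products of `r` functions of degree one -/
def StFin : Prop := ∀ (r : ℕ) (A : ℝ), 1 ≤ r → 1 ≤ A → ∀ (M : ℕ), Squarefree M →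
  ∀ (c c' : ℕ → ℂ), (∀ n, c n = ((Real.sqrt r : ℝ) : ℂ) * c' n) →
  ∀ (F : (q : ℕ) → DirichletCharacter ℂ q → ℂ → ℂ), TwE (r : ℝ) A M c F → SelE c' →
  ∀ (γ κ : ℝ), 0 < γ → γ < Real.pi →
    (r : ℝ) / 2 * Rw γ 0 + 4 * (∫ α in (0 : ℝ)..1, α * Rw γ α) < κ →
    ∃ K η X0 : ℝ, 1 ≤ K ∧ 0 < η ∧ 1 ≤ X0 ∧
    ∀ (X Y : ℕ) (T : ℝ), X0 ≤ X → K * X ≤ Y → (Y : ℝ) ≤ (X : ℝ) ^ (1 + η) →
      (Real.log X) ^ 2 ≤ T → T ≤ (X : ℝ) ^ η →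
      (2 - κ) * primFamM M X Y (fun q χ => (NN (F q χ) T (2 * T) : ℝ)) ≤
        primFamM M X Y (fun q χ => (Ns (F q χ) T (2 * T) : ℝ)) ∧
      (3 - κ) / 2 * primFamM M X Y (fun q χ => (NN (F q χ) T (2 * T) : ℝ)) ≤
        primFamM M X Y (fun q χ => (Nd (F q χ) T (2 * T) : ℝ)) ∧
      primFamM M X Y (fun q χ => (NN (F q χ) T (2 * T) : ℝ)) ≤
        κ * primFamM M X Y (fun q χ => (Nd (F q χ) T (2 * T) : ℝ))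

/-- JZ-14 : the family has zeros -/
def StPos : Prop := ∀ (d A : ℝ), 1 ≤ d → 1 ≤ A → ∀ (M : ℕ), Squarefree M → ∀ (c : ℕ → ℂ)
    (F : (q : ℕ) → DirichletCharacter ℂ q → ℂ → ℂ), TwE d A M c F →
    ∃ K X0 : ℝ, 1 ≤ K ∧ 1 ≤ X0 ∧
    ∀ (X Y : ℕ) (T : ℝ), X0 ≤ X → K * X ≤ Y → (Y : ℝ) ≤ (X : ℝ) ^ 2 →
      (Real.log X) ^ 2 ≤ T → T ≤ X →
      0 < primFamM M X Y (fun q χ => (NN (F q χ) T (2 * T) : ℝ))

/-- JZ-15 : zeros of a product of `r` functions -/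
def StCounts : Prop := ∀ (r : ℕ) (G : Fin r → ℂ → ℂ), (∀ j, GoodL (G j)) → ∀ T : ℝ, 1 ≤ T →
  (∀ j, (zset (G j) T (2 * T)).Finite) ∧
  NN (fun s => ∏ j, G j s) T (2 * T) = ∑ j, NN (G j) T (2 * T) ∧
  zset (fun s => ∏ j, G j s) T (2 * T) = ⋃ j, zset (G j) T (2 * T)

/-- JZ-16 : the main theorem, all `M ≠ 0` -/
def StMain : Prop := ∀ (r : ℕ) (D : Dat r) (M : ℕ), 1 ≤ r → M ≠ 0 → (∀ j, D.N j ∣ M) →
  ∀ (γ κ : ℝ), 0 < γ → γ < Real.pi →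
    (r : ℝ) / 2 * Rw γ 0 + 4 * (∫ α in (0 : ℝ)..1, α * Rw γ α) < κ →
    ∃ K η X0 : ℝ, 1 ≤ K ∧ 0 < η ∧ 1 ≤ X0 ∧
    ∀ (X Y : ℕ) (T : ℝ), X0 ≤ X → K * X ≤ Y → (Y : ℝ) ≤ (X : ℝ) ^ (1 + η) →
      (Real.log X) ^ 2 ≤ T → T ≤ (X : ℝ) ^ η → 1 ≤ T ∧ 2 ≤ X ∧
      0 < primFamM M X Y (fun q χ => (NN (D.F q χ) T (2 * T) : ℝ)) ∧
      (2 - κ) * primFamM M X Y (fun q χ => (NN (D.F q χ) T (2 * T) : ℝ)) ≤
        primFamM M X Y (fun q χ => (Ns (D.F q χ) T (2 * T) : ℝ)) ∧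
      (3 - κ) / 2 * primFamM M X Y (fun q χ => (NN (D.F q χ) T (2 * T) : ℝ)) ≤
        primFamM M X Y (fun q χ => (Nd (D.F q χ) T (2 * T) : ℝ)) ∧
      primFamM M X Y (fun q χ => (NN (D.F q χ) T (2 * T) : ℝ)) ≤
        κ * primFamM M X Y (fun q χ => (Nd (D.F q χ) T (2 * T) : ℝ))

end Pool.Agent.JZ12
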