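import Pool.Agent.JZ12.Defs

/-!
# JZ : stronger variants, counting two zeros symmetric to the critical line once
-/

set_option autoImplicit false

open Complex Filter Topology Set MeasureTheory
open H370 (zset mult NN Nd Ns GoodL)
open H385 (primFamM Rw HYM pm GoodU)
open W388 (GoodE TwE SelE)

namespace Pool.Agent.JZ12

/-- number of distinct zeros with real part at least `1/2` -/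
noncomputable def Nh (F : ℂ → ℂ) (T1 T2 : ℝ) : ℕ := {s : ℂ | s ∈ zset F T1 T2 ∧ 1 / 2 ≤ s.re}.ncard

/-- JZ-I2 -/
def StPerXh : Prop := ∀ (x : ℝ), 0 < x → ∀ (γ : ℝ), 0 < γ → γ < Real.pi → ∀ (d A : ℝ), 1 ≤ d →
    1 ≤ A →
    ∃ C : ℝ, 0 < C ∧ ∀ (Q : ℝ) (F : ℂ → ℂ) (a : ℕ → ℂ), 1 ≤ Q → GoodE d A Q F a →
    ∀ T κ Λ V1 V2 : ℝ, 3 ≤ κ → 8 * κ ≤ T → 1 ≤ Λ → T - 3 * κ ≤ V1 → V1 ≤ T - 3 * κ + 1 →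
      2 * T + 3 * κ - 1 ≤ V2 → V2 ≤ 2 * T + 3 * κ →
      2 * x * (NN F T (2 * T) : ℝ) - x ^ 2 * (Nh F T (2 * T) : ℝ) ≤
        (2 / (Real.sqrt Real.pi * Λ)) * (∫ u in (0 : ℝ)..Λ, Rw γ (u / Λ) *
          ∫ t : ℝ, ‖H385.BB F V1 V2 T u t‖ ^ 2)
        + C * (κ + T * Real.exp (-κ ^ 2 / 2)) * Real.log (Q * T)

/-- JZ-J2 -/
def StCoreXh : Prop := ∀ (x : ℝ), 0 < x → ∀ (d A : ℝ), 1 ≤ d → 1 ≤ A → ∀ (M : ℕ) (c : ℕ → ℂ)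
    (F : (q : ℕ) → DirichletCharacter ℂ q → ℂ → ℂ), TwE d A M c F →
    ∀ (γ β c' : ℝ), 0 < γ → γ < Real.pi → 0 < β → 0 ≤ c' → 0 ≤ Rw γ 0 → HYM M c γ β c' →
    ∀ (ε : ℝ), 0 < ε →
    ∃ K η X0 : ℝ, 1 ≤ K ∧ 0 < η ∧ 1 ≤ X0 ∧
    ∀ (X Y : ℕ) (T : ℝ), X0 ≤ X → K * X ≤ Y → (Y : ℝ) ≤ (X : ℝ) ^ (1 + η) →
      (Real.log X) ^ 2 ≤ T → T ≤ (X : ℝ) ^ η →
      primFamM M X Y (fun q χ => 2 * x * (NN (F q χ) T (2 * T) : ℝ) -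
        x ^ 2 * (Nh (F q χ) T (2 * T) : ℝ)) ≤
        (d * Rw γ 0 / β + c' / d + ε) *
          primFamM M X Y (fun q χ => (NN (F q χ) T (2 * T) : ℝ))

/-- JZ-L2 -/
def StFinh : Prop := ∀ (r : ℕ) (A : ℝ), 1 ≤ r → 1 ≤ A → ∀ (M : ℕ), Squarefree M →
  ∀ (c c' : ℕ → ℂ), (∀ n, c n = ((Real.sqrt r : ℝ) : ℂ) * c' n) →
  ∀ (F : (q : ℕ) → DirichletCharacter ℂ q → ℂ → ℂ), TwE (r : ℝ) A M c F → SelE c' →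
  ∀ (γ κ : ℝ), 0 < γ → γ < Real.pi →
    (r : ℝ) / 2 * Rw γ 0 + 4 * (∫ α in (0 : ℝ)..1, α * Rw γ α) < κ →
    ∃ K η X0 : ℝ, 1 ≤ K ∧ 0 < η ∧ 1 ≤ X0 ∧
    ∀ (X Y : ℕ) (T : ℝ), X0 ≤ X → K * X ≤ Y → (Y : ℝ) ≤ (X : ℝ) ^ (1 + η) →
      (Real.log X) ^ 2 ≤ T → T ≤ (X : ℝ) ^ η →
      primFamM M X Y (fun q χ => (NN (F q χ) T (2 * T) : ℝ)) ≤
        κ * primFamM M X Y (fun q χ => (Nh (F q χ) T (2 * T) : ℝ))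

end Pool.Agent.JZ12
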