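import Pool.Agent.JZ12.Defs2
import Pool.Agent.JZ12.PerX

/-!
# Project JZ (helper99): the trace inequality with a parameter, zeros with real part at least `1/2`
-/

set_option autoImplicit false

open Complex Filter Topology Set MeasureTheory
open scoped BigOperators ComplexConjugate
open H370 (zset mult NN Nd Ns)

namespace Pool.Agent.JZ12

open W388 H385

namespace PerXh

open PerX
open PerChiD (zset_refl)

/-- the zeros, counted with the weights `1` or `1/2` -/
theorem sum_kx (x : ℝ) {d A Q : ℝ} {F : ℂ → ℂ} {a : ℕ → ℂ} (hF : GoodE d A Q F a) (T1 T2 : ℝ)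
    (hT : 1 ≤ T1) (hfin : (zset F T1 T2).Finite) :
    ∑ s ∈ hfin.toFinset, kx x s = x ^ 2 * (Nh F T1 T2 : ℝ) := by
  classical
  set Z := hfin.toFinset with hZ
  have hmem : ∀ {s}, s ∈ Z ↔ s ∈ zset F T1 T2 := by
    intro s; rw [hZ, Set.Finite.mem_toFinset]
  have h1 : Nh F T1 T2 = (Z.filter (fun s => 1 / 2 ≤ s.re)).card := by
    unfold Nh
    rw [← Set.ncard_coe_finset]
    congr 1
    ext s
    simp only [Finset.coe_filter, Set.mem_ofPred_eq, hmem]
  have h2 : (Z.filter (fun s => s.re < 1 / 2)).card = (Z.filter (fun s => 1 / 2 < s.re)).card := by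
    refine Finset.card_nbij' (fun s => 1 - (starRingEnd ℂ) s) (fun s => 1 - (starRingEnd ℂ) s)
      ?_ ?_ ?_ ?_
    · intro s hs
      simp only [Finset.coe_filter, Set.mem_ofPred_eq] at hs ⊢
      refine ⟨hmem.2 (zset_refl hF hT (hmem.1 hs.1)), ?_⟩
      rw [Complex.sub_re, Complex.conj_re, Complex.one_re]
      linarith [hs.2]
    · intro s hs
      simp only [Finset.coe_filter, Set.mem_ofPred_eq] at hs ⊢
      refine ⟨hmem.2 (zset_refl hF hT (hmem.1 hs.1)), ?_⟩
      rw [Complex.sub_re, Complex.conj_re, Complex.one_re]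
      linarith [hs.2]
    · intro s _; simp
    · intro s _; simp
  have h3 : (Z.filter (fun s => 1 / 2 ≤ s.re)).card =
      (Z.filter (fun s => s.re = 1 / 2)).card + (Z.filter (fun s => 1 / 2 < s.re)).card := by
    rw [← Finset.card_union_of_disjoint]
    · congr 1
      ext s
      simp only [Finset.mem_filter, Finset.mem_union]
      constructor
      · rintro ⟨h, h'⟩
        rcases eq_or_lt_of_le h' with h4 | h4
        · exact Or.inl ⟨h, h4.symm⟩
        · exact Or.inr ⟨h, h4⟩
      · rintro (⟨h, h'⟩ | ⟨h, h'⟩)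
        · exact ⟨h, h'.ge⟩
        · exact ⟨h, h'.le⟩
    · rw [Finset.disjoint_filter]
      intro s _ h h'
      linarith
  have h4 : (Z.filter (fun s => ¬ s.re = 1 / 2)).card =
      (Z.filter (fun s => s.re < 1 / 2)).card + (Z.filter (fun s => 1 / 2 < s.re)).card := by
    rw [← Finset.card_union_of_disjoint]
    · congr 1
      ext s
      simp only [Finset.mem_filter, Finset.mem_union]
      constructor
      · rintro ⟨h, h'⟩
        rcases lt_or_gt_of_ne h' with h4 | h4
        · exact Or.inl ⟨h, h4⟩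
        · exact Or.inr ⟨h, h4⟩
      · rintro (⟨h, h'⟩ | ⟨h, h'⟩)
        · exact ⟨h, h'.ne⟩
        · exact ⟨h, h'.ne'⟩
    · rw [Finset.disjoint_filter]
      intro s _ h h'
      linarith
  have h5 : ∑ s ∈ Z, kx x s = x ^ 2 * ((Z.filter (fun s => s.re = 1 / 2)).card : ℝ) +
      x ^ 2 / 2 * ((Z.filter (fun s => ¬ s.re = 1 / 2)).card : ℝ) := by
    unfold kx
    rw [Finset.sum_ite, Finset.sum_const, Finset.sum_const, nsmul_eq_mul, nsmul_eq_mul]
    ring
  rw [h5, h1, h3, h4, h2]
  push_cast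
  ring

end PerXh

open PerX PerXh

theorem t_perxh : StPerXh := by
  classical
  intro x hx γ h0 hπ d A hd hA
  obtain ⟨C, hC, h⟩ := PerX.core x hx γ h0 hπ d A hd hA
  refine ⟨C, hC, ?_⟩
  intro Q F a hQ hFU T κ Λ V1 V2 hκ hκT hΛ hV1 hV1' hV2 hV2'
  have hfin : (zset F T (2 * T)).Finite := zset_finite_D hA hQ hFU T _ (by linarith)
  have hx2 : 0 < x ^ 2 := by positivity
  have h1 := h Q F a hQ hFU
    (fun s => 2 * x * (mult F s : ℝ) - kx x s) (fun s _ => le_rfl) ?_
    T κ Λ V1 V2 hκ hκT hΛ hV1 hV1' hV2 hV2' hfin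
  · refine le_trans (le_of_eq ?_) h1
    rw [Finset.sum_sub_distrib, ← Finset.mul_sum]
    congr 1
    · congr 1
      unfold NN
      rw [finsum_mem_eq_finite_toFinset_sum _ hfin]
      push_cast; rfl
    · exact (sum_kx x hFU T (2 * T) (by linarith) hfin).symm
  · intro s hs
    have : 0 ≤ kx x s := by
      unfold kx
      split_ifs <;> positivity
    linarith

end Pool.Agent.JZ12
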