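import Pool.Agent.JZ12.PDefs

/-!
# PR-1, PR-2 : almost orthogonality to the constants, and the mean square over pairs
-/

set_option autoImplicit false

open Complex

namespace Pool.Agent.JZ12.PR

namespace PAvg

theorem quad {P A C : ℝ} (hP : 0 ≤ P) (hA : 0 ≤ A)
    (h : ∀ t : ℝ, 0 ≤ P * (t ^ 2 * A) - 2 * t * A + C) : A ≤ P * C := by
  rcases hP.eq_or_lt with h0 | h0
  · subst h0
    by_contra hc
    have hA' : 0 < A := by linarith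
    have h1 := h ((C + 1) / (2 * A))
    have h2 : 2 * ((C + 1) / (2 * A)) * A = C + 1 := by field_simp
    linarith
  · have h1 := h (1 / P)
    have h2 : P * ((1 / P) ^ 2 * A) - 2 * (1 / P) * A = -(A / P) := by field_simp; ring
    have h3 : A / P ≤ C := by linarith
    rw [div_le_iff₀ h0] at h3
    linarith

section

variable {ι : Type} (s : Finset ι) (w : ι → ℝ) (S : ι → ℂ)

theorem nrm : ‖∑ i ∈ s, (w i : ℂ) * S i‖ ^ 2 =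
    (∑ i ∈ s, w i * (S i).re) ^ 2 + (∑ i ∈ s, w i * (S i).im) ^ 2 := by
  rw [Complex.sq_norm, Complex.normSq_apply, Complex.re_sum, Complex.im_sum]
  simp only [Complex.re_ofReal_mul, Complex.im_ofReal_mul]
  ring

theorem expand (l : ℂ) : ∑ i ∈ s, w i * ‖l + S i‖ ^ 2 =
    (∑ i ∈ s, w i) * ‖l‖ ^ 2 + 2 * (l.re * ∑ i ∈ s, w i * (S i).re) +
      2 * (l.im * ∑ i ∈ s, w i * (S i).im) + ∑ i ∈ s, w i * ‖S i‖ ^ 2 := by
  rw [Finset.sum_mul, Finset.mul_sum, Finset.mul_sum, Finset.mul_sum, Finset.mul_sum,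
    ← Finset.sum_add_distrib, ← Finset.sum_add_distrib, ← Finset.sum_add_distrib]
  refine Finset.sum_congr rfl fun i _ => ?_
  simp only [Complex.sq_norm, Complex.normSq_apply, Complex.add_re, Complex.add_im]
  ring

theorem line (t : ℝ) :
    ∑ i ∈ s, w i * ‖(t : ℂ) * (∑ i ∈ s, (w i : ℂ) * S i) + S i‖ ^ 2 =
      (∑ i ∈ s, w i) * (t ^ 2 * ‖∑ i ∈ s, (w i : ℂ) * S i‖ ^ 2) +
        2 * t * ‖∑ i ∈ s, (w i : ℂ) * S i‖ ^ 2 + ∑ i ∈ s, w i * ‖S i‖ ^ 2 := by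
  have h1 : (∑ i ∈ s, (w i : ℂ) * S i).re = ∑ i ∈ s, w i * (S i).re := by
    rw [Complex.re_sum]; simp only [Complex.re_ofReal_mul]
  have h2 : (∑ i ∈ s, (w i : ℂ) * S i).im = ∑ i ∈ s, w i * (S i).im := by
    rw [Complex.im_sum]; simp only [Complex.im_ofReal_mul]
  rw [expand, Complex.re_ofReal_mul, Complex.im_ofReal_mul, h1, h2, norm_mul, mul_pow,
    Complex.norm_real, Real.norm_eq_abs, sq_abs, nrm]
  ring

variable {s w S}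

theorem cs (hw : ∀ i ∈ s, 0 ≤ w i) : ‖∑ i ∈ s, (w i : ℂ) * S i‖ ^ 2 ≤
    (∑ i ∈ s, w i) * ∑ i ∈ s, w i * ‖S i‖ ^ 2 := by
  refine quad (Finset.sum_nonneg hw) (sq_nonneg _) fun t => ?_
  have h1 := line s w S (-t)
  have h2 : 0 ≤ ∑ i ∈ s, w i * ‖((-t : ℝ) : ℂ) * (∑ i ∈ s, (w i : ℂ) * S i) + S i‖ ^ 2 :=
    Finset.sum_nonneg fun i hi => mul_nonneg (hw i hi) (sq_nonneg _)
  rw [h1] at h2
  have h3 : (-t) ^ 2 = t ^ 2 := by ring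
  rw [h3] at h2
  linarith

theorem avg {Δ B : ℝ} (hw : ∀ i ∈ s, 0 ≤ w i) (hW : (∑ i ∈ s, w i) ≤ Δ)
    (h : ∀ lam : ℂ, ∑ i ∈ s, w i * ‖lam + S i‖ ^ 2 ≤ Δ * (‖lam‖ ^ 2 + B)) :
    ‖∑ i ∈ s, (w i : ℂ) * S i‖ ^ 2 ≤ (∑ i ∈ s, w i) * (Δ - ∑ i ∈ s, w i) * B := by
  have hW0 : 0 ≤ ∑ i ∈ s, w i := Finset.sum_nonneg hw
  have hcs := cs (S := S) hw
  have h2 : ‖∑ i ∈ s, (w i : ℂ) * S i‖ ^ 2 ≤
      (Δ - ∑ i ∈ s, w i) * (Δ * B - ∑ i ∈ s, w i * ‖S i‖ ^ 2) := by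
    refine quad (sub_nonneg.2 hW) (sq_nonneg _) fun t => ?_
    have h1 := h ((t : ℂ) * (∑ i ∈ s, (w i : ℂ) * S i))
    rw [line, norm_mul, mul_pow, Complex.norm_real, Real.norm_eq_abs, sq_abs] at h1
    nlinarith
  set W := ∑ i ∈ s, w i
  set D := ∑ i ∈ s, w i * ‖S i‖ ^ 2
  set A := ‖∑ i ∈ s, (w i : ℂ) * S i‖ ^ 2
  have hA : 0 ≤ A := sq_nonneg _
  rcases (hW0.trans hW).eq_or_lt with h0 | h0
  · have h3 : W = 0 := le_antisymm (h0 ▸ hW) hW0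
    rw [h3, zero_mul] at hcs
    rw [h3, zero_mul, zero_mul]
    exact hcs
  · have h3 : W * A ≤ W * ((Δ - W) * (Δ * B - D)) := mul_le_mul_of_nonneg_left h2 hW0
    have h4 : (Δ - W) * A ≤ (Δ - W) * (W * D) :=
      mul_le_mul_of_nonneg_left hcs (sub_nonneg.2 hW)
    have h5 : Δ * A ≤ Δ * (W * (Δ - W) * B) := by nlinarith
    exact le_of_mul_le_mul_left h5 h0

theorem pairsq {S' : ι → ℂ} {Δ B : ℝ} (hw : ∀ i ∈ s, 0 ≤ w i) (hB : 0 ≤ B)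
    (hW : (∑ i ∈ s, w i) ≤ Δ)
    (h : ∀ lam : ℂ, ∑ i ∈ s, w i * ‖lam + S i‖ ^ 2 ≤ Δ * (‖lam‖ ^ 2 + B))
    (h' : ∀ lam : ℂ, ∑ i ∈ s, w i * ‖lam + S' i‖ ^ 2 ≤ Δ * (‖lam‖ ^ 2 + B)) :
    ∑ i ∈ s, ∑ j ∈ s, w i * w j * ‖S i + S' j‖ ^ 2 ≤ 2 * Δ ^ 2 * B := by
  have hW0 : 0 ≤ ∑ i ∈ s, w i := Finset.sum_nonneg hw
  have ha := avg hw hW h
  have ha' := avg hw hW h'
  have hD := h 0
  have hD' := h' 0
  simp only [zero_add, norm_zero] at hD hD'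
  have h1 : ∑ i ∈ s, ∑ j ∈ s, w i * w j * ‖S i + S' j‖ ^ 2 =
      (∑ i ∈ s, w i) * (∑ i ∈ s, w i * ‖S i‖ ^ 2) +
      2 * ((∑ i ∈ s, w i * (S i).re) * ∑ i ∈ s, w i * (S' i).re) +
      2 * ((∑ i ∈ s, w i * (S i).im) * ∑ i ∈ s, w i * (S' i).im) +
      (∑ i ∈ s, w i) * ∑ i ∈ s, w i * ‖S' i‖ ^ 2 := by
    have h2 : ∀ i ∈ s, ∑ j ∈ s, w i * w j * ‖S i + S' j‖ ^ 2 =
        (∑ j ∈ s, w j) * (w i * ‖S i‖ ^ 2) +
        2 * ((w i * (S i).re) * ∑ j ∈ s, w j * (S' j).re) +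
        2 * ((w i * (S i).im) * ∑ j ∈ s, w j * (S' j).im) +
        w i * ∑ j ∈ s, w j * ‖S' j‖ ^ 2 := by
      intro i _
      have h3 := expand s w S' (S i)
      have h4 : ∑ j ∈ s, w i * w j * ‖S i + S' j‖ ^ 2 = w i * ∑ j ∈ s, w j * ‖S i + S' j‖ ^ 2 := by
        rw [Finset.mul_sum]
        exact Finset.sum_congr rfl fun j _ => by ring
      rw [h4, h3]
      ring
    rw [Finset.sum_congr rfl h2, Finset.sum_add_distrib, Finset.sum_add_distrib,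
      Finset.sum_add_distrib, ← Finset.mul_sum, ← Finset.mul_sum, ← Finset.mul_sum,
      ← Finset.sum_mul, ← Finset.sum_mul, ← Finset.sum_mul]
  rw [h1]
  rw [nrm] at ha ha'
  set W := ∑ i ∈ s, w i
  set D := ∑ i ∈ s, w i * ‖S i‖ ^ 2
  set D' := ∑ i ∈ s, w i * ‖S' i‖ ^ 2
  set x := ∑ i ∈ s, w i * (S i).re
  set y := ∑ i ∈ s, w i * (S i).im
  set x' := ∑ i ∈ s, w i * (S' i).re
  set y' := ∑ i ∈ s, w i * (S' i).im
  have e1 : W * D ≤ W * (Δ * B) := mul_le_mul_of_nonneg_left (by nlinarith) hW0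
  have e2 : W * D' ≤ W * (Δ * B) := mul_le_mul_of_nonneg_left (by nlinarith) hW0
  have e3 : 0 ≤ (Δ - W) ^ 2 * B := mul_nonneg (sq_nonneg _) hB
  nlinarith [sq_nonneg (x - x'), sq_nonneg (y - y')]

end

end PAvg

/-- **PR-1** -/
theorem t_avg : StAvg := fun _ _ _ _ _ hw _ hW h => PAvg.avg hw hW h

/-- **PR-2** -/
theorem t_pairsq : StPairSq := fun _ _ _ _ _ _ hw hB hW h h' => PAvg.pairsq hw hB hW h h'

end Pool.Agent.JZ12.PR
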