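import Pool.Agent.JZ12.PStm

/-! Job PR-8 of project PR: the core estimate for pairs (port of `Pool.Agent.H82R3.AR.hg_core`). -/

set_option autoImplicit false

open Complex Filter Topology Set MeasureTheory
open H370 (zset mult NN Nd Ns)

set_option maxHeartbeats 4000000

namespace Pool.Agent.JZ12.PR

open Pool.Agent.H304R3.HK (tc UH CS bb LamK Rep tc_star_mul one_le_norm_tc)
open Pool.Agent.H82R3.AR
open H385 hiding wZ prim_exists PFs FS Wm hg6e_m hg6e_P hg6e_mem_P hg6e_card_P hg6e_key hg6e_fin hg6e_Wm hg6e_m_le hg6e_assoc hg6e_inner hg6e_regroup Wm_lower hc_of_prim hg8a_PFs hg8a_sum fs_mem fs_mass fs_le he_pt he_int he_core hg_point hg_sq hg8c_Wm_nonneg Wm_inf hg_ls HG8d_pt hg_int HG8d_wZ_cop hg_core hg_final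

namespace PCore

/-- a smaller `ε1` -/
theorem cyc_num_b (R0 c' β ε C1 C2 b : ℝ) (hR0 : 0 ≤ R0) (hc' : 0 ≤ c') (hβ : 0 < β) (hε : 0 < ε)
    (hC1 : 0 < C1) (hC2 : 0 < C2) (hb : 0 < b) :
    ∃ ε1 L0 : ℝ, 0 < ε1 ∧ ε1 ≤ b ∧ 1 ≤ L0 ∧ ∀ T ℒ κ s12 J0 SM SN : ℝ, 0 < T → L0 ≤ ℒ → 0 ≤ κ →
      κ ≤ ε1 * T → s12 ≤ ε1 * ℒ → J0 ≤ T / (2 * Real.pi) * ℒ * (c' + ε1) →
      SM ≤ ℒ ^ 2 * R0 * T / (2 * Real.pi * (β * ℒ)) + J0 +
        C1 * ((ℒ ^ 2 * κ / (β * ℒ) + ℒ * T / (β * ℒ) + κ * ℒ) + ℒ * T * s12 / (β * ℒ)) →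
      T / (2 * Real.pi) * ℒ * (1 - ε1) - C2 * (T + κ * ℒ) ≤ SN →
      SM ≤ (R0 / β + c' + ε) * SN := by
  obtain ⟨e, L0, he, hL0, h⟩ := cyc_num R0 c' β ε C1 C2 hR0 hc' hβ hε hC1 hC2
  refine ⟨min e b, L0, lt_min he hb, min_le_right _ _, hL0, ?_⟩
  intro T ℒ κ s12 J0 SM SN hT hℒ hκ hκT hs hJ hSM hSN
  have hπ := Real.pi_pos
  have hm : min e b ≤ e := min_le_left _ _
  have hℒ0 : 0 ≤ ℒ := by linarith
  have hq : 0 ≤ T / (2 * Real.pi) * ℒ := by positivity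
  refine h T ℒ κ s12 J0 SM SN hT hℒ hκ (hκT.trans (mul_le_mul_of_nonneg_right hm hT.le))
    (hs.trans (mul_le_mul_of_nonneg_right hm hℒ0))
    (hJ.trans (mul_le_mul_of_nonneg_left (by linarith) hq)) hSM ?_
  refine le_trans ?_ hSN
  have := mul_le_mul_of_nonneg_left (show 1 - e ≤ 1 - min e b by linarith) hq
  linarith

/-- `GoodD` is monotone in the constant -/
theorem good_mono {d A B Q : ℝ} (hA : 1 ≤ A) (hAB : A ≤ B) (hQ : 1 ≤ Q) {F : ℂ → ℂ} {a : ℕ → ℂ}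
    (h : GoodD d A Q F a) : GoodD d B Q F a where
  an := h.an
  growth := by
    intro s h1 h2 h3
    refine (h.growth s h1 h2 h3).trans ?_
    have h4 : 1 ≤ Q * s.im := one_le_mul_of_one_le_of_one_le hQ h3
    have h5 : (Q * s.im) ^ A ≤ (Q * s.im) ^ B := Real.rpow_le_rpow_of_exponent_le h4 hAB
    exact mul_le_mul hAB h5 (by positivity) (by linarith)
  lower := by
    intro t ht
    refine le_trans ?_ (h.lower t ht)
    exact inv_anti₀ (by linarith) hAB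
  nzr := h.nzr
  nzl := h.nzl
  symm := h.symm
  ha := h.ha
  ld := h.ld
  left := fun s h1 h2 h3 h4 => (h.left s h1 h2 h3 h4).trans hAB

theorem cpow_norm (w : ℝ) (n : ℕ) : ‖(n : ℂ) ^ (-(w : ℂ) * I)‖ ≤ 1 := by
  rcases Nat.eq_zero_or_pos n with h0 | h0
  · subst h0
    rw [Nat.cast_zero]
    by_cases hw : (-(w : ℂ) * I) = 0
    · rw [hw, cpow_zero, norm_one]
    · rw [zero_cpow hw, norm_zero]
      exact zero_le_one
  · rw [norm_natCast_cpow_of_pos h0]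
    have : (-(w : ℂ) * I).re = 0 := by simp
    rw [this, Real.rpow_zero]

end PCore

open PCore

theorem t_pcore (hi : StInt2) (hm : StGoodMul) (ht : StGoodTr) : StPCore := by
  classical
  intro h1 h2 hh1 hh2 γ β ε h0 hπ hβ hβ1 hε
  obtain ⟨A0, hA01, hgood⟩ := goodH
  obtain ⟨B1, hB1, htr1⟩ := ht A0 h1 hA01 hh1
  obtain ⟨B2, hB2, htr2⟩ := ht A0 h2 hA01 hh2
  obtain ⟨Am, hAm⟩ : ∃ Am : ℝ, Am = max B1 B2 := ⟨_, rfl⟩
  have hAm1 : 1 ≤ Am := by rw [hAm]; exact le_max_of_le_left hB1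
  obtain ⟨A, hAd⟩ : ∃ A : ℝ, A = 2 * Am ^ 2 := ⟨_, rfl⟩
  have hA1 : 1 ≤ A := by rw [hAd]; nlinarith
  obtain ⟨CS0, hCS0, hS, hcK, hlam⟩ := selb_cK
  obtain ⟨C1, hC1, hfam⟩ := fam_abstract_D γ h0 hπ 4 A (by norm_num) hA1
  obtain ⟨C1', hC1', hfam'⟩ := fam_abstract_d_D γ h0 hπ 4 A (by norm_num) hA1
  obtain ⟨C2, hC2, hlow⟩ := N_lower_D 4 A (by norm_num) hA1
  have hJ0' : 0 ≤ ∫ α in (0 : ℝ)..1, α * Rw γ α := I1_nonneg γ h0 hπ
  obtain ⟨J, hJ⟩ : ∃ J : ℝ, J = ∫ α in (0 : ℝ)..1, α * Rw γ α := ⟨_, rfl⟩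
  rw [← hJ] at hJ0' ⊢
  have hJ0 : 0 ≤ J := hJ0'
  have hR0 : 0 ≤ Rw γ 0 := Rw_nonneg γ h0 hπ 0
  obtain ⟨CC, hCC0, hCC1, hCC2⟩ : ∃ CC : ℝ, 0 < CC ∧ C1 ≤ CC ∧ C1' ≤ CC :=
    ⟨max C1 C1', lt_max_of_lt_left hC1, le_max_left _ _, le_max_right _ _⟩
  obtain ⟨ε1, L0, hε1, hε1b, hL0, hnum⟩ := cyc_num_b (16 * Rw γ 0) (4 * β * J) β (4 * ε) CC C2
    (min (1 / 2) (1 / (64 * (C2 + 1))))
    (by positivity) (by positivity) hβ (by positivity) hCC0 hC2 (by positivity)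
  have hε1h : ε1 ≤ 1 / 2 := hε1b.trans (min_le_left _ _)
  have hε1c : C2 * ε1 ≤ 1 / 64 := by
    have h5 : ε1 ≤ 1 / (64 * (C2 + 1)) := hε1b.trans (min_le_right _ _)
    rw [le_div_iff₀ (by positivity)] at h5
    nlinarith
  obtain ⟨C5, hC5, hint⟩ := hi
  obtain ⟨e', he', he'1, he'2⟩ : ∃ e' : ℝ, 0 < e' ∧ e' ≤ 1 / 4 ∧
      48 * e' * (2 * β * J) ≤ ε1 / 4 := by
    refine ⟨min (1 / 4) (ε1 / 4 / (48 * (2 * β * J) + 1)), lt_min (by norm_num) (by positivity),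
      min_le_left _ _, ?_⟩
    calc 48 * min (1 / 4) (ε1 / 4 / (48 * (2 * β * J) + 1)) * (2 * β * J) =
        (48 * (2 * β * J)) * min (1 / 4) (ε1 / 4 / (48 * (2 * β * J) + 1)) := by ring
      _ ≤ (48 * (2 * β * J) + 1) * (ε1 / 4 / (48 * (2 * β * J) + 1)) := by
          gcongr
          · linarith
          · exact min_le_right _ _
      _ = ε1 / 4 := by field_simp
  obtain ⟨P, hP, Cls, hCls, hls⟩ := hg_ls e' he'
  obtain ⟨cw, Cw, hcw, hCw, hWm⟩ := Wm_inf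
  obtain ⟨δ, hδ, hδ1, hδ2⟩ : ∃ δ : ℝ, 0 < δ ∧ δ ≤ 1 ∧ 2 * (β / 2) * J * δ ≤ ε1 / 64 / 4 := by
    refine ⟨min 1 (ε1 / 64 / 4 / (2 * (β / 2) * J + 1)), lt_min one_pos (by positivity),
      min_le_left _ _, ?_⟩
    calc 2 * (β / 2) * J * min 1 (ε1 / 64 / 4 / (2 * (β / 2) * J + 1)) ≤
        (2 * (β / 2) * J + 1) * (ε1 / 64 / 4 / (2 * (β / 2) * J + 1)) := by
          gcongr
          · linarith
          · exact min_le_right _ _
      _ = ε1 / 64 / 4 := by field_simp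
  obtain ⟨L1, hL1, hpoint⟩ := YH_point cK CS0 hS (ε1 / 4) C5 (by positivity) hC5 δ hδ hδ1
  obtain ⟨L2, η2, hL2, hη2, hYint⟩ := YH_integral cK CS0 hS γ (β / 2) (ε1 / 64) C5 h0 hπ
    (by positivity) (by linarith) (by positivity) hC5 δ hδ hδ1 (by rw [← hJ]; exact hδ2)
  rw [← hJ] at hYint
  obtain ⟨s, hs⟩ : ∃ s : ℝ, s = (4 - β) / 8 := ⟨_, rfl⟩
  have hs0 : 0 < s := by rw [hs]; linarith
  have hs1 : s ≤ 1 := by rw [hs]; linarith
  have hβs : β = 4 - 8 * s := by rw [hs]; ring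
  obtain ⟨L3, hL3, htail⟩ := he_tail s hs0
  obtain ⟨C0, hC01, hheight⟩ := he_height 0 (min (min ε1 η2) (1 / 8) / 2) (by positivity)
  obtain ⟨η, hη, hηs, hηe, hη1⟩ : ∃ η : ℝ, 0 < η ∧ η ≤ s / 3 ∧ η ≤ ε1 ∧ η ≤ 1 :=
    ⟨min (min (s / 3) ε1) 1, by positivity, (min_le_left _ _).trans (min_le_left _ _),
      (min_le_left _ _).trans (min_le_right _ _), min_le_right _ _⟩
  have hlogP : 0 ≤ Real.log (nrm P : ℕ) := Real.log_natCast_nonneg _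
  have hlog' : 0 < Real.log (1 + e') := Real.log_pos (by linarith)
  obtain ⟨Lb, hLb⟩ : ∃ Lb : ℝ, Lb = L0 + L1 + L2 + L3 + 1 / β + Real.log (nrm P : ℕ) +
    8 * Real.pi / (s * Real.log (1 + e')) + 64 * C2 := ⟨_, rfl⟩
  have hπ0 := Real.pi_pos
  have hq1 : 0 < 1 / β := by positivity
  have hq2 : 0 < 8 * Real.pi / (s * Real.log (1 + e')) := by positivity
  have hLb0 : 1 ≤ Lb := by linarith
  obtain ⟨KK, hKK⟩ : ∃ KK : ℝ, KK = (Cw + Cls / e' + 1) / cw := ⟨_, rfl⟩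
  refine ⟨max C0 (Real.exp Lb), max 1 (Real.exp KK), η, le_max_of_le_left hC01,
    le_max_left _ _, hη, ?_⟩
  intro X Y T hX hXY hYX hT hTX
  have hXr : (1 : ℝ) ≤ X := by exact_mod_cast hX
  have hX0 : (0 : ℝ) < X := by linarith
  have hXYr : (X : ℝ) ≤ Y := by
    refine le_trans ?_ hXY
    exact le_mul_of_one_le_left hX0.le (le_max_left _ _)
  have hXYn : X ≤ Y := by exact_mod_cast hXYr
  have hY0 : (0 : ℝ) < Y := by linarith
  have hY1 : (1 : ℝ) ≤ Y := by linarith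
  have hlX0 : 0 ≤ Real.log X := Real.log_nonneg hXr
  have hsq := Real.sqrt_nonneg (Real.log X)
  have hTC0 : C0 * (1 + Real.sqrt (Real.log X)) ≤ T := by
    refine le_trans ?_ hT
    exact mul_le_mul_of_nonneg_right (le_max_left _ _) (by linarith)
  have hexT : Real.exp Lb ≤ T := by
    refine le_trans ?_ hT
    have h1 : Real.exp Lb ≤ max C0 (Real.exp Lb) := le_max_right _ _
    have h2 : 0 ≤ max C0 (Real.exp Lb) := by
      have := Real.exp_pos Lb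
      linarith
    calc _ ≤ max C0 (Real.exp Lb) * 1 := by linarith
      _ ≤ _ := mul_le_mul_of_nonneg_left (by linarith) h2
  obtain ⟨-, hT1, hκT0⟩ := hheight X T hXr hTC0
  have hT0 : 0 < T := by linarith
  have hLbT : Lb ≤ Real.log T := by
    rw [Real.le_log_iff_exp_le hT0]; exact hexT
  have hlogTX : Real.log T ≤ η * Real.log X := by
    have := Real.log_le_log hT0 hTX
    rwa [Real.log_rpow hX0] at this
  have hlogTX2 : Real.log T ≤ Real.log X := by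
    refine hlogTX.trans ?_
    calc η * Real.log X ≤ 1 * Real.log X := mul_le_mul_of_nonneg_right hη1 hlX0
      _ = Real.log X := one_mul _
  have hLbX : Lb ≤ Real.log X := hLbT.trans hlogTX2
  have hlX1 : 0 < Real.log X := by linarith
  have hlogY : Real.log Y ≤ (1 + η) * Real.log X := by
    have := Real.log_le_log hY0 hYX
    rwa [Real.log_rpow hX0] at this
  have hlogXY : Real.log X ≤ Real.log Y := Real.log_le_log hX0 hXYr
  obtain ⟨ℒ, hℒd⟩ : ∃ ℒ : ℝ, ℒ = Real.log (Real.sqrt Y * T) := ⟨_, rfl⟩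
  have hsY : 0 < Real.sqrt (Y : ℝ) := Real.sqrt_pos.mpr hY0
  have hℒe : ℒ = 1 / 2 * Real.log Y + Real.log T := by
    rw [hℒd, Real.log_mul hsY.ne' hT0.ne', Real.log_sqrt hY0.le]
    ring
  have hℒLb : Lb ≤ ℒ := by linarith
  have hℒ1 : 1 ≤ ℒ := hLb0.trans hℒLb
  have hℒ0 : 0 < ℒ := by linarith
  have hℒL0 : L0 ≤ ℒ := by linarith
  have hℒL1 : L1 ≤ ℒ := by linarith
  have hℒL2 : L2 ≤ 2 * ℒ := by linarith
  have hℒL3 : L3 ≤ 2 * ℒ := by linarith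
  have hℒC2 : 64 * C2 + 1 ≤ ℒ := by linarith
  have hℒP : Real.log (nrm P : ℕ) ≤ 2 * ℒ := by linarith
  have hℒP2 : Real.log (nrm P : ℕ) ≤ 2 * (2 * ℒ) := by linarith
  have hΛ1 : 1 ≤ β * ℒ := by
    have : 1 / β ≤ ℒ := by linarith
    rw [div_le_iff₀ hβ] at this
    linarith
  have hTℒ : T ≤ Real.exp (2 * ℒ) := by
    have h1 : Real.log T ≤ 2 * ℒ := by linarith
    rwa [Real.log_le_iff_le_exp hT0] at h1
  obtain ⟨κ, hκd⟩ : ∃ κ : ℝ, κ = 4 * Real.sqrt (2 * ℒ) := ⟨_, rfl⟩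
  obtain ⟨p1, p2, p3, p4, p5, p6⟩ := he_param (β / 2) (2 * ℒ) T κ (by linarith) (by linarith)
    hκd hTℒ
  have hκ0 : 0 ≤ κ := by linarith
  have hlXT : Real.log ((X : ℝ) * T) = Real.log X + Real.log T :=
    Real.log_mul hX0.ne' hT0.ne'
  have hℒXT : ℒ ≤ Real.log ((X : ℝ) * T) := by
    have h1 : (1 + η) * Real.log X ≤ 2 * Real.log X :=
      mul_le_mul_of_nonneg_right (by linarith) hlX0
    rw [hlXT, hℒe]
    linarith
  have hκXT : κ ≤ 2 * (4 * Real.sqrt (Real.log ((X : ℝ) * T))) := by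
    have h1 : Real.sqrt (2 * ℒ) ≤ 2 * Real.sqrt (Real.log ((X : ℝ) * T)) := by
      rw [Real.sqrt_le_left (by positivity), mul_pow, Real.sq_sqrt (by linarith)]
      linarith
    rw [hκd]
    linarith
  have hκm : κ ≤ min (min ε1 η2) (1 / 8) * T := by linarith
  have hκ1 : κ ≤ ε1 * T := hκm.trans (by
    refine mul_le_mul_of_nonneg_right ?_ hT0.le
    exact (min_le_left _ _).trans (min_le_left _ _))
  have hκ2 : κ ≤ η2 * T := hκm.trans (by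
    refine mul_le_mul_of_nonneg_right ?_ hT0.le
    exact (min_le_left _ _).trans (min_le_right _ _))
  have hκ8 : 8 * κ ≤ T := by
    have : κ ≤ 1 / 8 * T := hκm.trans (by
      refine mul_le_mul_of_nonneg_right ?_ hT0.le
      exact min_le_right _ _)
    linarith
  have hκT1 : κ ≤ T := by linarith
  have p5' : ℒ ^ 2 * Real.exp (β * ℒ - κ ^ 2 / 2) ≤ Real.exp (-(β * ℒ)) := by
    have e : β / 2 * (2 * ℒ) = β * ℒ := by ring
    rw [e] at p5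
    refine le_trans ?_ p5
    refine mul_le_mul_of_nonneg_right ?_ (Real.exp_pos _).le
    exact pow_le_pow_left₀ hℒ0.le (by linarith) 2
  have p6' : ℒ ^ 2 * Real.exp (-κ ^ 2 / 2) ≤ 1 := by
    refine le_trans ?_ p6
    refine mul_le_mul_of_nonneg_right ?_ (Real.exp_pos _).le
    exact pow_le_pow_left₀ hℒ0.le (by linarith) 2
  -- the mass
  obtain ⟨W, hWd⟩ : ∃ W : ℝ, W = ∑ p ∈ FS X Y, wF p := ⟨_, rfl⟩
  have hWW : Wm X Y = W := by rw [hWd]; exact fs_mass X Y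
  have hWbig : Cls / e' + 1 ≤ W := by
    rw [← hWW]
    refine le_trans ?_ (hWm X Y hX hXYn)
    have h1 : KK ≤ Real.log ((Y : ℝ) / X) := by
      rw [Real.le_log_iff_exp_le (by positivity), le_div_iff₀ hX0]
      refine le_trans ?_ hXY
      exact mul_le_mul_of_nonneg_right (le_max_right _ _) hX0.le
    rw [hKK, div_le_iff₀ hcw] at h1
    linarith
  have hCe : 0 ≤ Cls / e' := by positivity
  have hW0 : 0 < W := by linarith
  have hClsW : Cls ≤ e' * W := by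
    have : Cls / e' ≤ W := by linarith
    rw [div_le_iff₀ he'] at this
    linarith
  obtain ⟨θ, hθ⟩ : ∃ θ : ℝ, θ = (1 + e') * (1 + 2 * e') := ⟨_, rfl⟩
  have hθ1 : 1 ≤ θ := by rw [hθ]; exact HG8e_th1 e' he'
  have hθ2 : θ ≤ 1 + 4 * e' := by rw [hθ]; exact HG8e_th2 e' he' he'1
  have hθ3 : θ ≤ 2 := by linarith
  have hθ0 : 0 ≤ θ := by linarith
  obtain ⟨θ₂, hθ₂⟩ : ∃ θ₂ : ℝ, θ₂ = 2 * (1 + δ) * θ ^ 2 := ⟨_, rfl⟩
  have hθsq : θ ^ 2 ≤ 1 + 12 * e' := by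
    have h5 : θ ^ 2 ≤ (1 + 4 * e') ^ 2 := pow_le_pow_left₀ hθ0 hθ2 2
    nlinarith
  have hθ₂0 : 0 ≤ θ₂ := by rw [hθ₂]; positivity
  have hθ₂2 : θ₂ ≤ 2 + 2 * δ + 48 * e' := by
    rw [hθ₂]
    have h5 : 2 * (1 + δ) * θ ^ 2 ≤ 2 * (1 + δ) * (1 + 12 * e') :=
      mul_le_mul_of_nonneg_left hθsq (by positivity)
    have h6 : δ * e' ≤ 1 * e' := mul_le_mul_of_nonneg_right hδ1 he'.le
    nlinarith
  have hθ₂3 : θ₂ ≤ 16 := by linarith
  -- length of the short sum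
  obtain ⟨N, hNb, hN⟩ := htail (β * ℒ) (2 * ℒ) hℒL3 (by positivity) (by
    have h1 : β * ℒ ≤ 4 * ℒ := mul_le_mul_of_nonneg_right hβ1.le hℒ0.le
    linarith)
  have hℒup : ℒ ≤ (1 / 2 + 3 / 2 * η) * Real.log X := by
    rw [hℒe]
    exact HG8e_up _ _ _ _ hlogY hlogTX
  have hexpN : Real.exp (2 * Real.pi * Real.sqrt N / X) ≤ 1 + e' := by
    have := HG8e_short β s η e' (Real.log X) ℒ hβ hs0 hβs hη hηs he' hlX1 hℒ0.le hℒup
      (by linarith) N hNb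
    rwa [Real.exp_log hX0] at this
  have hsieve : ∀ b : ZI → ℂ, (∀ n, ¬ IsCoprime n P → b n = 0) →
      ∑ p ∈ FS X Y, wF p * ‖SC (BX N) b p.1 p.2‖ ^ 2 ≤
        4 * (θ * W) * ∑ n ∈ BX N, ‖b n‖ ^ 2 := by
    intro b hb
    refine (hls X Y N b hX hXYn hb).trans ?_
    refine mul_le_mul_of_nonneg_right ?_ (Finset.sum_nonneg fun n _ => by positivity)
    rw [hWW]
    have h1 : (1 + e') * W + Cls ≤ (1 + 2 * e') * W := by linarith
    calc Real.exp (2 * Real.pi * Real.sqrt N / X) * (4 * ((1 + e') * W + Cls)) ≤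
        (1 + e') * (4 * ((1 + 2 * e') * W)) := by
          refine mul_le_mul hexpN ?_ (by positivity) (by positivity)
          linarith
      _ = 4 * (θ * W) := by rw [hθ]; ring
  have hWθ : Wm X Y ≤ θ * W := by
    rw [hWW]
    exact le_mul_of_one_le_left hW0.le hθ1
  have hnP : 1 ≤ nrm P := by
    rw [Nat.one_le_iff_ne_zero]
    intro h
    have h1 := nrm_eq P
    rw [h] at h1
    have h2 := one_le_norm_tc hP
    have h3 : (1 : ℝ) ≤ ‖tc P‖ ^ 2 := one_le_pow₀ h2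
    rw [← h1] at h3
    norm_num at h3
  obtain ⟨y1, y2, hy1, hy2, m2', m5⟩ := hpoint (nrm P) T κ ℒ hnP hT1 hℒL1 hℒP hκ0 hκT1
  have m4 := hYint (nrm P) T κ (2 * ℒ) hnP hT1 hℒL2 hℒP2 hκ0 hκ2
  rw [show β / 2 * (2 * ℒ) = β * ℒ by ring] at m4
  obtain ⟨YY, hYY⟩ : ∃ YY : ℝ → ℝ, YY = fun u => θ₂ * YH cK δ C5 (nrm P) T κ u := ⟨_, rfl⟩
  have hYYu : ∀ u, YY u = θ₂ * YH cK δ C5 (nrm P) T κ u := fun u => by rw [hYY]
  have m2 : ∀ u ∈ Set.Icc 0 (β * ℒ), YY u ≤ T * (θ₂ * y1 * (u + 1) + θ₂ * y2) := by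
    intro u hu
    have := mul_le_mul_of_nonneg_left (m2' u hu.1) hθ₂0
    rw [hYYu]
    refine this.trans (le_of_eq ?_)
    ring
  have m5' : Real.sqrt (θ₂ * y1) + Real.sqrt (θ₂ * y2) ≤ ε1 * ℒ := by
    rw [Real.sqrt_mul hθ₂0, Real.sqrt_mul hθ₂0, ← mul_add]
    have h1 : Real.sqrt θ₂ ≤ 4 := by
      rw [Real.sqrt_le_left (by norm_num)]
      linarith
    have h2 : 0 ≤ Real.sqrt y1 + Real.sqrt y2 := by positivity
    calc Real.sqrt θ₂ * (Real.sqrt y1 + Real.sqrt y2) ≤ 4 * (ε1 / 4 * ℒ) :=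
          mul_le_mul h1 m5 h2 (by norm_num)
      _ = ε1 * ℒ := by ring
  have m4' : (2 / (Real.sqrt Real.pi * (β * ℒ))) *
        (∫ u in (0 : ℝ)..(β * ℒ), Rw γ (u / (β * ℒ)) * YY u) ≤
      T / (2 * Real.pi) * ℒ * (4 * β * J + ε1) := by
    have e1 : ∫ u in (0 : ℝ)..(β * ℒ), Rw γ (u / (β * ℒ)) * YY u =
        θ₂ * ∫ u in (0 : ℝ)..(β * ℒ), Rw γ (u / (β * ℒ)) * YH cK δ C5 (nrm P) T κ u := by
      rw [← intervalIntegral.integral_const_mul]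
      refine intervalIntegral.integral_congr (fun u _ => ?_)
      simp only [hYYu]
      ring
    rw [e1]
    have e2 := mul_le_mul_of_nonneg_left m4 hθ₂0
    have e3 : θ₂ * (T / (2 * Real.pi) * (2 * ℒ) * (2 * (β / 2) * J + ε1 / 64)) ≤
        T / (2 * Real.pi) * ℒ * (4 * β * J + ε1) := by
      have e4 : θ₂ * (T / (2 * Real.pi) * (2 * ℒ) * (2 * (β / 2) * J + ε1 / 64)) =
          T / (2 * Real.pi) * ℒ * (θ₂ * (2 * β * J) + θ₂ * (ε1 / 32)) := by ring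
      rw [e4]
      refine mul_le_mul_of_nonneg_left ?_ (by positivity)
      have e5 : θ₂ * (2 * β * J) ≤ (2 + 2 * δ + 48 * e') * (2 * β * J) :=
        mul_le_mul_of_nonneg_right hθ₂2 (by positivity)
      have e6 : θ₂ * (ε1 / 32) ≤ 16 * (ε1 / 32) := mul_le_mul_of_nonneg_right hθ₂3 (by positivity)
      have e7 : 2 * δ * (2 * β * J) ≤ ε1 / 64 := by
        have e8 : 2 * δ * (2 * β * J) = 4 * (2 * (β / 2) * J * δ) := by ring
        rw [e8]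
        linarith
      have e9 : (2 + 2 * δ + 48 * e') * (2 * β * J) =
          4 * β * J + 2 * δ * (2 * β * J) + 48 * e' * (2 * β * J) := by ring
      linarith
    calc _ = θ₂ * ((2 / (Real.sqrt Real.pi * (β * ℒ))) *
        (∫ u in (0 : ℝ)..(β * ℒ), Rw γ (u / (β * ℒ)) * YH cK δ C5 (nrm P) T κ u)) := by ring
      _ ≤ _ := e2
      _ ≤ _ := e3
  -- the family of pairs
  obtain ⟨PP, hPP⟩ : ∃ PP, PP = FS X Y ×ˢ FS X Y := ⟨_, rfl⟩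
  have hprod : ∀ f : ((Σ q : ZI, MulChar (RQ q) ℂ) × (Σ q : ZI, MulChar (RQ q) ℂ)) → ℝ,
      ∑ i ∈ PP, f i = ∑ p ∈ FS X Y, ∑ p' ∈ FS X Y, f (p, p') := by
    intro f
    rw [hPP, Finset.sum_product]
  have hmemPP : ∀ i ∈ PP, i.1 ∈ FS X Y ∧ i.2 ∈ FS X Y := by
    intro i hi'
    rw [hPP, Finset.mem_product] at hi'
    exact hi'
  have hW2 : 0 < W ^ 2 := by positivity
  -- the mean square
  have hW1 : 0 ≤ 1 / W ^ 2 := by positivity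
  have m1 : ∀ u ∈ Set.Icc 0 (β * ℒ), ∫ t : ℝ, ∑ i ∈ PP, (wF i.1 * wF i.2 / W ^ 2) *
      ‖∑' n : ℕ, (aH (chiZ i.1.1 i.1.2) n * (n : ℂ) ^ (-(h1 : ℂ) * I) +
        aH (chiZ i.2.1 i.2.2) n * (n : ℂ) ^ (-(h2 : ℂ) * I)) *
        ((Real.sqrt n : ℂ)⁻¹ * bt T u t (Real.log n))‖ ^ 2 ≤
      YY u := by
    intro u hu
    have h5 := hint (fun n => (n : ℂ) ^ (-(h1 : ℂ) * I)) (fun n => (n : ℂ) ^ (-(h2 : ℂ) * I))
      (cpow_norm h1) (cpow_norm h2) δ P X Y N (θ * W) T κ u hδ hX hWθ hsieve (by linarith) hT1 p4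
      hu.1 (hN u hu)
    have e1 : ∀ t : ℝ, ∑ i ∈ PP, (wF i.1 * wF i.2 / W ^ 2) *
        ‖∑' n : ℕ, (aH (chiZ i.1.1 i.1.2) n * (n : ℂ) ^ (-(h1 : ℂ) * I) +
          aH (chiZ i.2.1 i.2.2) n * (n : ℂ) ^ (-(h2 : ℂ) * I)) *
          ((Real.sqrt n : ℂ)⁻¹ * bt T u t (Real.log n))‖ ^ 2 =
        (1 / W ^ 2) * ∑ p ∈ FS X Y, ∑ p' ∈ FS X Y, wF p * wF p' *
        ‖∑' n : ℕ, (aH (chiZ p.1 p.2) n * (n : ℂ) ^ (-(h1 : ℂ) * I) +
          aH (chiZ p'.1 p'.2) n * (n : ℂ) ^ (-(h2 : ℂ) * I)) *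
          ((Real.sqrt n : ℂ)⁻¹ * bt T u t (Real.log n))‖ ^ 2 := by
      intro t
      rw [hprod, Finset.mul_sum]
      refine Finset.sum_congr rfl (fun p _ => ?_)
      rw [Finset.mul_sum]
      exact Finset.sum_congr rfl (fun p' _ => by ring)
    simp_rw [e1]
    rw [integral_const_mul]
    have h6 := mul_le_mul_of_nonneg_left h5 hW1
    refine h6.trans (le_of_eq ?_)
    rw [hYYu, hθ₂]
    field_simp
  have m3 : IntervalIntegrable YY volume 0 (β * ℒ) := by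
    rw [hYY]
    exact ((YH_cont _ CS0 hS _ _ _ _ _).const_mul θ₂).intervalIntegrable _ _
  -- the family
  have hmem : ∀ p ∈ FS X Y, (1 : ℝ) ≤ ‖tc p.1‖ ∧ GoodD 2 A0 ‖tc p.1‖ (LH (chiZ p.1 p.2))
      (aH (chiZ p.1 p.2)) ∧ Real.log (‖tc p.1‖ * T) ≤ ℒ ∧
      ℒ * (1 - ε1) ≤ Real.log (‖tc p.1‖ * T) := by
    intro p hp
    obtain ⟨hq0, hXq, hqY, hpr, him⟩ := (fs_mem X Y p).1 hp
    have hHC := hc_of_prim p.1 hq0 (by omega) p.2 hpr him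
    have hQ1 : (1 : ℝ) ≤ ‖tc p.1‖ := one_le_norm_tc hq0
    have hQ0 : 0 < ‖tc p.1‖ := by linarith
    have hn := nrm_eq p.1
    have hlogn : Real.log (nrm p.1 : ℕ) = 2 * Real.log ‖tc p.1‖ := by
      rw [hn, Real.log_pow]
      push_cast
      ring
    have hnX : (X : ℝ) ≤ (nrm p.1 : ℕ) := by exact_mod_cast hXq.le
    have hnY : ((nrm p.1 : ℕ) : ℝ) ≤ Y := by exact_mod_cast hqY
    have hl1 := Real.log_le_log hX0 hnX
    have hl2 := Real.log_le_log (lt_of_lt_of_le hX0 hnX) hnY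
    have hl3 : Real.log (‖tc p.1‖ * T) = Real.log ‖tc p.1‖ + Real.log T :=
      Real.log_mul hQ0.ne' hT0.ne'
    refine ⟨hQ1, (hgood _ _ hHC).2.2.2, ?_, ?_⟩
    · rw [hl3, hℒe]
      linarith
    · rw [hl3]
      have h1 : η * Real.log X ≤ 2 * (ε1 * ℒ) := by
        have h2 : Real.log X ≤ 2 * ℒ := by
          have : 0 ≤ Real.log T := Real.log_nonneg hT1
          linarith
        calc η * Real.log X ≤ ε1 * (2 * ℒ) := mul_le_mul hηe h2 hlX0 hε1.le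
          _ = _ := by ring
      have h3 : ℒ * (1 - ε1) = ℒ - ε1 * ℒ := by ring
      rw [h3]
      have h4 : ℒ ≤ 1 / 2 * ((1 + η) * Real.log X) + Real.log T := by
        rw [hℒe]; linarith
      have h5 : (1 + η) * Real.log X = Real.log X + η * Real.log X := by ring
      linarith
  have hmem2 : ∀ i ∈ PP, (1 : ℝ) ≤ Real.sqrt (‖tc i.1.1‖ * ‖tc i.2.1‖) ∧
      GoodD 4 A (Real.sqrt (‖tc i.1.1‖ * ‖tc i.2.1‖)) (FP h1 h2 i.1 i.2)
      (fun n => aH (chiZ i.1.1 i.1.2) n * (n : ℂ) ^ (-(h1 : ℂ) * I) +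
        aH (chiZ i.2.1 i.2.2) n * (n : ℂ) ^ (-(h2 : ℂ) * I)) ∧
      Real.log (Real.sqrt (‖tc i.1.1‖ * ‖tc i.2.1‖) * T) ≤ ℒ ∧
      ℒ * (1 - ε1) ≤ Real.log (Real.sqrt (‖tc i.1.1‖ * ‖tc i.2.1‖) * T) := by
    intro i hi'
    obtain ⟨hi1, hi2⟩ := hmemPP i hi'
    obtain ⟨a1, a2, a3, a4⟩ := hmem i.1 hi1
    obtain ⟨b1, b2, b3, b4⟩ := hmem i.2 hi2
    have a0 : 0 < ‖tc i.1.1‖ := by linarith
    have b0 : 0 < ‖tc i.2.1‖ := by linarith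
    have hab : 1 ≤ ‖tc i.1.1‖ * ‖tc i.2.1‖ := one_le_mul_of_one_le_of_one_le a1 b1
    have hab0 : 0 < ‖tc i.1.1‖ * ‖tc i.2.1‖ := by positivity
    have hs1' : 1 ≤ Real.sqrt (‖tc i.1.1‖ * ‖tc i.2.1‖) := Real.one_le_sqrt.2 hab
    have hs0' : 0 < Real.sqrt (‖tc i.1.1‖ * ‖tc i.2.1‖) := by linarith
    have hlg : Real.log (Real.sqrt (‖tc i.1.1‖ * ‖tc i.2.1‖) * T) =
        1 / 2 * Real.log (‖tc i.1.1‖ * T) + 1 / 2 * Real.log (‖tc i.2.1‖ * T) := by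
      rw [Real.log_mul hs0'.ne' hT0.ne', Real.log_sqrt hab0.le, Real.log_mul a0.ne' b0.ne',
        Real.log_mul a0.ne' hT0.ne', Real.log_mul b0.ne' hT0.ne']
      ring
    have hAmB1 : B1 ≤ Am := by rw [hAm]; exact le_max_left _ _
    have hAmB2 : B2 ≤ Am := by rw [hAm]; exact le_max_right _ _
    have g1 := good_mono hB1 hAmB1 a1 (htr1 _ _ _ a1 a2)
    have g2 := good_mono hB2 hAmB2 b1 (htr2 _ _ _ b1 b2)
    have g3 := hm Am _ _ hAm1 a1 b1 _ _ _ _ g1 g2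
    rw [← hAd] at g3
    refine ⟨hs1', g3, ?_, ?_⟩
    · rw [hlg]; linarith
    · rw [hlg]; linarith
  have hwF : ∀ p : Σ q : ZI, MulChar (RQ q) ℂ, 0 ≤ wF p := by
    intro p
    unfold wF
    positivity
  have hω0 : ∀ i : (Σ q : ZI, MulChar (RQ q) ℂ) × (Σ q : ZI, MulChar (RQ q) ℂ),
      0 ≤ wF i.1 * wF i.2 / W ^ 2 := fun i =>
    div_nonneg (mul_nonneg (hwF _) (hwF _)) hW2.le
  have hWone : ∑ i ∈ PP, wF i.1 * wF i.2 / W ^ 2 = 1 := by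
    rw [← Finset.sum_div, hprod]
    have h5 : ∑ p ∈ FS X Y, ∑ p' ∈ FS X Y, wF p * wF p' = W ^ 2 := by
      rw [sq, hWd, Finset.sum_mul_sum]
    rw [h5]
    exact div_self hW2.ne'
  have hdata : ∀ i ∈ PP, 0 ≤ wF i.1 * wF i.2 / W ^ 2 ∧
      (1 : ℝ) ≤ Real.sqrt (‖tc i.1.1‖ * ‖tc i.2.1‖) ∧
      GoodD 4 A (Real.sqrt (‖tc i.1.1‖ * ‖tc i.2.1‖)) (FP h1 h2 i.1 i.2)
      (fun n => aH (chiZ i.1.1 i.1.2) n * (n : ℂ) ^ (-(h1 : ℂ) * I) +
        aH (chiZ i.2.1 i.2.2) n * (n : ℂ) ^ (-(h2 : ℂ) * I)) ∧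
      Real.log (Real.sqrt (‖tc i.1.1‖ * ‖tc i.2.1‖) * T) ≤ ℒ := by
    intro i hi'
    obtain ⟨g1, g2, g3, g4⟩ := hmem2 i hi'
    exact ⟨hω0 i, g1, g2, g3⟩
  have k1 := hfam PP (fun i => wF i.1 * wF i.2 / W ^ 2)
    (fun i => Real.sqrt (‖tc i.1.1‖ * ‖tc i.2.1‖)) (fun i => FP h1 h2 i.1 i.2)
    (fun i n => aH (chiZ i.1.1 i.1.2) n * (n : ℂ) ^ (-(h1 : ℂ) * I) +
        aH (chiZ i.2.1 i.2.2) n * (n : ℂ) ^ (-(h2 : ℂ) * I)) T κ (β * ℒ) ℒ (θ₂ * y1) (θ₂ * y2)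
    YY hdata p1 hκ8 p3 hΛ1 hℒ1 p5' (by positivity) (by positivity) m1 m2 m3
  have k2 := hfam' PP (fun i => wF i.1 * wF i.2 / W ^ 2)
    (fun i => Real.sqrt (‖tc i.1.1‖ * ‖tc i.2.1‖)) (fun i => FP h1 h2 i.1 i.2)
    (fun i n => aH (chiZ i.1.1 i.1.2) n * (n : ℂ) ^ (-(h1 : ℂ) * I) +
        aH (chiZ i.2.1 i.2.2) n * (n : ℂ) ^ (-(h2 : ℂ) * I)) T κ (β * ℒ) ℒ (θ₂ * y1) (θ₂ * y2)
    YY hdata p1 hκ8 p3 hΛ1 hℒ1 p5' (by positivity) (by positivity) m1 m2 m3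
  obtain ⟨SN, hSN⟩ : ∃ SN : ℝ, SN = ∑ i ∈ PP, (wF i.1 * wF i.2 / W ^ 2) *
    (NN (FP h1 h2 i.1 i.2) T (2 * T) : ℝ) := ⟨_, rfl⟩
  -- lower bound for the number of zeros
  have hNlow : T / (2 * Real.pi) * ℒ * (1 - ε1) - C2 * (T + κ * ℒ) ≤ SN / 4 := by
    have hpt : ∀ i ∈ PP,
        4 * (T / (2 * Real.pi) * ℒ * (1 - ε1) - C2 * (T + κ * ℒ)) ≤
        (NN (FP h1 h2 i.1 i.2) T (2 * T) : ℝ) := by
      intro i hi'
      obtain ⟨g1, g2, g3, g4⟩ := hmem2 i hi'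
      have hl := hlow _ (FP h1 h2 i.1 i.2) _ g1 g2 T κ p1 hκ8
      refine le_trans ?_ hl
      obtain ⟨LL, hLL⟩ : ∃ LL : ℝ, LL = Real.log (Real.sqrt (‖tc i.1.1‖ * ‖tc i.2.1‖) * T) :=
        ⟨_, rfl⟩
      rw [← hLL] at g3 g4 ⊢
      have hn : 0 ≤ LL := by
        rw [hLL]
        exact Real.log_nonneg (one_le_mul_of_one_le_of_one_le g1 hT1)
      have a3 : T * LL ^ 2 * Real.exp (-κ ^ 2 / 2) ≤ T := by
        have b1 : LL ^ 2 ≤ ℒ ^ 2 := pow_le_pow_left₀ hn g3 2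
        have b2 : LL ^ 2 * Real.exp (-κ ^ 2 / 2) ≤ 1 :=
          (mul_le_mul_of_nonneg_right b1 (Real.exp_pos _).le).trans p6'
        calc _ = T * (LL ^ 2 * Real.exp (-κ ^ 2 / 2)) := by ring
          _ ≤ T * 1 := mul_le_mul_of_nonneg_left b2 hT0.le
          _ = T := mul_one T
      have a4 : κ * LL ≤ κ * ℒ := mul_le_mul_of_nonneg_left g3 hκ0
      have hκℒ : 0 ≤ κ * ℒ := by positivity
      have a5 : C2 * (T + κ * LL + T * LL ^ 2 * Real.exp (-κ ^ 2 / 2)) ≤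
          4 * C2 * (T + κ * ℒ) := by
        calc _ ≤ C2 * (T + κ * ℒ + T) := mul_le_mul_of_nonneg_left (by linarith) hC2.le
          _ ≤ C2 * (4 * (T + κ * ℒ)) := mul_le_mul_of_nonneg_left (by linarith) hC2.le
          _ = _ := by ring
      have a6 : T / (2 * Real.pi) * (4 * (ℒ * (1 - ε1))) ≤
          T / (2 * Real.pi) * (4 * LL) :=
        mul_le_mul_of_nonneg_left (by linarith) (by positivity)
      have a7 : T / (2 * Real.pi) * (4 * (ℒ * (1 - ε1))) =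
          4 * (T / (2 * Real.pi) * ℒ * (1 - ε1)) := by ring
      linarith
    have hsum : ∑ i ∈ PP, (wF i.1 * wF i.2 / W ^ 2) *
        (4 * (T / (2 * Real.pi) * ℒ * (1 - ε1) - C2 * (T + κ * ℒ))) ≤ SN := by
      rw [hSN]
      exact Finset.sum_le_sum fun i hi' => mul_le_mul_of_nonneg_left (hpt i hi') (hω0 i)
    rw [← Finset.sum_mul, hWone, one_mul] at hsum
    linarith
  have hSN3 : W ^ 2 * SN = ∑ p ∈ FS X Y, ∑ p' ∈ FS X Y, wF p * wF p' *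
      (NN (FP h1 h2 p p') T (2 * T) : ℝ) := by
    rw [hSN, hprod, Finset.mul_sum]
    refine Finset.sum_congr rfl (fun p _ => ?_)
    rw [Finset.mul_sum]
    refine Finset.sum_congr rfl (fun p' _ => ?_)
    field_simp
  have hSNpos : 0 < SN := by
    have c1 : T * ℒ / 16 ≤ T / (2 * Real.pi) * ℒ * (1 - ε1) := by
      have c2 : T / (2 * Real.pi) * ℒ * (1 - ε1) = T * ℒ * ((1 - ε1) / (2 * Real.pi)) := by ring
      rw [c2]
      have c3 : 1 / 16 ≤ (1 - ε1) / (2 * Real.pi) := by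
        rw [le_div_iff₀ (by positivity)]
        have := Real.pi_lt_four
        linarith
      have c4 := mul_le_mul_of_nonneg_left c3 (show 0 ≤ T * ℒ by positivity)
      linarith
    have c5 : C2 * (T + κ * ℒ) ≤ C2 * T + T * ℒ / 64 := by
      have c6 : κ * ℒ ≤ ε1 * T * ℒ := mul_le_mul_of_nonneg_right hκ1 hℒ0.le
      have c7 : C2 * (κ * ℒ) ≤ C2 * (ε1 * T * ℒ) := mul_le_mul_of_nonneg_left c6 hC2.le
      have c8 : C2 * (ε1 * T * ℒ) = (C2 * ε1) * (T * ℒ) := by ring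
      have c9 : (C2 * ε1) * (T * ℒ) ≤ 1 / 64 * (T * ℒ) :=
        mul_le_mul_of_nonneg_right hε1c (by positivity)
      linarith
    have c10 : (64 * C2 + 1) * T ≤ ℒ * T := mul_le_mul_of_nonneg_right hℒC2 hT0.le
    have c11 : 0 < C2 * T := by positivity
    linarith
  have core : ∀ (D SM : ℝ), 0 < D → D ≤ CC →
      SM ≤ (∑ i ∈ PP, wF i.1 * wF i.2 / W ^ 2) * (4 * ℒ) ^ 2 * Rw γ 0 * T /
          (2 * Real.pi * (β * ℒ)) +
        (2 / (Real.sqrt Real.pi * (β * ℒ))) *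
          (∫ u in (0 : ℝ)..(β * ℒ), Rw γ (u / (β * ℒ)) * YY u) +
        D * ((∑ i ∈ PP, wF i.1 * wF i.2 / W ^ 2) *
          (ℒ ^ 2 * κ / (β * ℒ) + ℒ * T / (β * ℒ) + κ * ℒ) +
          Real.sqrt (∑ i ∈ PP, wF i.1 * wF i.2 / W ^ 2) * ℒ * T *
            (Real.sqrt (θ₂ * y1) + Real.sqrt (θ₂ * y2)) / (β * ℒ)) →
      W ^ 2 * SM ≤ (4 * Rw γ 0 / β + β * J + ε) *
        ∑ p ∈ FS X Y, ∑ p' ∈ FS X Y, wF p * wF p' * (NN (FP h1 h2 p p') T (2 * T) : ℝ) := by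
    intro D SM hD hDC hSM
    rw [hWone, Real.sqrt_one, one_mul, one_mul, one_mul] at hSM
    have h5 : SM ≤ (16 * Rw γ 0 / β + 4 * β * J + 4 * ε) * (SN / 4) := by
      refine hnum T ℒ κ (Real.sqrt (θ₂ * y1) + Real.sqrt (θ₂ * y2)) _ SM _ hT0 hℒL0 hκ0 hκ1 m5'
        m4' ?_ hNlow
      refine hSM.trans ?_
      have hb : 0 ≤ (ℒ ^ 2 * κ / (β * ℒ) + ℒ * T / (β * ℒ) + κ * ℒ) +
          ℒ * T * (Real.sqrt (θ₂ * y1) + Real.sqrt (θ₂ * y2)) / (β * ℒ) := by positivity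
      have := mul_le_mul_of_nonneg_right hDC hb
      have e : (4 * ℒ) ^ 2 * Rw γ 0 * T = ℒ ^ 2 * (16 * Rw γ 0) * T := by ring
      rw [e]
      linarith
    have h6 : (16 * Rw γ 0 / β + 4 * β * J + 4 * ε) * (SN / 4) =
        (4 * Rw γ 0 / β + β * J + ε) * SN := by ring
    rw [h6] at h5
    calc W ^ 2 * SM ≤ W ^ 2 * ((4 * Rw γ 0 / β + β * J + ε) * SN) :=
          mul_le_mul_of_nonneg_left h5 hW2.le
      _ = (4 * Rw γ 0 / β + β * J + ε) * (W ^ 2 * SN) := by ring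
      _ = _ := by rw [hSN3]
  refine ⟨?_, ?_, ?_⟩
  · rw [← hSN3]
    positivity
  · have := core C1 _ hC1 hCC1 k1
    refine le_trans (le_of_eq ?_) this
    rw [hprod, Finset.mul_sum]
    refine Finset.sum_congr rfl (fun p _ => ?_)
    rw [Finset.mul_sum]
    refine Finset.sum_congr rfl (fun p' _ => ?_)
    field_simp
  · have := core C1' _ hC1' hCC2 k2
    refine le_trans (le_of_eq ?_) this
    rw [hprod, Finset.mul_sum]
    refine Finset.sum_congr rfl (fun p _ => ?_)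
    rw [Finset.mul_sum]
    refine Finset.sum_congr rfl (fun p' _ => ?_)
    field_simp

end Pool.Agent.JZ12.PR
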