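import Pool.Agent.JZ12.PDefs

/-!
# PR-4 : zeros of a product of two functions of degree two
-/

set_option autoImplicit false

open Complex Filter Topology Set MeasureTheory
open H370 (zset mult NN Nd Ns)
open H385 (GoodD)

namespace Pool.Agent.JZ12.PR

namespace PCt

lemma F21 {A Q : ℝ} {F : ℂ → ℂ} {a : ℕ → ℂ} (hA : 1 ≤ A) (hF : GoodD 2 A Q F a) :
    F ⟨2, 1⟩ ≠ 0 := by
  have h3 := hF.lower 1 le_rfl
  have hA0 : 0 < A⁻¹ := inv_pos.2 (by linarith)
  exact norm_pos_iff.1 (hA0.trans_le h3)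

lemma order_top {A Q : ℝ} {F : ℂ → ℂ} {a : ℕ → ℂ} (hA : 1 ≤ A) (hF : GoodD 2 A Q F a) {s : ℂ}
    (hs : 0 < s.im) : analyticOrderAt F s ≠ ⊤ := by
  have hU : IsPreconnected {s : ℂ | 0 < s.im} := (convex_halfSpace_im_gt 0).isPreconnected
  have hf : AnalyticOnNhd ℂ F {s : ℂ | 0 < s.im} := fun s hs => hF.an s hs
  have hcK : (⟨2, 1⟩ : ℂ) ∈ {s : ℂ | 0 < s.im} := by
    simp only [Set.mem_ofPred_eq]; norm_num
  refine hf.analyticOrderAt_ne_top_of_isPreconnected hU hcK hs ?_
  rw [(hf _ hcK).analyticOrderAt_eq_zero.mpr (F21 hA hF)]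
  exact ENat.zero_ne_top

lemma mult_pos_iff {A Q : ℝ} {F : ℂ → ℂ} {a : ℕ → ℂ} (hA : 1 ≤ A) (hF : GoodD 2 A Q F a) {s : ℂ}
    (hs : 0 < s.im) : 0 < mult F s ↔ F s = 0 := by
  have h := order_top hA hF hs
  unfold mult
  rw [Nat.pos_iff_ne_zero, ← (hF.an s hs).analyticOrderAt_ne_zero, ← Nat.cast_analyticOrderNatAt h]
  simp

lemma mult_mul {A Q Q' : ℝ} {F G : ℂ → ℂ} {a b : ℕ → ℂ} (hA : 1 ≤ A) (hF : GoodD 2 A Q F a)
    (hG : GoodD 2 A Q' G b) {s : ℂ} (hs : 0 < s.im) :
    mult (fun s => F s * G s) s = mult F s + mult G s := by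
  unfold mult
  have e : (fun s => F s * G s) = F * G := rfl
  rw [e, analyticOrderNatAt_mul (hF.an s hs) (hG.an s hs) (order_top hA hF hs) (order_top hA hG hs)]

lemma zset_mul (F G : ℂ → ℂ) (T1 T2 : ℝ) :
    zset (fun s => F s * G s) T1 T2 = zset F T1 T2 ∪ zset G T1 T2 := by
  ext s
  simp only [zset, Set.mem_ofPred_eq, Set.mem_union, mul_eq_zero]
  tauto

lemma zfin {A Q : ℝ} {F : ℂ → ℂ} {a : ℕ → ℂ} (hA : 1 ≤ A) (hF : GoodD 2 A Q F a) (T1 T2 : ℝ)
    (h : 1 ≤ T1) : (zset F T1 T2).Finite := by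
  by_contra hinf
  have hinf : (zset F T1 T2).Infinite := hinf
  have hcomp : IsCompact (Icc (0 : ℝ) 1 ×ℂ Icc T1 T2) := isCompact_Icc.reProdIm isCompact_Icc
  have hsub : zset F T1 T2 ⊆ Icc (0 : ℝ) 1 ×ℂ Icc T1 T2 := by
    rintro s ⟨h1, h2, h3, h4, -⟩
    exact ⟨⟨h1.le, h2.le⟩, ⟨h3.le, h4⟩⟩
  obtain ⟨x, hx, hacc⟩ := hinf.exists_accPt_of_subset_isCompact hcomp hsub
  have hU : IsPreconnected {s : ℂ | 0 < s.im} := (convex_halfSpace_im_gt 0).isPreconnected
  have hxU : x ∈ {s : ℂ | 0 < s.im} := by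
    have : T1 ≤ x.im := hx.2.1
    simp only [Set.mem_ofPred_eq]; linarith
  have hfreq : ∃ᶠ z in 𝓝[≠] x, F z = 0 := by
    rw [accPt_iff_frequently_nhdsNE] at hacc
    exact hacc.mono fun z hz => hz.2.2.2.2
  have hz := AnalyticOnNhd.eqOn_zero_of_preconnected_of_frequently_eq_zero
    (f := F) (U := {s : ℂ | 0 < s.im}) (fun s hs => hF.an s hs) hU hxU hfreq
  have h2 : F ⟨2, 1⟩ = 0 := hz (by simp only [Set.mem_ofPred_eq]; norm_num)
  exact F21 hA hF h2

end PCt

open PCt in
/-- PR-4 -/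
theorem t_pcounts : StPCounts := by
  classical
  intro A Q Q' hA hQ hQ' F G a b hF hG T hT
  have hfF : (zset F T (2 * T)).Finite := zfin hA hF T _ hT
  have hfG : (zset G T (2 * T)).Finite := zfin hA hG T _ hT
  have him : ∀ {s : ℂ}, s ∈ zset F T (2 * T) ∪ zset G T (2 * T) → 0 < s.im := by
    rintro s (h | h)
    · linarith [h.2.2.1]
    · linarith [h.2.2.1]
  have hU : (zset F T (2 * T) ∪ zset G T (2 * T)).Finite := hfF.union hfG
  have hNF : NN F T (2 * T) = ∑ s ∈ hU.toFinset, mult F s := by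
    unfold NN
    rw [finsum_mem_eq_finite_toFinset_sum _ hfF]
    refine Finset.sum_subset (fun s hs => ?_) (fun s hs hs' => ?_)
    · simp only [Set.Finite.mem_toFinset] at hs ⊢
      exact Or.inl hs
    · simp only [Set.Finite.mem_toFinset] at hs hs'
      have h0 : F s ≠ 0 := by
        intro h
        apply hs'
        rcases hs with h1 | h1
        · exact h1
        · exact ⟨h1.1, h1.2.1, h1.2.2.1, h1.2.2.2.1, h⟩
      by_contra hc
      exact h0 ((mult_pos_iff hA hF (him hs)).1 (Nat.pos_of_ne_zero hc))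
  have hNG : NN G T (2 * T) = ∑ s ∈ hU.toFinset, mult G s := by
    unfold NN
    rw [finsum_mem_eq_finite_toFinset_sum _ hfG]
    refine Finset.sum_subset (fun s hs => ?_) (fun s hs hs' => ?_)
    · simp only [Set.Finite.mem_toFinset] at hs ⊢
      exact Or.inr hs
    · simp only [Set.Finite.mem_toFinset] at hs hs'
      have h0 : G s ≠ 0 := by
        intro h
        apply hs'
        rcases hs with h1 | h1
        · exact ⟨h1.1, h1.2.1, h1.2.2.1, h1.2.2.2.1, h⟩
        · exact h1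
      by_contra hc
      exact h0 ((mult_pos_iff hA hG (him hs)).1 (Nat.pos_of_ne_zero hc))
  refine ⟨hfF, hfG, ?_, ?_, ?_, ?_⟩
  · rw [hNF, hNG, ← Finset.sum_add_distrib]
    unfold NN
    rw [zset_mul, finsum_mem_eq_finite_toFinset_sum _ hU]
    refine Finset.sum_congr rfl fun s hs => ?_
    rw [Set.Finite.mem_toFinset] at hs
    exact mult_mul hA hF hG (him hs)
  · unfold Nd
    rw [zset_mul]
  · unfold Ns On
    have hsub : {s : ℂ | s ∈ zset (fun s => F s * G s) T (2 * T) ∧ s.re = 1 / 2 ∧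
        mult (fun s => F s * G s) s = 1} ⊆
        {s : ℂ | s ∈ zset F T (2 * T) ∧ s.re = 1 / 2 ∧ mult F s = 1 ∧ G s ≠ 0} ∪
        {s : ℂ | s ∈ zset G T (2 * T) ∧ s.re = 1 / 2 ∧ mult G s = 1 ∧ F s ≠ 0} := by
      rintro s ⟨h1, h2, h3⟩
      rw [zset_mul] at h1
      have i := him h1
      rw [mult_mul hA hF hG i] at h3
      rcases h1 with h1 | h1
      · have hp := (mult_pos_iff hA hF i).2 h1.2.2.2.2
        left
        refine ⟨h1, h2, by omega, fun h0 => ?_⟩
        have := (mult_pos_iff hA hG i).2 h0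
        omega
      · have hp := (mult_pos_iff hA hG i).2 h1.2.2.2.2
        right
        refine ⟨h1, h2, by omega, fun h0 => ?_⟩
        have := (mult_pos_iff hA hF i).2 h0
        omega
    refine (Set.ncard_le_ncard hsub ?_).trans (Set.ncard_union_le _ _)
    exact (hfF.subset fun s hs => hs.1).union (hfG.subset fun s hs => hs.1)
  · have hI : (zset F T (2 * T) ∩ zset G T (2 * T)).Finite := hfF.subset Set.inter_subset_left
    have hC : Cm F G T = ∑ s ∈ hU.toFinset,
        (if s ∈ zset F T (2 * T) ∩ zset G T (2 * T) then min (mult F s) (mult G s) else 0) := by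
      unfold Cm
      rw [finsum_mem_eq_finite_toFinset_sum _ hI, ← Finset.sum_filter]
      refine Finset.sum_congr ?_ fun _ _ => rfl
      ext s
      simp only [Set.Finite.mem_toFinset, Finset.mem_filter]
      constructor
      · intro h
        exact ⟨Or.inl h.1, h⟩
      · intro h
        exact h.2
    have hD : Nd (fun s => F s * G s) T (2 * T) = ∑ s ∈ hU.toFinset, 1 := by
      unfold Nd
      rw [zset_mul, Set.ncard_eq_toFinset_card _ hU, Finset.card_eq_sum_ones]
    rw [hC, hD, hNF, hNG, ← Finset.sum_add_distrib, ← Finset.sum_add_distrib]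
    refine Finset.sum_le_sum fun s hs => ?_
    rw [Set.Finite.mem_toFinset] at hs
    have i := him hs
    split_ifs with h
    · have h1 := (mult_pos_iff hA hF i).2 h.1.2.2.2.2
      have h2 := (mult_pos_iff hA hG i).2 h.2.2.2.2.2
      rcases le_total (mult F s) (mult G s) with h3 | h3
      · rw [min_eq_left h3]; omega
      · rw [min_eq_right h3]; omega
    · rcases hs with h1 | h1
      · have := (mult_pos_iff hA hF i).2 h1.2.2.2.2
        omega
      · have := (mult_pos_iff hA hG i).2 h1.2.2.2.2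
        omega

end Pool.Agent.JZ12.PR
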