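import Pool.Agent.H385R2.GoodD
import Pool.Agent.H370R2.Defs

/-!
# Project PR : pairs of two-dimensional dihedral Artin L-functions over `ℚ(i)`; light statements

Every `def St... : Prop` is the statement of one part; a proof of it is a theorem `t_... : St...` in a
file of its own.
-/

set_option autoImplicit false

open Complex Filter Topology Set MeasureTheory
open H370 (zset mult NN Nd Ns)
open H385 (GoodD)

namespace Pool.Agent.JZ12.PR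

/-- PR-1 : almost orthogonality to the constants from a sharp large sieve -/
def StAvg : Prop := ∀ {ι : Type} (s : Finset ι) (w : ι → ℝ) (S : ι → ℂ) (Δ B : ℝ),
  (∀ i ∈ s, 0 ≤ w i) → 0 ≤ B → (∑ i ∈ s, w i) ≤ Δ →
  (∀ lam : ℂ, ∑ i ∈ s, w i * ‖lam + S i‖ ^ 2 ≤ Δ * (‖lam‖ ^ 2 + B)) →
  ‖∑ i ∈ s, (w i : ℂ) * S i‖ ^ 2 ≤ (∑ i ∈ s, w i) * (Δ - ∑ i ∈ s, w i) * B

/-- PR-2 : the mean square over pairs from two such inequalities -/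
def StPairSq : Prop := ∀ {ι : Type} (s : Finset ι) (w : ι → ℝ) (S S' : ι → ℂ) (Δ B : ℝ),
  (∀ i ∈ s, 0 ≤ w i) → 0 ≤ B → (∑ i ∈ s, w i) ≤ Δ →
  (∀ lam : ℂ, ∑ i ∈ s, w i * ‖lam + S i‖ ^ 2 ≤ Δ * (‖lam‖ ^ 2 + B)) →
  (∀ lam : ℂ, ∑ i ∈ s, w i * ‖lam + S' i‖ ^ 2 ≤ Δ * (‖lam‖ ^ 2 + B)) →
  ∑ i ∈ s, ∑ j ∈ s, w i * w j * ‖S i + S' j‖ ^ 2 ≤ 2 * Δ ^ 2 * B

/-- PR-3 : product of two functions of degree two, different conductors -/
def StGoodMul : Prop := ∀ (A Q Q' : ℝ), 1 ≤ A → 1 ≤ Q → 1 ≤ Q' → ∀ (F G : ℂ → ℂ) (a b : ℕ → ℂ),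
  GoodD 2 A Q F a → GoodD 2 A Q' G b →
  GoodD 4 (2 * A ^ 2) (Real.sqrt (Q * Q')) (fun s => F s * G s) (fun n => a n + b n)

/-- PR-4 : vertical translation, degree two -/
def StGoodTr : Prop := ∀ (A w : ℝ), 1 ≤ A → 0 ≤ w → ∃ B : ℝ, 1 ≤ B ∧ ∀ (Q : ℝ) (F : ℂ → ℂ)
  (a : ℕ → ℂ), 1 ≤ Q → GoodD 2 A Q F a →
  GoodD 2 B Q (fun s => F (s + (w : ℂ) * I)) (fun n => a n * (n : ℂ) ^ (-(w : ℂ) * I))

/-- simple critical zeros of `F` which are not zeros of `G` (as `R321.RC.On`) -/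
noncomputable def On (F G : ℂ → ℂ) (T : ℝ) : ℕ :=
  {s : ℂ | s ∈ zset F T (2 * T) ∧ s.re = 1 / 2 ∧ mult F s = 1 ∧ G s ≠ 0}.ncard

/-- common zeros, counted with the smaller of the two multiplicities (as `R321.RC.Cm`) -/
noncomputable def Cm (F G : ℂ → ℂ) (T : ℝ) : ℕ :=
  ∑ᶠ s ∈ zset F T (2 * T) ∩ zset G T (2 * T), min (mult F s) (mult G s)

/-- PR-5 : zeros of a product of two functions of degree two (as `R321.RC.counts`) -/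
def StPCounts : Prop := ∀ (A Q Q' : ℝ), 1 ≤ A → 1 ≤ Q → 1 ≤ Q' → ∀ (F G : ℂ → ℂ) (a b : ℕ → ℂ),
  GoodD 2 A Q F a → GoodD 2 A Q' G b → ∀ T : ℝ, 1 ≤ T →
  (zset F T (2 * T)).Finite ∧ (zset G T (2 * T)).Finite ∧
  NN (fun s => F s * G s) T (2 * T) = NN F T (2 * T) + NN G T (2 * T) ∧
  Nd (fun s => F s * G s) T (2 * T) = (zset F T (2 * T) ∪ zset G T (2 * T)).ncard ∧
  Ns (fun s => F s * G s) T (2 * T) ≤ On F G T + On G F T ∧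
  Cm F G T + Nd (fun s => F s * G s) T (2 * T) ≤ NN F T (2 * T) + NN G T (2 * T)

end Pool.Agent.JZ12.PR
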