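import Pool.Agent.JZ12.PDefs

/-!
# The product of two L-functions of degree two

If `F` and `G` satisfy the analytic conditions `GoodD 2` then `F G` satisfies `GoodD 4` with the conductor
`√(Q Q')`.
-/

set_option autoImplicit false

open Complex Filter Topology Set MeasureTheory

set_option maxHeartbeats 4000000

namespace Pool.Agent.JZ12.PR

open H385

/-- the Dirichlet series of a sequence bounded by `2 Λ` converges absolutely for `Re s > 1` -/
lemma summ_of_le2 {a : ℕ → ℂ} (ha : ∀ n, ‖a n‖ ≤ 2 * ArithmeticFunction.vonMangoldt n) {s : ℂ}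
    (hs : 1 < s.re) : Summable (fun n : ℕ => a n * (n : ℂ) ^ (-s)) := by
  have h1 : LSeriesSummable (fun n => (ArithmeticFunction.vonMangoldt n : ℂ)) s :=
    ArithmeticFunction.LSeriesSummable_vonMangoldt hs
  refine Summable.of_norm_bounded (h1.norm.mul_left 2) fun n => ?_
  rcases Nat.eq_zero_or_pos n with hn | hn
  · subst hn
    have h2 := ha 0
    rw [ArithmeticFunction.map_zero, mul_zero] at h2
    have h3 : a 0 = 0 := norm_le_zero_iff.1 h2
    rw [h3]
    simp
  · rw [LSeries.term_of_ne_zero hn.ne', norm_mul, norm_div, Complex.cpow_neg, norm_inv,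
      div_eq_mul_inv, ← mul_assoc]
    refine mul_le_mul_of_nonneg_right ?_ (by positivity)
    refine (ha n).trans (le_of_eq ?_)
    rw [Complex.norm_real, Real.norm_of_nonneg ArithmeticFunction.vonMangoldt_nonneg]

theorem t_goodmul : StGoodMul := by
  intro A Q Q' hA hQ hQ' F G a b hF hG
  have hQQ : 1 ≤ Q * Q' := by nlinarith
  have hA2 : 2 * A ≤ 2 * A ^ 2 := by nlinarith
  have hfun : (fun s => F s * G s) = F * G := rfl
  have hld : ∀ s : ℂ, 0 < s.im → F s ≠ 0 → G s ≠ 0 →
      deriv (fun s => F s * G s) s / (F s * G s) = deriv F s / F s + deriv G s / G s := by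
    intro s hs h1 h2
    have e : deriv (fun s => F s * G s) s = deriv F s * G s + F s * deriv G s :=
      deriv_fun_mul (hF.an s hs).differentiableAt (hG.an s hs).differentiableAt
    rw [e]
    field_simp
  refine ⟨?_, ?_, ?_, ?_, ?_, ?_, ?_, ?_, ?_⟩
  · intro s hs
    exact (hF.an s hs).mul (hG.an s hs)
  · intro s h1 h2 h3
    have i0 : 0 < s.im := by linarith
    rw [norm_mul]
    have b1 := hF.growth s h1 h2 h3
    have b2 := hG.growth s h1 h2 h3
    have c1 : 0 ≤ Q * s.im := by positivity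
    have c2 : 0 ≤ Q' * s.im := by positivity
    have e1 : (A * (Q * s.im) ^ A) * (A * (Q' * s.im) ^ A) =
        A ^ 2 * (Real.sqrt (Q * Q') * s.im) ^ (2 * A) := by
      have e2 : (Real.sqrt (Q * Q') * s.im) ^ (2 * A) = ((Q * s.im) * (Q' * s.im)) ^ A := by
        rw [Real.rpow_mul (by positivity), Real.rpow_two, mul_pow, Real.sq_sqrt (by positivity)]
        congr 1
        ring
      rw [e2, Real.mul_rpow c1 c2]
      ring
    have c3 : 1 ≤ Real.sqrt (Q * Q') * s.im := by
      have : 1 ≤ Real.sqrt (Q * Q') := Real.one_le_sqrt.2 hQQ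
      nlinarith
    calc ‖F s‖ * ‖G s‖ ≤ (A * (Q * s.im) ^ A) * (A * (Q' * s.im) ^ A) :=
          mul_le_mul b1 b2 (norm_nonneg _) (by positivity)
      _ = A ^ 2 * (Real.sqrt (Q * Q') * s.im) ^ (2 * A) := e1
      _ ≤ (2 * A ^ 2) * (Real.sqrt (Q * Q') * s.im) ^ (2 * A ^ 2) := by
          refine mul_le_mul (by nlinarith) ?_ (by positivity) (by positivity)
          exact Real.rpow_le_rpow_of_exponent_le c3 hA2
  · intro t ht
    have b1 := hF.lower t ht
    have b2 := hG.lower t ht
    have hA0 : 0 < A := by linarith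
    calc (2 * A ^ 2)⁻¹ ≤ (A ^ 2)⁻¹ := by
          apply inv_anti₀ (by positivity)
          nlinarith
      _ = A⁻¹ * A⁻¹ := by
          rw [← mul_inv, sq]
      _ ≤ ‖F (⟨2, t⟩ : ℂ)‖ * ‖G (⟨2, t⟩ : ℂ)‖ := mul_le_mul b1 b2 (by positivity) (norm_nonneg _)
      _ = ‖F (⟨2, t⟩ : ℂ) * G (⟨2, t⟩ : ℂ)‖ := (norm_mul _ _).symm
  · intro s h1 h2
    exact mul_ne_zero (hF.nzr s h1 h2) (hG.nzr s h1 h2)
  · intro s h1 h2
    exact mul_ne_zero (hF.nzl s h1 h2) (hG.nzl s h1 h2)
  · intro s h1 h2 h3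
    have i1 : 0 < (1 - (starRingEnd ℂ) s).im := by
      simp only [sub_im, one_im, conj_im]
      linarith
    have i2 : 0 < s.im := by linarith
    rw [hfun, analyticOrderAt_mul (hF.an _ i1) (hG.an _ i1),
      analyticOrderAt_mul (hF.an _ i2) (hG.an _ i2), hF.symm s h1 h2 h3, hG.symm s h1 h2 h3]
  · intro n
    have b1 := hF.ha n
    have b2 := hG.ha n
    calc ‖a n + b n‖ ≤ ‖a n‖ + ‖b n‖ := norm_add_le _ _
      _ ≤ 4 * ArithmeticFunction.vonMangoldt n := by linarith
  · intro s h1 h2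
    have i2 : 0 < s.im := by linarith
    rw [hld s i2 (hF.nzr s h1.le h2) (hG.nzr s h1.le h2), hF.ld s h1 h2, hG.ld s h1 h2]
    have e : ∀ n : ℕ, (a n + b n) * (n : ℂ) ^ (-s) = a n * (n : ℂ) ^ (-s) + b n * (n : ℂ) ^ (-s) :=
      fun n => add_mul _ _ _
    simp_rw [e]
    rw [(summ_of_le2 hF.ha h1).tsum_add (summ_of_le2 hG.ha h1)]
    ring
  · intro s h1 h2 h3 h4
    have i2 : 0 < s.im := by linarith
    have f0 : F s ≠ 0 := left_ne_zero_of_mul h4
    have g0 : G s ≠ 0 := right_ne_zero_of_mul h4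
    have i1 : 1 ≤ (1 - (starRingEnd ℂ) s).im := by
      simp only [sub_im, one_im, conj_im]
      linarith
    have key : ∀ {B P : ℝ} {H : ℂ → ℂ} {c : ℕ → ℂ}, GoodD 2 B P H c → H s ≠ 0 →
        H (1 - (starRingEnd ℂ) s) ≠ 0 := by
      intro B P H c hH h0
      rcases le_or_gt s.re 0 with hr | hr
      · apply hH.nzr _ _ i1
        simp only [sub_re, one_re, conj_re]
        linarith
      · have hre : s.re < 1 := by linarith
        have := hH.symm s hr hre h3
        intro hz
        have z1 : analyticOrderAt H (1 - (starRingEnd ℂ) s) ≠ 0 := by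
          rw [Ne, (hH.an _ (by linarith)).analyticOrderAt_eq_zero]
          simpa using hz
        have z2 : analyticOrderAt H s = 0 := (hH.an _ i2).analyticOrderAt_eq_zero.2 h0
        exact z1 (this.trans z2)
    have f1 := key hF f0
    have g1 := key hG g0
    rw [hld s i2 f0 g0, hld _ (by linarith) f1 g1, map_add]
    have b1 := hF.left s h1 h2 h3 f0
    have b2 := hG.left s h1 h2 h3 g0
    have e1 : ((4 * Real.log (Real.sqrt (Q * Q') * s.im) : ℝ) : ℂ) =
        ((2 * Real.log (Q * s.im) : ℝ) : ℂ) + ((2 * Real.log (Q' * s.im) : ℝ) : ℂ) := by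
      rw [← Complex.ofReal_add]
      congr 1
      have hQ0 : 0 < Q := by linarith
      have hQ0' : 0 < Q' := by linarith
      rw [Real.log_mul (by positivity) i2.ne', Real.log_sqrt (by positivity),
        Real.log_mul hQ0.ne' hQ0'.ne', Real.log_mul hQ0.ne' i2.ne', Real.log_mul hQ0'.ne' i2.ne']
      ring
    rw [e1]
    calc _ = ‖(deriv F s / F s + ((2 * Real.log (Q * s.im) : ℝ) : ℂ) +
          (starRingEnd ℂ) (deriv F (1 - (starRingEnd ℂ) s) / F (1 - (starRingEnd ℂ) s))) +
          (deriv G s / G s + ((2 * Real.log (Q' * s.im) : ℝ) : ℂ) +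
          (starRingEnd ℂ) (deriv G (1 - (starRingEnd ℂ) s) / G (1 - (starRingEnd ℂ) s)))‖ := by
          congr 1
          ring
      _ ≤ A + A := (norm_add_le _ _).trans (add_le_add b1 b2)
      _ ≤ 2 * A ^ 2 := by nlinarith

end Pool.Agent.JZ12.PR
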