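import Pool.Agent.JZ12.PDefs
import Pool.Agent.H82R3.AR.FamC

/-!
# Project PR : pairs of two-dimensional dihedral Artin L-functions over `ℚ(i)`; heavy statements

Every `def St... : Prop` is the statement of one part; a proof of it is a theorem `t_... : St...` in a
file of its own.
-/

set_option autoImplicit false

open Complex Filter Topology Set MeasureTheory
open H370 (zset mult NN Nd Ns)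

namespace Pool.Agent.JZ12.PR

open Pool.Agent.H304R3.HK (tc UH CS bb LamK Rep)
open Pool.Agent.H82R3.AR
open H385 hiding wZ prim_exists PFs FS Wm hg6e_m hg6e_P hg6e_mem_P hg6e_card_P hg6e_key hg6e_fin hg6e_Wm hg6e_m_le hg6e_assoc hg6e_inner hg6e_regroup Wm_lower hc_of_prim hg8a_PFs hg8a_sum fs_mem fs_mass fs_le he_pt he_int he_core hg_point hg_sq hg8c_Wm_nonneg Wm_inf hg_ls HG8d_pt hg_int HG8d_wZ_cop hg_core hg_final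

/-- PR-6 : pointwise bound, with a unimodular factor and a constant added -/
def StPt : Prop := ∀ (e : ℕ → ℂ), (∀ n, ‖e n‖ ≤ 1) → ∀ (δ : ℝ), 0 < δ → ∀ (P : ZI) (X Y N : ℕ),
  1 ≤ X → ∀ (Δ : ℝ), Wm X Y ≤ Δ →
  (∀ b : ZI → ℂ, (∀ n, ¬ IsCoprime n P → b n = 0) →
    ∑ p ∈ FS X Y, wF p * ‖SC (BX N) b p.1 p.2‖ ^ 2 ≤ 4 * Δ * ∑ n ∈ BX N, ‖b n‖ ^ 2) →
  ∀ (T u t : ℝ), 0 ≤ T → Tl N u ≤ 1 → ∀ lam : ℂ,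
  ∑ p ∈ FS X Y, wF p * ‖lam + ∑' n : ℕ, aH (chiZ p.1 p.2) n * (e n * bn T u t n)‖ ^ 2 ≤
    (1 + δ) * Δ * (‖lam‖ ^ 2 + ((∑ n ∈ Finset.Icc 1 N, lamK2 n * ‖bn T u t n‖ ^ 2) +
      (1 / δ) * (wt T t ^ 2 * (4 * (Gq (nrm P) u + 1) ^ 2))))

/-- PR-7 : mean square over pairs -/
def StInt2 : Prop := ∃ C : ℝ, 0 < C ∧ ∀ (e1 e2 : ℕ → ℂ), (∀ n, ‖e1 n‖ ≤ 1) → (∀ n, ‖e2 n‖ ≤ 1) →
  ∀ (δ : ℝ) (P : ZI) (X Y N : ℕ) (Δ T κ u : ℝ), 0 < δ →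
    1 ≤ X → Wm X Y ≤ Δ →
    (∀ b : ZI → ℂ, (∀ n, ¬ IsCoprime n P → b n = 0) →
      ∑ p ∈ FS X Y, wF p * ‖SC (BX N) b p.1 p.2‖ ^ 2 ≤ 4 * Δ * ∑ n ∈ BX N, ‖b n‖ ^ 2) →
    1 ≤ κ → 1 ≤ T → T ≤ Real.exp (κ ^ 2) → 0 ≤ u → Tl N u ≤ 1 →
    ∫ t : ℝ, ∑ p ∈ FS X Y, ∑ p' ∈ FS X Y, wF p * wF p' *
      ‖∑' n : ℕ, (aH (chiZ p.1 p.2) n * e1 n + aH (chiZ p'.1 p'.2) n * e2 n) *
        ((Real.sqrt n : ℂ)⁻¹ * bt T u t (Real.log n))‖ ^ 2 ≤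
      2 * (1 + δ) * Δ ^ 2 * YH cK δ C (nrm P) T κ u

/-- the product of the L-functions of `p` and `p'`, translated by `h1` and `h2` -/
noncomputable def FP (h1 h2 : ℝ) (p p' : Σ q : ZI, MulChar (RQ q) ℂ) (s : ℂ) : ℂ :=
  LH (chiZ p.1 p.2) (s + (h1 : ℂ) * I) * LH (chiZ p'.1 p'.2) (s + (h2 : ℂ) * I)

/-- PR-8 : the core estimate for pairs -/
def StPCore : Prop := ∀ (h1 h2 : ℝ), 0 ≤ h1 → 0 ≤ h2 → ∀ (γ β ε : ℝ), 0 < γ → γ < Real.pi →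
  0 < β → β < 4 → 0 < ε →
  ∃ C0 K0 η : ℝ, 1 ≤ C0 ∧ 1 ≤ K0 ∧ 0 < η ∧ ∀ (X Y : ℕ) (T : ℝ), 1 ≤ X →
      K0 * X ≤ Y → (Y : ℝ) ≤ (X : ℝ) ^ (1 + η) →
      C0 * (1 + Real.sqrt (Real.log X)) ≤ T → T ≤ (X : ℝ) ^ η →
      0 < ∑ p ∈ FS X Y, ∑ p' ∈ FS X Y, wF p * wF p' * (NN (FP h1 h2 p p') T (2 * T) : ℝ) ∧
      (∑ p ∈ FS X Y, ∑ p' ∈ FS X Y, wF p * wF p' * (2 * (NN (FP h1 h2 p p') T (2 * T) : ℝ) -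
          (Ns (FP h1 h2 p p') T (2 * T) : ℝ)) ≤
        (4 * Rw γ 0 / β + β * (∫ α in (0 : ℝ)..1, α * Rw γ α) + ε) *
        ∑ p ∈ FS X Y, ∑ p' ∈ FS X Y, wF p * wF p' * (NN (FP h1 h2 p p') T (2 * T) : ℝ)) ∧
      (∑ p ∈ FS X Y, ∑ p' ∈ FS X Y, wF p * wF p' * (3 * (NN (FP h1 h2 p p') T (2 * T) : ℝ) -
          2 * (Nd (FP h1 h2 p p') T (2 * T) : ℝ)) ≤
        (4 * Rw γ 0 / β + β * (∫ α in (0 : ℝ)..1, α * Rw γ α) + ε) *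
        ∑ p ∈ FS X Y, ∑ p' ∈ FS X Y, wF p * wF p' * (NN (FP h1 h2 p p') T (2 * T) : ℝ))

/-- PR-9 : with the constants -/
def StPFinal : Prop := ∀ (h1 h2 : ℝ), 0 ≤ h1 → 0 ≤ h2 →
  ∃ C0 K0 η : ℝ, 1 ≤ C0 ∧ 1 ≤ K0 ∧ 0 < η ∧ ∀ (X Y : ℕ) (T : ℝ), 1 ≤ X →
      K0 * X ≤ Y → (Y : ℝ) ≤ (X : ℝ) ^ (1 + η) →
      C0 * (1 + Real.sqrt (Real.log X)) ≤ T → T ≤ (X : ℝ) ^ η →
      0 < ∑ p ∈ FS X Y, ∑ p' ∈ FS X Y, wF p * wF p' * (NN (FP h1 h2 p p') T (2 * T) : ℝ) ∧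
      0.3579 * ∑ p ∈ FS X Y, ∑ p' ∈ FS X Y, wF p * wF p' * (NN (FP h1 h2 p p') T (2 * T) : ℝ) ≤
        ∑ p ∈ FS X Y, ∑ p' ∈ FS X Y, wF p * wF p' * (Ns (FP h1 h2 p p') T (2 * T) : ℝ) ∧
      0.6789 * ∑ p ∈ FS X Y, ∑ p' ∈ FS X Y, wF p * wF p' * (NN (FP h1 h2 p p') T (2 * T) : ℝ) ≤
        ∑ p ∈ FS X Y, ∑ p' ∈ FS X Y, wF p * wF p' * (Nd (FP h1 h2 p p') T (2 * T) : ℝ)

end Pool.Agent.JZ12.PR
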