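import Pool.Agent.JZ12.PDefs
import Pool.Agent.JZ12.Tr

/-! # PR-3 (helper99): vertical translation of a function of the class `GoodD 2` -/

set_option autoImplicit false

open Complex Filter Topology Set MeasureTheory
open ArithmeticFunction (vonMangoldt)
open H385 (GoodD)

namespace Pool.Agent.JZ12.PR

open Pool.Agent.JZ12.Tr

theorem t_goodtr : StGoodTr := by
  intro A w hA hw
  refine ⟨A * (1 + 2 * w) ^ A + A + 2 * w + 1, ?_, ?_⟩
  · have h4 : 0 ≤ A * (1 + 2 * w) ^ A := mul_nonneg (by linarith) (Real.rpow_nonneg (by linarith) _)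
    linarith
  intro Q F a hQ hF
  set B : ℝ := A * (1 + 2 * w) ^ A + A + 2 * w + 1 with hB
  have h4 : 0 ≤ A * (1 + 2 * w) ^ A := mul_nonneg (by linarith) (Real.rpow_nonneg (by linarith) _)
  have hAB : A ≤ B := by linarith
  have hAwB : A + 2 * w ≤ B := by linarith
  have him : ∀ s : ℂ, (s + (w : ℂ) * I).im = s.im + w := fun s => by simp
  have hre : ∀ s : ℂ, (s + (w : ℂ) * I).re = s.re := fun s => by simp
  have hconj : ∀ s : ℂ, 1 - (starRingEnd ℂ) s + (w : ℂ) * I =
      1 - (starRingEnd ℂ) (s + (w : ℂ) * I) := by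
    intro s
    rw [map_add, map_mul, conj_I, conj_ofReal]
    ring
  have hder : ∀ s : ℂ, deriv (fun s => F (s + (w : ℂ) * I)) s = deriv F (s + (w : ℂ) * I) :=
    fun s => deriv_comp_add_const F _ s
  have ha0 : a 0 = 0 := by
    have h5 := hF.ha 0
    rw [ArithmeticFunction.map_zero, mul_zero] at h5
    exact norm_le_zero_iff.1 h5
  refine ⟨?_, ?_, ?_, ?_, ?_, ?_, ?_, ?_, ?_⟩
  · intro s hs
    have h1 : AnalyticAt ℂ F (s + (w : ℂ) * I) := hF.an _ (by rw [him]; linarith)
    have h2 : AnalyticAt ℂ (fun z : ℂ => z + (w : ℂ) * I) s :=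
      analyticAt_id.add analyticAt_const
    exact AnalyticAt.comp_of_eq h1 h2 rfl
  · intro s h1 h2 h3
    have h5 := hF.growth (s + (w : ℂ) * I) (by rw [hre]; exact h1) (by rw [hre]; exact h2)
      (by rw [him]; linarith)
    rw [him] at h5
    refine growth_aux hA (by linarith : (0 : ℝ) ≤ 2 * w) hQ h3 (h5.trans ?_) hB
    refine mul_le_mul_of_nonneg_left ?_ (by linarith)
    apply Real.rpow_le_rpow
    · exact mul_nonneg (by linarith) (by linarith)
    · exact mul_le_mul_of_nonneg_left (by linarith) (by linarith)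
    · linarith
  · intro t ht
    have h5 := hF.lower (t + w) (by linarith)
    have h6 : (⟨2, t⟩ : ℂ) + (w : ℂ) * I = ⟨2, t + w⟩ := by
      apply Complex.ext <;> simp
    show B⁻¹ ≤ ‖F ((⟨2, t⟩ : ℂ) + (w : ℂ) * I)‖
    rw [h6]
    exact (inv_anti₀ (by linarith) hAB).trans h5
  · intro s h1 h2
    exact hF.nzr _ (by rw [hre]; exact h1) (by rw [him]; linarith)
  · intro s h1 h2
    exact hF.nzl _ (by rw [hre]; exact h1) (by rw [him]; linarith)
  · intro s h1 h2 h3
    rw [order_shift, order_shift, hconj]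
    exact hF.symm _ (by rw [hre]; exact h1) (by rw [hre]; exact h2) (by rw [him]; linarith)
  · intro n
    rcases Nat.eq_zero_or_pos n with rfl | hn
    · rw [ha0, zero_mul, norm_zero, ArithmeticFunction.map_zero, mul_zero]
    · rw [norm_mul, Complex.norm_natCast_cpow_of_pos hn]
      have h6 : (-(w : ℂ) * I).re = 0 := by simp
      rw [h6, Real.rpow_zero, mul_one]
      exact hF.ha n
  · intro s h1 h2
    rw [hder]
    have h5 := hF.ld (s + (w : ℂ) * I) (by rw [hre]; exact h1) (by rw [him]; linarith)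
    show deriv F (s + (w : ℂ) * I) / F (s + (w : ℂ) * I) = _
    rw [h5]
    congr 1
    apply tsum_congr
    intro n
    rcases Nat.eq_zero_or_pos n with rfl | hn
    · rw [ha0, zero_mul, zero_mul, zero_mul]
    · have hn0 : (n : ℂ) ≠ 0 := Nat.cast_ne_zero.2 hn.ne'
      rw [mul_assoc, ← Complex.cpow_add _ _ hn0]
      congr 2
      ring
  · intro s h1 h2 h3 h7
    rw [hder, hder]
    have h5 := hF.left (s + (w : ℂ) * I) (by rw [hre]; exact h1) (by rw [hre]; exact h2)
      (by rw [him]; linarith) h7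
    rw [him] at h5
    show ‖deriv F (s + (w : ℂ) * I) / F (s + (w : ℂ) * I) + ((2 * Real.log (Q * s.im) : ℝ) : ℂ) +
      (starRingEnd ℂ) (deriv F (1 - (starRingEnd ℂ) s + (w : ℂ) * I) /
        F (1 - (starRingEnd ℂ) s + (w : ℂ) * I))‖ ≤ B
    rw [hconj]
    have e : deriv F (s + (w : ℂ) * I) / F (s + (w : ℂ) * I) + ((2 * Real.log (Q * s.im) : ℝ) : ℂ) +
      (starRingEnd ℂ) (deriv F (1 - (starRingEnd ℂ) (s + (w : ℂ) * I)) /
        F (1 - (starRingEnd ℂ) (s + (w : ℂ) * I))) =
      (deriv F (s + (w : ℂ) * I) / F (s + (w : ℂ) * I) + ((2 * Real.log (Q * (s.im + w)) : ℝ) : ℂ) +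
      (starRingEnd ℂ) (deriv F (1 - (starRingEnd ℂ) (s + (w : ℂ) * I)) /
        F (1 - (starRingEnd ℂ) (s + (w : ℂ) * I)))) +
        ((2 * (Real.log (Q * s.im) - Real.log (Q * (s.im + w))) : ℝ) : ℂ) := by
      push_cast
      ring
    rw [e]
    refine (norm_add_le _ _).trans ((add_le_add h5 ?_).trans hAwB)
    rw [Complex.norm_real, Real.norm_eq_abs, abs_mul, abs_of_pos (by norm_num : (0 : ℝ) < 2)]
    have := log_aux hw hQ h3
    linarith

end Pool.Agent.JZ12.PR
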