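import Pool.Agent.JZ12.Defs
import Pool.Agent.R321.RC7
import Pool.Agent.R321.RG3
import Pool.Agent.R321.RD5

/-!
# JZ : two L-functions (assembly)
-/

set_option autoImplicit false

open Complex Filter Topology Set MeasureTheory
open H370 (zset mult NN Nd Ns GoodL)
open H385 (primFamM Rw HYM pm GoodU primFamM_lin primFamM_eq mem_primSetM)
open W388 (GoodE TwE SelE)
open Pool.Agent.R321.RC (On Cm counts)
open Pool.Agent.R321.RD (Al once)

namespace Pool.Agent.JZ12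

lemma fam_mono (M X Y : ℕ) (f g : (q : ℕ) → DirichletCharacter ℂ q → ℝ)
    (h : ∀ q : ℕ, X < q → q ≤ Y → Nat.Coprime q M → ∀ χ : DirichletCharacter ℂ q, χ.IsPrimitive →
      f q χ ≤ g q χ) : primFamM M X Y f ≤ primFamM M X Y g := by
  rw [primFamM_eq, primFamM_eq]
  refine Finset.sum_le_sum fun p hp => ?_
  obtain ⟨h1, h2, h4, h3⟩ := (mem_primSetM M X Y p).mp hp
  exact mul_le_mul_of_nonneg_left (h p.1 h1 h2 h4 p.2 h3) (by positivity)

lemma fam_congr (M X Y : ℕ) (f g : (q : ℕ) → DirichletCharacter ℂ q → ℝ)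
    (h : ∀ q : ℕ, X < q → q ≤ Y → Nat.Coprime q M → ∀ χ : DirichletCharacter ℂ q, χ.IsPrimitive →
      f q χ = g q χ) : primFamM M X Y f = primFamM M X Y g :=
  le_antisymm (fam_mono M X Y f g fun q a b c χ d => (h q a b c χ d).le)
    (fam_mono M X Y g f fun q a b c χ d => (h q a b c χ d).ge)

lemma fam_add (M X Y : ℕ) (f g : (q : ℕ) → DirichletCharacter ℂ q → ℝ) :
    primFamM M X Y (fun q χ => f q χ + g q χ) = primFamM M X Y f + primFamM M X Y g := by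
  have h := primFamM_lin M X Y 1 (-1) f g
  have e : (fun (q : ℕ) (χ : DirichletCharacter ℂ q) => 1 * f q χ - -1 * g q χ) =
      (fun q χ => f q χ + g q χ) := by
    funext q χ
    ring
  rw [e] at h
  rw [h]
  ring

lemma fam_mul (M X Y : ℕ) (a : ℝ) (f : (q : ℕ) → DirichletCharacter ℂ q → ℝ) :
    primFamM M X Y (fun q χ => a * f q χ) = a * primFamM M X Y f := by
  have h := primFamM_lin M X Y a 0 f f
  simp only [zero_mul, sub_zero] at h
  exact h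

theorem pairs (hm : StMain) (htw : StTw) (D : Dat 2) (M : ℕ) (hM : M ≠ 0)
    (hN : ∀ j, D.N j ∣ M) : ∃ K η X0 : ℝ, 1 ≤ K ∧ 0 < η ∧ 1 ≤ X0 ∧
    ∀ (X Y : ℕ) (T : ℝ), X0 ≤ X → K * X ≤ Y → (Y : ℝ) ≤ (X : ℝ) ^ (1 + η) →
      (Real.log X) ^ 2 ≤ T → T ≤ (X : ℝ) ^ η →
      0 < primFamM M X Y (fun q χ => ((NN (D.L 0 q χ) T (2 * T) +
        NN (D.L 1 q χ) T (2 * T) : ℕ) : ℝ)) ∧
      (∀ q : ℕ, X < q → Nat.Coprime q M → ∀ χ : DirichletCharacter ℂ q, χ.IsPrimitive →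
        (zset (D.L 0 q χ) T (2 * T)).Finite ∧ (zset (D.L 1 q χ) T (2 * T)).Finite) ∧
      0.3579 * primFamM M X Y (fun q χ => ((NN (D.L 0 q χ) T (2 * T) +
        NN (D.L 1 q χ) T (2 * T) : ℕ) : ℝ)) ≤
        primFamM M X Y (fun q χ => ((On (D.L 0 q χ) (D.L 1 q χ) T +
          On (D.L 1 q χ) (D.L 0 q χ) T : ℕ) : ℝ)) ∧
      0.0368 * primFamM M X Y (fun q χ => ((NN (D.L 0 q χ) T (2 * T) +
        NN (D.L 1 q χ) T (2 * T) : ℕ) : ℝ)) ≤
        primFamM M X Y (fun q χ => ((Al (D.L 0 q χ) (D.L 1 q χ) T +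
          Al (D.L 1 q χ) (D.L 0 q χ) T : ℕ) : ℝ)) ∧
      0.6789 * primFamM M X Y (fun q χ => ((NN (D.L 0 q χ) T (2 * T) +
        NN (D.L 1 q χ) T (2 * T) : ℕ) : ℝ)) ≤
        primFamM M X Y (fun q χ => ((zset (D.L 0 q χ) T (2 * T) ∪
          zset (D.L 1 q χ) T (2 * T)).ncard : ℝ)) ∧
      primFamM M X Y (fun q χ => (Cm (D.L 0 q χ) (D.L 1 q χ) T : ℝ)) ≤
        0.3211 * primFamM M X Y (fun q χ => ((NN (D.L 0 q χ) T (2 * T) +
        NN (D.L 1 q χ) T (2 * T) : ℕ) : ℝ)) := by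
  obtain ⟨K, η, X0, hK, hη, hX0, h⟩ := hm 2 D M (by norm_num) hM hN 2 1.6421 (by norm_num)
    (by linarith [Real.pi_gt_three]) (by
      have := Pool.Agent.R321.RG.Rw_const_lt
      norm_num at this ⊢
      exact this)
  have hgood := (htw 2 D (by norm_num)).1
  refine ⟨K, η, X0, hK, hη, hX0, ?_⟩
  intro X Y T hX hKX hY hT1 hT2
  obtain ⟨hT0, hX2, b0, b1, b2, -⟩ := h X Y T hX hKX hY hT1 hT2
  have hgl : ∀ q : ℕ, X < q → Nat.Coprime q M → ∀ χ : DirichletCharacter ℂ q, χ.IsPrimitive →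
      ∀ j, GoodL (D.L j q χ) := by
    intro q hq hc χ hχ j
    exact hgood q χ j (by omega) (Nat.Coprime.coprime_dvd_right (hN j) hc) hχ
  have hF : ∀ (q : ℕ) (χ : DirichletCharacter ℂ q), D.F q χ =
      fun s => D.L 0 q χ s * D.L 1 q χ s := by
    intro q χ
    funext s
    unfold Dat.F
    rw [Fin.prod_univ_two]
  have hcnt : ∀ q : ℕ, X < q → q ≤ Y → Nat.Coprime q M → ∀ χ : DirichletCharacter ℂ q,
      χ.IsPrimitive → _ := fun q hq _ hc χ hχ =>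
    counts (hgl q hq hc χ hχ 0) (hgl q hq hc χ hχ 1) hT0
  have hNN : primFamM M X Y (fun q χ => (NN (D.F q χ) T (2 * T) : ℝ)) =
      primFamM M X Y (fun q χ => ((NN (D.L 0 q χ) T (2 * T) +
        NN (D.L 1 q χ) T (2 * T) : ℕ) : ℝ)) := by
    refine fam_congr M X Y _ _ fun q hq hq2 hc χ hχ => ?_
    have := (hcnt q hq hq2 hc χ hχ).1
    rw [hF, this]
  have hNs : primFamM M X Y (fun q χ => (Ns (D.F q χ) T (2 * T) : ℝ)) ≤
      primFamM M X Y (fun q χ => ((On (D.L 0 q χ) (D.L 1 q χ) T +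
          On (D.L 1 q χ) (D.L 0 q χ) T : ℕ) : ℝ)) := by
    refine fam_mono M X Y _ _ fun q hq hq2 hc χ hχ => ?_
    have := (hcnt q hq hq2 hc χ hχ).2.2.1
    rw [hF]
    exact_mod_cast this
  have hNd : primFamM M X Y (fun q χ => (Nd (D.F q χ) T (2 * T) : ℝ)) =
      primFamM M X Y (fun q χ => ((zset (D.L 0 q χ) T (2 * T) ∪
          zset (D.L 1 q χ) T (2 * T)).ncard : ℝ)) := by
    refine fam_congr M X Y _ _ fun q hq hq2 hc χ hχ => ?_
    have := (hcnt q hq hq2 hc χ hχ).2.1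
    rw [hF, this]
  have hCm : primFamM M X Y (fun q χ => (Cm (D.L 0 q χ) (D.L 1 q χ) T : ℝ)) +
      primFamM M X Y (fun q χ => (Nd (D.F q χ) T (2 * T) : ℝ)) ≤
      primFamM M X Y (fun q χ => ((NN (D.L 0 q χ) T (2 * T) +
        NN (D.L 1 q χ) T (2 * T) : ℕ) : ℝ)) := by
    rw [← fam_add]
    refine fam_mono M X Y _ _ fun q hq hq2 hc χ hχ => ?_
    have := (hcnt q hq hq2 hc χ hχ).2.2.2
    rw [hF]
    exact_mod_cast this
  have hAl : 3 * primFamM M X Y (fun q χ => (Ns (D.F q χ) T (2 * T) : ℝ)) ≤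
      primFamM M X Y (fun q χ => (NN (D.F q χ) T (2 * T) : ℝ)) +
      2 * primFamM M X Y (fun q χ => ((Al (D.L 0 q χ) (D.L 1 q χ) T +
          Al (D.L 1 q χ) (D.L 0 q χ) T : ℕ) : ℝ)) := by
    rw [← fam_mul, ← fam_mul, ← fam_add]
    refine fam_mono M X Y _ _ fun q hq hq2 hc χ hχ => ?_
    have := once (hgl q hq hc χ hχ 0) (hgl q hq hc χ hχ 1) hT0
    rw [hF]
    exact_mod_cast this
  rw [hNN] at b0 b1 b2 hAl
  rw [hNd] at b2 hCm
  refine ⟨b0, fun q hq hc χ hχ => ⟨H370.zset_finite (hgl q hq hc χ hχ 0) T _ hT0,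
    H370.zset_finite (hgl q hq hc χ hχ 1) T _ hT0⟩, ?_, ?_, ?_, ?_⟩
  · refine le_trans (le_of_eq ?_) (b1.trans hNs)
    congr 1
    norm_num
  · have e : (2 - 1.6421 : ℝ) = 0.3579 := by norm_num
    rw [e] at b1
    linarith
  · refine le_trans ?_ b2
    exact mul_le_mul_of_nonneg_right (by norm_num) b0.le
  · have e : (3 - 1.6421 : ℝ) / 2 = 0.67895 := by norm_num
    rw [e] at b2
    linarith

end Pool.Agent.JZ12
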