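import Pool.Agent.JZ12.Defs
import Pool.Agent.H370R2.Defs
import Pool.Agent.H385R2.FinDA0

/-!
# JZ : unions of the zeros of `r` L-functions (assembly)
-/

set_option autoImplicit false

open Complex Filter Topology Set MeasureTheory
open H370 (zset mult NN Nd Ns GoodL)
open H385 (primFamM Rw HYM pm GoodU primFamM_lin primFamM_eq mem_primSetM)
open W388 (GoodE TwE SelE)

namespace Pool.Agent.JZ12

lemma fam_congr' (M X Y : ℕ) (f g : (q : ℕ) → DirichletCharacter ℂ q → ℝ)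
    (h : ∀ q : ℕ, X < q → q ≤ Y → Nat.Coprime q M → ∀ χ : DirichletCharacter ℂ q, χ.IsPrimitive →
      f q χ = g q χ) : primFamM M X Y f = primFamM M X Y g := by
  rw [primFamM_eq, primFamM_eq]
  refine Finset.sum_congr rfl fun p hp => ?_
  obtain ⟨h1, h2, h4, h3⟩ := (mem_primSetM M X Y p).mp hp
  rw [h p.1 h1 h2 h4 p.2 h3]

theorem unions (hm : StMain) (htw : StTw) (hn : StNum) (hc : StCounts) (r : ℕ) (D : Dat r)
    (hr : 1 ≤ r) (M : ℕ) (hM : M ≠ 0) (hN : ∀ j, D.N j ∣ M) (ε : ℝ) (hε : 0 < ε) :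
    ∃ K η X0 : ℝ, 1 ≤ K ∧ 0 < η ∧ 1 ≤ X0 ∧
    ∀ (X Y : ℕ) (T : ℝ), X0 ≤ X → K * X ≤ Y → (Y : ℝ) ≤ (X : ℝ) ^ (1 + η) →
      (Real.log X) ^ 2 ≤ T → T ≤ (X : ℝ) ^ η →
      0 < primFamM M X Y (fun q χ => ((∑ j, NN (D.L j q χ) T (2 * T) : ℕ) : ℝ)) ∧
      (∀ q : ℕ, X < q → Nat.Coprime q M → ∀ χ : DirichletCharacter ℂ q, χ.IsPrimitive →
        ∀ j, (zset (D.L j q χ) T (2 * T)).Finite) ∧
      (6 * r / (3 * r + 4) - ε) *
        (primFamM M X Y (fun q χ => ((∑ j, NN (D.L j q χ) T (2 * T) : ℕ) : ℝ)) / r) ≤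
        primFamM M X Y (fun q χ => ((⋃ j, zset (D.L j q χ) T (2 * T)).ncard : ℝ)) := by
  have hr0 : (0 : ℝ) < r := by exact_mod_cast hr
  obtain ⟨κ0, hκ0⟩ : ∃ κ0 : ℝ, κ0 = (r : ℝ) / 2 + 2 / 3 := ⟨_, rfl⟩
  have hκ0p : 0 < κ0 := by rw [hκ0]; positivity
  obtain ⟨κ, hκ⟩ : ∃ κ : ℝ, κ = κ0 * (1 + ε * κ0 / r) := ⟨_, rfl⟩
  have hδ : 0 < ε * κ0 / r := by positivity
  have hκκ : κ0 < κ := by rw [hκ]; nlinarith
  have hκp : 0 < κ := hκ0p.trans hκκ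
  have hkey : 6 * (r : ℝ) / (3 * r + 4) - ε ≤ r / κ := by
    have e1 : 6 * (r : ℝ) / (3 * r + 4) = r / κ0 := by
      rw [hκ0]
      field_simp
      ring
    rw [e1, le_div_iff₀ hκp, hκ]
    have e2 : ((r : ℝ) / κ0 - ε) * (κ0 * (1 + ε * κ0 / r)) = r - ε * κ0 * (ε * κ0 / r) := by
      field_simp
      ring
    rw [e2]
    have : 0 ≤ ε * κ0 * (ε * κ0 / r) := by positivity
    linarith
  obtain ⟨γ, hγ0, hγπ, hγ⟩ := hn r κ hr (by rw [← hκ0]; exact hκκ)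
  obtain ⟨K, η, X0, hK, hη, hX0, h⟩ := hm r D M hr hM hN γ κ hγ0 hγπ hγ
  have hgood := (htw r D hr).1
  refine ⟨K, η, X0, hK, hη, hX0, ?_⟩
  intro X Y T hX hKX hY hT1 hT2
  obtain ⟨hT0, hX2, b0, -, -, b3⟩ := h X Y T hX hKX hY hT1 hT2
  have hgl : ∀ q : ℕ, X < q → Nat.Coprime q M → ∀ χ : DirichletCharacter ℂ q, χ.IsPrimitive →
      ∀ j, GoodL (D.L j q χ) := by
    intro q hq hc χ hχ j
    exact hgood q χ j (by omega) (Nat.Coprime.coprime_dvd_right (hN j) hc) hχ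
  have hNN : primFamM M X Y (fun q χ => (NN (D.F q χ) T (2 * T) : ℝ)) =
      primFamM M X Y (fun q χ => ((∑ j, NN (D.L j q χ) T (2 * T) : ℕ) : ℝ)) := by
    refine fam_congr' M X Y _ _ fun q hq hq2 hcM χ hχ => ?_
    have := (hc r (fun j => D.L j q χ) (hgl q hq hcM χ hχ) T hT0).2.1
    have e : D.F q χ = fun s => ∏ j, D.L j q χ s := rfl
    rw [e, this]
  have hNd : primFamM M X Y (fun q χ => (Nd (D.F q χ) T (2 * T) : ℝ)) =
      primFamM M X Y (fun q χ => ((⋃ j, zset (D.L j q χ) T (2 * T)).ncard : ℝ)) := by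
    refine fam_congr' M X Y _ _ fun q hq hq2 hcM χ hχ => ?_
    have := (hc r (fun j => D.L j q χ) (hgl q hq hcM χ hχ) T hT0).2.2
    have e : D.F q χ = fun s => ∏ j, D.L j q χ s := rfl
    unfold Nd
    rw [e, this]
  rw [hNN] at b0 b3
  rw [hNd] at b3
  refine ⟨b0, fun q hq hcM χ hχ j => (hc r (fun j => D.L j q χ) (hgl q hq hcM χ hχ) T hT0).1 j, ?_⟩
  obtain ⟨S, hS⟩ : ∃ S : ℝ, S =
    primFamM M X Y (fun q χ => ((∑ j, NN (D.L j q χ) T (2 * T) : ℕ) : ℝ)) := ⟨_, rfl⟩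
  rw [← hS] at b0 b3 ⊢
  calc (6 * (r : ℝ) / (3 * r + 4) - ε) * (S / r) ≤ r / κ * (S / r) :=
        mul_le_mul_of_nonneg_right hkey (by positivity)
    _ = S / κ := by field_simp
    _ ≤ _ := by
        rw [div_le_iff₀ hκp, mul_comm]
        exact b3

end Pool.Agent.JZ12
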