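import Pool.Agent.JZ12.Defs2
import Pool.Agent.JZ12.Main
import Pool.Agent.H370R2.Defs
import Pool.Agent.H385R2.FinDA0

/-!
# JZ : unions of the zeros of `r` L-functions, zeros with real part at least 1/2 (assembly)
-/

set_option autoImplicit false

open Complex Filter Topology Set MeasureTheory
open H370 (zset mult NN Nd Ns GoodL)
open H385 (primFamM Rw HYM pm GoodU primFamM_lin primFamM_eq mem_primSetM)
open W388 (GoodE TwE SelE)

namespace Pool.Agent.JZ12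

lemma fam_congr2 (M X Y : ℕ) (f g : (q : ℕ) → DirichletCharacter ℂ q → ℝ)
    (h : ∀ q : ℕ, X < q → q ≤ Y → Nat.Coprime q M → ∀ χ : DirichletCharacter ℂ q, χ.IsPrimitive →
      f q χ = g q χ) : primFamM M X Y f = primFamM M X Y g := by
  rw [primFamM_eq, primFamM_eq]
  refine Finset.sum_congr rfl fun p hp => ?_
  obtain ⟨h1, h2, h4, h3⟩ := (mem_primSetM M X Y p).mp hp
  rw [h p.1 h1 h2 h4 p.2 h3]

theorem unionsh (hm : StMain) (hfh : StFinh) (hs : StSel) (htw : StTw) (hn : StNum)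
    (hc : StCounts) (r : ℕ) (D : Dat r)
    (hr : 1 ≤ r) (M : ℕ) (hM : M ≠ 0) (hN : ∀ j, D.N j ∣ M) (ε : ℝ) (hε : 0 < ε) :
    ∃ K η X0 : ℝ, 1 ≤ K ∧ 0 < η ∧ 1 ≤ X0 ∧
    ∀ (X Y : ℕ) (T : ℝ), X0 ≤ X → K * X ≤ Y → (Y : ℝ) ≤ (X : ℝ) ^ (1 + η) →
      (Real.log X) ^ 2 ≤ T → T ≤ (X : ℝ) ^ η →
      0 < primFamM M X Y (fun q χ => ((∑ j, NN (D.L j q χ) T (2 * T) : ℕ) : ℝ)) ∧
      (∀ q : ℕ, X < q → Nat.Coprime q M → ∀ χ : DirichletCharacter ℂ q, χ.IsPrimitive →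
        ∀ j, (zset (D.L j q χ) T (2 * T)).Finite) ∧
      (6 * r / (3 * r + 4) - ε) *
        (primFamM M X Y (fun q χ => ((∑ j, NN (D.L j q χ) T (2 * T) : ℕ) : ℝ)) / r) ≤
        primFamM M X Y (fun q χ =>
          ({s : ℂ | (∃ j, s ∈ zset (D.L j q χ) T (2 * T)) ∧ 1 / 2 ≤ s.re}.ncard : ℝ)) := by
  have hr0 : (0 : ℝ) < r := by exact_mod_cast hr
  obtain ⟨κ0, hκ0⟩ : ∃ κ0 : ℝ, κ0 = (r : ℝ) / 2 + 2 / 3 := ⟨_, rfl⟩
  have hκ0p : 0 < κ0 := by rw [hκ0]; positivity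
  obtain ⟨κ, hκ⟩ : ∃ κ : ℝ, κ = κ0 * (1 + ε * κ0 / r) := ⟨_, rfl⟩
  have hδ : 0 < ε * κ0 / r := by positivity
  have hκκ : κ0 < κ := by rw [hκ]; nlinarith
  have hκp : 0 < κ := hκ0p.trans hκκ
  have hkey : 6 * (r : ℝ) / (3 * r + 4) - ε ≤ r / κ := by
    have e1 : 6 * (r : ℝ) / (3 * r + 4) = r / κ0 := by
      rw [hκ0]
      field_simp
      ring
    rw [e1, le_div_iff₀ hκp, hκ]
    have e2 : ((r : ℝ) / κ0 - ε) * (κ0 * (1 + ε * κ0 / r)) = r - ε * κ0 * (ε * κ0 / r) := by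
      field_simp
      ring
    rw [e2]
    have : 0 ≤ ε * κ0 * (ε * κ0 / r) := by positivity
    linarith
  obtain ⟨γ, hγ0, hγπ, hγ⟩ := hn r κ hr (by rw [← hκ0]; exact hκκ)
  obtain ⟨K1, η1, X1, hK1, hη1, hX1, h1⟩ := hm r D M hr hM hN γ κ hγ0 hγπ hγ
  -- the variant with `Nh`
  obtain ⟨M', hM'⟩ : ∃ M' : ℕ, M' = rad M := ⟨_, rfl⟩
  have hsq : Squarefree M' := by rw [hM']; exact rad_squarefree _
  have hcop : ∀ q : ℕ, Nat.Coprime q M' ↔ Nat.Coprime q M := by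
    rw [hM']; exact coprime_rad hM
  obtain ⟨A, hA, hT⟩ := (htw r D hr).2 M' (fun q hq j =>
    Nat.Coprime.coprime_dvd_right (hN j) ((hcop q).1 hq))
  have hsr : ((Real.sqrt r : ℝ) : ℂ) ≠ 0 := by
    rw [Complex.ofReal_ne_zero]
    exact (Real.sqrt_pos.2 hr0).ne'
  obtain ⟨K2, η2, X2, hK2, hη2, hX2, h2⟩ := hfh r A hr hA M' hsq D.c
    (fun n => ((Real.sqrt r : ℝ) : ℂ)⁻¹ * D.c n) (fun n => by
      rw [mul_inv_cancel_left₀ hsr]) D.F hT (hs r D hr) γ κ hγ0 hγπ hγ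
  have hgood := (htw r D hr).1
  refine ⟨max K1 K2, min η1 η2, max X1 X2, le_max_of_le_left hK1, lt_min hη1 hη2,
    le_max_of_le_left hX1, ?_⟩
  intro X Y T hX hKX hY hT1 hT2
  have hXX1 : X1 ≤ (X : ℝ) := (le_max_left _ _).trans hX
  have hXX2 : X2 ≤ (X : ℝ) := (le_max_right _ _).trans hX
  have hX1' : (1 : ℝ) ≤ X := hX1.trans hXX1
  have hX0 : (0 : ℝ) ≤ X := by linarith
  obtain ⟨hT0, -, b0, -, -, -⟩ := h1 X Y T hXX1
    ((mul_le_mul_of_nonneg_right (le_max_left _ _) hX0).trans hKX)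
    (hY.trans (Real.rpow_le_rpow_of_exponent_le hX1' (by linarith [min_le_left η1 η2]))) hT1
    (hT2.trans (Real.rpow_le_rpow_of_exponent_le hX1' (min_le_left _ _)))
  have b3 := h2 X Y T hXX2
    ((mul_le_mul_of_nonneg_right (le_max_right _ _) hX0).trans hKX)
    (hY.trans (Real.rpow_le_rpow_of_exponent_le hX1' (by linarith [min_le_right η1 η2]))) hT1
    (hT2.trans (Real.rpow_le_rpow_of_exponent_le hX1' (min_le_right _ _)))
  simp only [hM', primFamM_rad hM] at b3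
  have hgl : ∀ q : ℕ, X < q → Nat.Coprime q M → ∀ χ : DirichletCharacter ℂ q, χ.IsPrimitive →
      ∀ j, GoodL (D.L j q χ) := by
    intro q hq hc χ hχ j
    exact hgood q χ j (by omega) (Nat.Coprime.coprime_dvd_right (hN j) hc) hχ
  have hNN : primFamM M X Y (fun q χ => (NN (D.F q χ) T (2 * T) : ℝ)) =
      primFamM M X Y (fun q χ => ((∑ j, NN (D.L j q χ) T (2 * T) : ℕ) : ℝ)) := by
    refine fam_congr2 M X Y _ _ fun q hq hq2 hcM χ hχ => ?_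
    have := (hc r (fun j => D.L j q χ) (hgl q hq hcM χ hχ) T hT0).2.1
    have e : D.F q χ = fun s => ∏ j, D.L j q χ s := rfl
    rw [e, this]
  have hNd : primFamM M X Y (fun q χ => (Nh (D.F q χ) T (2 * T) : ℝ)) =
      primFamM M X Y (fun q χ =>
        ({s : ℂ | (∃ j, s ∈ zset (D.L j q χ) T (2 * T)) ∧ 1 / 2 ≤ s.re}.ncard : ℝ)) := by
    refine fam_congr2 M X Y _ _ fun q hq hq2 hcM χ hχ => ?_
    have := (hc r (fun j => D.L j q χ) (hgl q hq hcM χ hχ) T hT0).2.2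
    have e : D.F q χ = fun s => ∏ j, D.L j q χ s := rfl
    unfold Nh
    rw [e, this]
    congr 2
    ext s
    simp only [Set.mem_iUnion, Set.mem_ofPred_eq]
  rw [hNN] at b0 b3
  rw [hNd] at b3
  refine ⟨b0, fun q hq hcM χ hχ j => (hc r (fun j => D.L j q χ) (hgl q hq hcM χ hχ) T hT0).1 j, ?_⟩
  obtain ⟨S, hS⟩ : ∃ S : ℝ, S =
    primFamM M X Y (fun q χ => ((∑ j, NN (D.L j q χ) T (2 * T) : ℕ) : ℝ)) := ⟨_, rfl⟩
  rw [← hS] at b0 b3 ⊢
  calc (6 * (r : ℝ) / (3 * r + 4) - ε) * (S / r) ≤ r / κ * (S / r) :=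
        mul_le_mul_of_nonneg_right hkey (by positivity)
    _ = S / κ := by field_simp
    _ ≤ _ := by
        rw [div_le_iff₀ hκp, mul_comm]
        exact b3

end Pool.Agent.JZ12
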